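import Pool.Agent.H14.OCL.Defs
import Pool.Agent.H20.OCM.Act

/-!
# ACTR with the size of the events chosen before the length of the runs
-/

set_option autoImplicit false

namespace Pool.OCL

open Finset Real
open Pool.Agent.H49.Ent Pool.Agent.H32.Dense Pool.STK Pool.KAF Pool.OCV
open Pool.OCM.RN20 (dg acf rns few runs runs_all)
open Pool.OCV.AC20 (shift_count)

/-- **ACTR**, `π₀` does not depend on `R` and on `A`. -/
def ACTRLStmt (c : ℕ) : Prop :=
  ∀ ca : ℝ, 0 < ca → ∃ c₂ : ℝ, 0 < c₂ ∧ c₂ ≤ 1 ∧ ∀ η π₁ : ℝ, 0 < η → η ≤ 1 → 0 < π₁ →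
    ∃ π₀ : ℝ, 0 < π₀ ∧ ∀ R : ℕ, ∃ (c₁ : ℝ) (k₇ : ℕ), 0 < c₁ ∧ ∀ A : ℕ, ∃ X₀ : ℕ,
      ∀ d : Dat c, d.OK A → X₀ ≤ d.X → d.H4 ca η π₀ →
        Pr d.P {ω | ∃ i : ℕ, i + 2 * ⌊η * d.X⌋₊ ≤ d.X ∧
          (Set.ncard {j | i ≤ j ∧ j < i + 2 * ⌊η * d.X⌋₊ ∧
            ∀ o ≤ R, d.act c₁ k₇ (j + o) (d.L ω)} : ℝ) < c₂ * (2 * ⌊η * d.X⌋₊ : ℕ)} ≤ π₁

/-- **ACTR**, order. -/
theorem actrl_thm (c : ℕ) : ACTRLStmt c := by
  classical
  intro ca hca
  refine ⟨min 1 (ca / 8), lt_min one_pos (by positivity), min_le_left _ _, ?_⟩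
  intro η π₁ hη hη1 hπ₁
  refine ⟨π₁ * η / 2, by positivity, fun R => ?_⟩
  obtain ⟨K, h₀, hK, hrun⟩ := runs ca hca R
  refine ⟨1 / 2, K + R, by norm_num, fun A => ?_⟩
  obtain ⟨X₁, hX₁⟩ := exists_nat_ge ((h₀ + 4 * R / ca + 2) / η)
  refine ⟨X₁, ?_⟩
  intro d hOK hX hH4
  have hX1 : ((h₀ : ℝ) + 4 * R / ca + 2) ≤ η * d.X := by
    rw [div_le_iff₀ hη] at hX₁
    have h1 : (X₁ : ℝ) ≤ d.X := by exact_mod_cast hX
    have h2 := mul_le_mul_of_nonneg_right h1 hη.le
    linarith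
  have hR0 : 0 ≤ 4 * (R : ℝ) / ca := by positivity
  obtain ⟨h, hh⟩ : ∃ h, h = ⌊η * d.X⌋₊ := ⟨_, rfl⟩
  have hX0 : (0 : ℝ) ≤ d.X := Nat.cast_nonneg _
  have hhle : (h : ℝ) ≤ η * d.X := by
    rw [hh]
    exact Nat.floor_le (by positivity)
  have hhgt : η * d.X < h + 1 := by
    rw [hh]
    exact Nat.lt_floor_add_one _
  have hh0 : (h₀ : ℝ) + 4 * R / ca + 1 < h := by linarith
  have hh1 : h₀ ≤ h := by
    have : (h₀ : ℝ) < h := by linarith
    exact_mod_cast this.le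
  have hhp : 0 < h := by
    have : (0 : ℝ) < h := by
      have := Nat.cast_nonneg (α := ℝ) h₀
      linarith
    exact_mod_cast this
  have hh2 : η * d.X ≤ 2 * h := by
    have : (1 : ℝ) ≤ h := by exact_mod_cast hhp
    linarith
  obtain ⟨x, hx⟩ : ∃ x : d.Om → ℝ, x = fun ω => d.omR (d.L ω) := ⟨_, rfl⟩
  -- all the aligned blocks
  have hall := runs_all (ca := ca) (R := R) (K := K) (s₀ := 0) (h := h) (N := d.X / h)
    (p := d.P) (x := x) (lab := d.B) (c := 1 / 2) (π₀ := π₁ * η / 2) hOK.law (by positivity)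
    (fun s hs => hrun d.Om d.Bt d.P x d.B (1 / 2) s h hOK.law le_rfl hh1 hs)
    (by
      intro m hm E hE
      have hm1 : (m + 1) * h ≤ d.X :=
        (Nat.mul_le_mul_right h hm).trans (Nat.div_mul_le_self d.X h)
      have h1 := hH4 m (by rw [← hh]; exact hm1) E hE
      rw [← hh] at h1
      have e1 : 0 + m * h + h = (m + 1) * h := by ring
      have e2 : 0 + m * h = m * h := by ring
      rw [e1, e2, hx]
      exact h1)
  refine le_trans ?_ (hall.trans ?_)
  · -- every interval contains an aligned block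
    have hmono := Pool.OC.Pr_or (p := d.P) hOK.law.nonneg
      (A := {ω | ∃ i : ℕ, i + 2 * ⌊η * d.X⌋₊ ≤ d.X ∧
          (Set.ncard {j | i ≤ j ∧ j < i + 2 * ⌊η * d.X⌋₊ ∧
            ∀ o ≤ R, d.act (1 / 2) (K + R) (j + o) (d.L ω)} : ℝ) <
              min 1 (ca / 8) * (2 * ⌊η * d.X⌋₊ : ℕ)})
      (B := {ω | ∃ m < d.X / h, ω ∈ few d.P x d.B (1 / 2) K R (0 + m * h) h (ca / 2)})
      (C := ∅) (by
        intro ω _ hω
        left
        obtain ⟨i, hi1, hi2⟩ := hω
        rw [← hh] at hi1 hi2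
        by_contra hcon
        simp only [Set.mem_ofPred_eq, not_exists, not_and] at hcon
        obtain ⟨m, hm⟩ : ∃ m, m = (i + h - 1) / h := ⟨_, rfl⟩
        have hm1 : m * h ≤ i + h - 1 := by
          rw [hm]
          exact Nat.div_mul_le_self _ _
        have hm2 : i + h - 1 < m * h + h := by
          rw [hm]
          exact Nat.lt_div_mul_add hhp
        have hm3 : m < d.X / h := by
          rw [Nat.lt_iff_add_one_le, Nat.le_div_iff_mul_le hhp]
          have : (m + 1) * h = m * h + h := by ring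
          omega
        have h1 := hcon m hm3
        have h2 : ca / 2 * h ≤ (Set.ncard {j | j ∈ rns d.P x d.B (1 / 2) K R ω ∧
            0 + m * h ≤ j ∧ j < 0 + m * h + h} : ℝ) := by
          by_contra h3
          exact h1 (not_le.1 h3)
        rw [zero_add] at h2
        have h3 := shift_count (J := {j | d.act (1 / 2) (K + R) j (d.L ω)}) (R := R) (i := i)
          (h := h) (m := m) (a := ca / 2 * h) (by omega) (by omega) (by
            refine h2.trans (le_of_eq ?_)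
            rw [hx]
            rfl)
        have h4 : ca / 2 * h - R ≤ (Set.ncard {j | i ≤ j ∧ j < i + 2 * h ∧
            ∀ o ≤ R, d.act (1 / 2) (K + R) (j + o) (d.L ω)} : ℝ) := h3
        have h5 := h4.trans_lt hi2
        have h6 : min 1 (ca / 8) * ((2 * h : ℕ) : ℝ) ≤ ca / 8 * (2 * h) := by
          push_cast
          exact mul_le_mul_of_nonneg_right (min_le_right _ _) (by positivity)
        have h7 : 4 * (R : ℝ) / ca ≤ h := by
          have := Nat.cast_nonneg (α := ℝ) h₀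
          linarith
        rw [div_le_iff₀ hca] at h7
        nlinarith)
    have hempty : Pr d.P (∅ : Set d.Om) = 0 := by
      rw [Pool.KAF.Pr_eq]
      simp
    rw [hempty, add_zero] at hmono
    exact hmono
  · -- the number of the blocks
    have h1 : ((d.X / h : ℕ) : ℝ) * h ≤ d.X := by exact_mod_cast Nat.div_mul_le_self d.X h
    have h2 : ((d.X / h : ℕ) : ℝ) * η ≤ 2 := by
      by_cases hXp : (d.X : ℝ) = 0
      · have : d.X = 0 := by exact_mod_cast hXp
        rw [this, Nat.zero_div]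
        simp
      · have hXp' : 0 < (d.X : ℝ) := lt_of_le_of_ne hX0 (Ne.symm hXp)
        have h3 := mul_le_mul_of_nonneg_left hh2 (Nat.cast_nonneg (α := ℝ) (d.X / h))
        have h4 : ((d.X / h : ℕ) : ℝ) * η * d.X ≤ 2 * d.X := by
          calc ((d.X / h : ℕ) : ℝ) * η * d.X = ((d.X / h : ℕ) : ℝ) * (η * d.X) := by ring
            _ ≤ ((d.X / h : ℕ) : ℝ) * (2 * h) := h3
            _ = 2 * (((d.X / h : ℕ) : ℝ) * h) := by ring
            _ ≤ 2 * d.X := by linarith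
        exact le_of_mul_le_mul_right h4 hXp'
    calc ((d.X / h : ℕ) : ℝ) * (π₁ * η / 2) = ((d.X / h : ℕ) : ℝ) * η * (π₁ / 2) := by ring
      _ ≤ 2 * (π₁ / 2) := mul_le_mul_of_nonneg_right h2 (by positivity)
      _ = π₁ := by ring


end Pool.OCL
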