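import Pool.Agent.H98.OCV.Line

/-!
# OCV: the argument on one line with an arbitrary coupling constant

`Pool.OCV.Line.line` where the constant `3` of the coupling is replaced by `κ`.
-/

set_option autoImplicit false

namespace Pool.OCL

open Finset Real
open Pool.Agent.H49.Ent Pool.Agent.H32.Dense Pool.STK Pool.KAF
open Pool.OCM Pool.OCV
open Pool.OC (sc sc_spec sc_ge sc_leW Pr_or isLaw_cnd floor_half)

namespace Line

open Pool.OCV.Line

variable {c : ℕ} {d : Dat c} {w : d.Om} {M : Fin c → Fin c → ℝ}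

/-- Coupling of the laws of two consecutive scales. -/
theorem pk_succ (hp : IsLaw d.P) (hw : 0 < d.P w) {i : ℕ} {κ : ℝ} (hκ : 0 < κ)
    (h : ¬ Pr (d.pk i w) {v | d.Ti (i + 1) v = d.Ti (i + 1) w} < 1 / κ) (t : d.Om) :
    d.pk (i + 1) w t ≤ κ * d.pk i w t := by
  classical
  set Z₀ := law d.P (fun v => (d.L v, d.Ti i v)) (d.L w, d.Ti i w) with hZ0
  set Z₁ := law d.P (fun v => (d.L v, d.Ti (i + 1) v)) (d.L w, d.Ti (i + 1) w) with hZ1
  have p0 : 0 < Z₀ := law_pos hp.nonneg (fun v => (d.L v, d.Ti i v)) hw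
  have p1 : 0 < Z₁ := law_pos hp.nonneg (fun v => (d.L v, d.Ti (i + 1) v)) hw
  have h1 : Pr (d.pk i w) {v | d.Ti (i + 1) v = d.Ti (i + 1) w} = Z₁ / Z₀ := by
    rw [Pr_eq, hZ1]
    unfold law
    rw [Finset.sum_div]
    refine Finset.sum_congr rfl fun v _ => ?_
    unfold Dat.pk Pool.Agent.H49.Ent.cond
    by_cases h2 : (d.L v, d.Ti (i + 1) v) = (d.L w, d.Ti (i + 1) w)
    · have h3 := Prod.ext_iff.mp h2
      have h4 : (d.L v, d.Ti i v) = (d.L w, d.Ti i w) := Prod.ext h3.1 (Ti_succ h3.2)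
      rw [if_pos h2, if_pos h4, if_pos (show v ∈ {v | d.Ti (i + 1) v = d.Ti (i + 1) w} from h3.2)]
    · rw [if_neg h2, zero_div]
      by_cases h5 : v ∈ {v | d.Ti (i + 1) v = d.Ti (i + 1) w}
      · rw [if_pos h5, if_neg]
        intro h6
        exact h2 (Prod.ext (Prod.ext_iff.mp h6).1 h5)
      · rw [if_neg h5]
  rw [h1, not_lt, le_div_iff₀ p0] at h
  unfold Dat.pk Pool.Agent.H49.Ent.cond
  by_cases h2 : (d.L t, d.Ti (i + 1) t) = (d.L w, d.Ti (i + 1) w)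
  · have h3 := Prod.ext_iff.mp h2
    have h4 : (d.L t, d.Ti i t) = (d.L w, d.Ti i w) := Prod.ext h3.1 (Ti_succ h3.2)
    rw [if_pos h2, if_pos h4]
    rw [← hZ0, ← hZ1, ← mul_div_assoc, div_le_div_iff₀ p1 p0]
    have h5 := hp.nonneg t
    have h6 : Z₀ ≤ κ * Z₁ := by
      have h7 := mul_le_mul_of_nonneg_left h hκ.le
      have h8 : κ * (1 / κ * Z₀) = Z₀ := by
        field_simp
      linarith
    have h9 := mul_le_mul_of_nonneg_left h6 h5
    linarith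
  · rw [if_neg h2]
    split_ifs
    · have := hp.nonneg t
      positivity
    · simp

open Classical in
/-- **One line, one row, one shift.** The covector nearly annihilates the reference. -/
theorem line {κ δc : ℝ} (hκ : 0 < κ) (hp : IsLaw d.P) (hth : ∀ t, 0 ≤ d.th t ∧ d.th t < 1) (hw : 0 < d.P w)
    {q n0 n R kz g k₇ r h : ℕ} {c₁ c₂ C₁ δ' δ δ₀ η : ℝ} {φ : d.Om → ℝ} {ρ : d.Om}
    (hone : ∀ n : ℕ, n0 ≤ n → ∀ (P : ℕ → d.Om → ℝ) (φ : d.Om → ℝ) (ε : ℝ) (F : Finset ℕ),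
      0 ≤ ε → (∀ i < n, ∀ t, 0 ≤ P i t) → (∀ i < n, ∑ t, P i t = 1) →
      (∀ x, x + n / q ≤ 2 * n → c₂ / 2 * (n / q : ℕ) ≤ ((nb F (n / q) x).card : ℝ)) →
      (∑ i ∈ range n, ∑ j ∈ range n, (if i + j ∈ F then beta P φ ε i j else 0) ≤ δ * n ^ 2) →
      (∀ A : Finset ℕ, (∀ i ∈ A, i < n ∧ ¬ ∀ t, P (i + 1) t ≤ κ * P i t) →
        (A.card : ℝ) ≤ δc * n) →
      ∑ i ∈ range n, ms (P i) (fun a => C₁ * ε < ‖φ a‖) ≤ δ' * n)
    (hn0 : n0 ≤ n) (hn : 0 < n) (hc2 : 0 < c₂) (hh : 0 < h) (h2 : 2 * h ≤ n / q)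
    (hrun : ∀ i, i + 2 * h ≤ d.X → c₂ * (2 * h : ℕ) ≤ (Set.ncard {j | i ≤ j ∧
      j < i + 2 * h ∧ ∀ o ≤ 2 * R, d.act c₁ k₇ (j + o) (d.L w)} : ℝ))
    (hr : 5 * n + 2 * R + 1 ≤ r) (hrX : r ≤ d.X)
    (hT : (Set.ncard {i : ℕ | n ≤ i ∧ i < 2 * n ∧
      Pr (d.pk i w) {v | d.Ti (i + 1) v = d.Ti (i + 1) w} < 1 / κ} : ℝ) ≤ δc * n)
    (hB : ∑ i ∈ range n, ms (d.pk (n + i) w) (Bs d M kz R w (n + i)) ≤ η * n)
    (hrel : ∑ i ∈ range n, ∑ j ∈ range n,
      fl (d.pk (n + i) w) (d.pk (n + j) w) (Bad d M kz g k₇ c₁ r w φ) ≤ δ₀ * n ^ 2)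
    (hρ1 : (2 : ℝ) ^ (-(3 * (n : ℤ))) ≤ |d.th (d.T ρ) - d.th (d.T w)|)
    (hρ2 : ∀ k, |zc M (d.chi (d.T w) (d.T ρ)) k| ≤ 2 ^ kz)
    (href1 : ∑ j ∈ range n, ms (d.pk (n + j) w) (fun a => Bad d M kz g k₇ c₁ r w φ ρ a) ≤
      δ₀ * n)
    (href2 : ∑ j ∈ range n, ms (d.pk (n + j) w) (fun a => Bad d M kz g k₇ c₁ r w φ a ρ) ≤
      δ₀ * n)
    (k1 : 2 * δ₀ + 2 * η ≤ δ / 2) (k2 : 2 * (R + kz + g + 4 : ℕ) ≤ δ / 2 * n)
    (k3 : 2 * δ₀ + η ≤ c₂ / 16) (k4 : δ' ≤ c₂ / 16)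
    (k5 : 2 * ((R + kz + g + 4 : ℕ) : ℝ) ≤ c₂ / 4 * n) :
    |φ ρ| ≤ (C₁ + 1) * (2 : ℝ) ^ (-(g : ℤ)) := by
  have law : ∀ i, IsLaw (d.pk (n + i) w) := fun i => pk_law (w := w) hp hw (n + i)
  obtain ⟨Run, hRun⟩ : ∃ Run : ℕ → Prop,
    Run = fun j => ∀ o ≤ 2 * R, d.act c₁ k₇ (j + o) (d.L w) := ⟨_, rfl⟩
  have hRun' : ∀ j, Run j ↔ ∀ o ≤ 2 * R, d.act c₁ k₇ (j + o) (d.L w) := by
    intro j
    rw [hRun]
  replace hrun : ∀ i, i + 2 * h ≤ d.X → c₂ * (2 * h : ℕ) ≤ (Set.ncard {j | i ≤ j ∧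
      j < i + 2 * h ∧ Run j} : ℝ) := by
    intro i hi
    have := hrun i hi
    simp only [hRun']
    exact this
  clear hRun
  have hnR : (0 : ℝ) < n := by exact_mod_cast hn
  -- the set of sums
  set F : Finset ℕ := (range (2 * n)).filter (fun s => Run (r - 2 * n - s - 2 * R)) with hF
  have hFd : ∀ x, x + n / q ≤ 2 * n → c₂ / 2 * (n / q : ℕ) ≤ ((nb F (n / q) x).card : ℝ) := by
    intro x hx
    set m := n / q with hm
    have h3 := run_count Run h d.X c₂ hh hc2.le hrun (r - 2 * n - x - 2 * R - m + 1) m h2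
      (by omega)
    refine le_trans h3 ?_
    have : ((Ico (r - 2 * n - x - 2 * R - m + 1) (r - 2 * n - x - 2 * R - m + 1 + m)).filter
        Run).card ≤ (nb F m x).card := by
      refine Finset.card_le_card_of_injOn (fun j => r - 2 * n - x - 2 * R - j) ?_ ?_
      · intro j hj
        rw [Finset.mem_coe, Finset.mem_filter, Finset.mem_Ico] at hj
        rw [Finset.mem_coe, mem_nb, hF, Finset.mem_filter, Finset.mem_range]
        have : r - 2 * n - (x + (r - 2 * n - x - 2 * R - j)) - 2 * R = j := by omega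
        refine ⟨by beta_reduce; omega, by beta_reduce; omega, ?_⟩
        beta_reduce
        rw [this]
        exact hj.2
      · intro j hj j' hj' hjj
        rw [Finset.mem_coe, Finset.mem_filter, Finset.mem_Ico] at hj hj'
        simp only at hjj
        omega
    exact_mod_cast this
  have hsum := beta_sum (φ := φ) hp hw hr F (by
    intro s hs
    rw [hF, Finset.mem_filter, hRun'] at hs
    exact hs.2) hB hrel
  have hsum' : ∑ i ∈ range n, ∑ j ∈ range n, (if i + j ∈ F then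
      beta (fun i => d.pk (n + i) w) φ ((2 : ℝ) ^ (-(g : ℤ))) i j else 0) ≤ δ * n ^ 2 := by
    refine le_trans hsum ?_
    have e1 : 2 * ((R + kz + g + 4 : ℕ) : ℝ) * n ≤ δ / 2 * n * n :=
      mul_le_mul_of_nonneg_right k2 hnR.le
    have e2 : (2 * δ₀ + 2 * η) * (n : ℝ) ^ 2 ≤ δ / 2 * n ^ 2 :=
      mul_le_mul_of_nonneg_right k1 (by positivity)
    nlinarith
  have hcoup : ∀ A : Finset ℕ, (∀ i ∈ A, i < n ∧
      ¬ ∀ t, d.pk (n + (i + 1)) w t ≤ κ * d.pk (n + i) w t) → (A.card : ℝ) ≤ δc * n := by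
    intro A hA
    refine le_trans ?_ hT
    have h3 : ((A.image (fun i => n + i) : Finset ℕ) : Set ℕ) ⊆ {i : ℕ | n ≤ i ∧ i < 2 * n ∧
        Pr (d.pk i w) {v | d.Ti (i + 1) v = d.Ti (i + 1) w} < 1 / κ} := by
      intro x hx
      rw [Finset.mem_coe, Finset.mem_image] at hx
      obtain ⟨i, hi, rfl⟩ := hx
      obtain ⟨h4, h5⟩ := hA i hi
      refine ⟨by omega, by omega, ?_⟩
      by_contra h6
      exact h5 fun t => pk_succ hp hw hκ h6 t
    have h4 : (A.image (fun i => n + i)).card = A.card :=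
      Finset.card_image_of_injective _ (fun a b h => by simpa using h)
    have h5 : Set.Finite {i : ℕ | n ≤ i ∧ i < 2 * n ∧
        Pr (d.pk i w) {v | d.Ti (i + 1) v = d.Ti (i + 1) w} < 1 / κ} :=
      Set.Finite.subset (Finset.finite_toSet (Ico n (2 * n))) (by
        intro i hi
        simp only [Finset.coe_Ico, Set.mem_Ico]
        exact ⟨hi.1, hi.2.1⟩)
    have h6 := Set.ncard_le_ncard h3 h5
    rw [Set.ncard_coe_finset, h4] at h6
    exact_mod_cast h6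
  have hone' := hone n hn0 (fun i => d.pk (n + i) w) φ ((2 : ℝ) ^ (-(g : ℤ))) F (by positivity)
    (fun i _ => (law i).nonneg) (fun i _ => (law i).sum_one) hFd hsum' hcoup
  -- the reference
  have hρ0 : d.th (d.T ρ) - d.th (d.T w) ≠ 0 := by
    intro h
    rw [h, abs_zero] at hρ1
    have : (0 : ℝ) < (2 : ℝ) ^ (-(3 * (n : ℤ))) := by positivity
    linarith
  have hlt : |d.th (d.T ρ) - d.th (d.T w)| < (2 : ℝ) ^ (-((0 : ℕ) : ℤ)) := by
    have a := hth (d.T ρ)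
    have b := hth (d.T w)
    rw [abs_lt]
    norm_num
    constructor <;> linarith
  have s1 := sc_ge hρ0 hlt
  have s2 : sc (d.th (d.T ρ) - d.th (d.T w)) ≤ ((3 * n : ℕ) : ℤ) := sc_leW (by
    push_cast
    exact hρ1)
  obtain ⟨σ, hσ⟩ : ∃ σ : ℕ, sc (d.th (d.T ρ) - d.th (d.T w)) = σ :=
    ⟨(sc (d.th (d.T ρ) - d.th (d.T w))).toNat, by omega⟩
  have hσ3 : σ ≤ 3 * n := by
    rw [hσ] at s2
    exact_mod_cast s2
  have hq : 2 * h ≤ n := le_trans h2 (Nat.div_le_self _ _)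
  set J : Finset ℕ := (range n).filter (fun j => (σ + (R + kz + g + 4) ≤ n + j ∨
    n + j + (R + kz + g + 4) ≤ σ) ∧ Run (r - σ - n - j - R)) with hJ
  have hJc : c₂ / 4 * n ≤ (J.card : ℝ) :=
    ref_card (q := q) Run hh hc2 hrun hq hr hrX hσ3 k5
  have hJs : ∑ j ∈ J, ms (d.pk (n + j) w) (fun a => (2 : ℝ) ^ (-(g : ℤ)) < ‖φ ρ + φ a‖) ≤
      c₂ / 4 / 4 * n := by
    have h3 : ∀ j ∈ J, ms (d.pk (n + j) w) (fun a => (2 : ℝ) ^ (-(g : ℤ)) < ‖φ ρ + φ a‖) ≤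
        ms (d.pk (n + j) w) (fun a => Bad d M kz g k₇ c₁ r w φ ρ a) +
        ms (d.pk (n + j) w) (fun a => Bad d M kz g k₇ c₁ r w φ a ρ) +
        ms (d.pk (n + j) w) (Bs d M kz R w (n + j)) := by
      intro j hj
      rw [hJ, Finset.mem_filter, Finset.mem_range, hRun'] at hj
      obtain ⟨hj1, hj2, hj3⟩ := hj
      have h4 : ms (d.pk (n + j) w) (fun a => Bad d M kz g k₇ c₁ r w φ ρ a ∨
          Bad d M kz g k₇ c₁ r w φ a ρ) ≤
          ms (d.pk (n + j) w) (fun a => Bad d M kz g k₇ c₁ r w φ ρ a) +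
          ms (d.pk (n + j) w) (fun a => Bad d M kz g k₇ c₁ r w φ a ρ) :=
        ms_or (law j).nonneg fun a _ h => h
      refine le_trans (ms_or (s₁ := fun a => Bad d M kz g k₇ c₁ r w φ ρ a ∨
        Bad d M kz g k₇ c₁ r w φ a ρ) (s₂ := Bs d M kz R w (n + j)) (law j).nonneg ?_)
        (add_le_add_left h4 _)
      intro a ha hφ
      by_cases ha1 : Bs d M kz R w (n + j) a
      · exact Or.inr ha1
      left
      rcases hj2 with h5 | h5
      · exact Or.inl (good_ref1 hp ha ha1 hj1 hρ0 hσ hσ3 hρ2 h5 hr hj3 hφ)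
      · refine Or.inr (good_ref2 hp ha ha1 hj1 hρ0 hσ hσ3 hρ2 h5 hr hj3 ?_)
        rw [add_comm]
        exact hφ
    refine le_trans (Finset.sum_le_sum h3) ?_
    have h4 : ∑ j ∈ J, (ms (d.pk (n + j) w) (fun a => Bad d M kz g k₇ c₁ r w φ ρ a) +
        ms (d.pk (n + j) w) (fun a => Bad d M kz g k₇ c₁ r w φ a ρ) +
        ms (d.pk (n + j) w) (Bs d M kz R w (n + j))) ≤
        ∑ j ∈ range n, (ms (d.pk (n + j) w) (fun a => Bad d M kz g k₇ c₁ r w φ ρ a) +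
        ms (d.pk (n + j) w) (fun a => Bad d M kz g k₇ c₁ r w φ a ρ) +
        ms (d.pk (n + j) w) (Bs d M kz R w (n + j))) := by
      refine Finset.sum_le_sum_of_subset_of_nonneg (Finset.filter_subset _ _) fun j _ _ => ?_
      have b1 := ms_nonneg (law j).nonneg (fun a => Bad d M kz g k₇ c₁ r w φ ρ a)
      have b2 := ms_nonneg (law j).nonneg (fun a => Bad d M kz g k₇ c₁ r w φ a ρ)
      have b3 := ms_nonneg (law j).nonneg (Bs d M kz R w (n + j))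
      linarith
    refine le_trans h4 ?_
    rw [Finset.sum_add_distrib, Finset.sum_add_distrib]
    have h5 : (2 * δ₀ + η) * (n : ℝ) ≤ c₂ / 16 * n := mul_le_mul_of_nonneg_right k3 hnR.le
    linarith
  have hfin := one_ref (E := ℝ) (P := fun i => d.pk (n + i) w) (φ := φ)
    (ε := (2 : ℝ) ^ (-(g : ℤ))) (C := C₁) (c := c₂ / 4) (n := n) (by positivity) hn
    (fun i _ => (law i).nonneg) (fun i _ => (law i).sum_one) (φ ρ) J
    (Finset.filter_subset _ _) hJc hJs (by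
      refine le_trans hone' ?_
      have h5 : δ' * (n : ℝ) ≤ c₂ / 16 * n := mul_le_mul_of_nonneg_right k4 hnR.le
      linarith)
  exact hfin

end Line

end Pool.OCL
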