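import Pool.Agent.H79.OCM.One

/-!
# Row ONE with an arbitrary coupling constant

`Pool.OCM.OneStmt` where the constant `3` of the coupling of two consecutive scales is replaced by
an arbitrary number `κ`; the density of the scales at which the coupling may fail does not depend
on `κ`.
-/

set_option autoImplicit false

namespace Pool.OCL

open Finset Pool.OCM

universe u

section Basic

variable {T : Type u} [Fintype T]
variable {E : Type*} [SeminormedAddCommGroup E] {P : ℕ → T → ℝ} {φ : T → E} {ε κ : ℝ}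

/-- The modes of neighbouring scales are close. -/
lemma mode_next {i : ℕ} {d : ℝ} {μ μ' : E} (hi' : ∀ t, 0 ≤ P (i + 1) t)
    (hi'1 : ∑ t, P (i + 1) t = 1) (hκ : 0 ≤ κ) (hd : (κ + 1) * d < 1)
    (hP : ∀ t, P (i + 1) t ≤ κ * P i t)
    (hμ : ms (P i) (fun a => ε < ‖φ a - μ‖) ≤ d)
    (hμ' : ms (P (i + 1)) (fun a => ε < ‖φ a - μ'‖) ≤ d) : ‖μ - μ'‖ ≤ 2 * ε := by
  have h1 := ms_smul_le hP (fun a => ε < ‖φ a - μ‖)
  have h2 := mul_le_mul_of_nonneg_left hμ hκ
  obtain ⟨a, ha1, ha2⟩ := ms_ex (s := fun a => ε < ‖φ a - μ‖) (s' := fun a => ε < ‖φ a - μ'‖)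
    hi'1 (by linarith) hi'
  simp only [not_lt] at ha1 ha2
  have e1 : μ - μ' = (φ a - μ') - (φ a - μ) := by abel
  rw [e1]
  have k1 := norm_sub_le (φ a - μ') (φ a - μ)
  linarith

end Basic

section Main

variable {T : Type u} [Fintype T] {E : Type*} [SeminormedAddCommGroup E]

open Classical in
/-- The exceptional scales. -/
noncomputable def exc (κ : ℝ) (P : ℕ → T → ℝ) (φ : T → E) (ε : ℝ) (F : Finset ℕ) (n : ℕ) (d : ℝ) :
    Finset ℕ :=
  (range n).filter (fun i => (¬ ∀ t, P (i + 1) t ≤ κ * P i t) ∨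
    d * n < (((nb F n i).filter (fun j => d < beta P φ ε i j)).card : ℝ))

variable {P : ℕ → T → ℝ} {φ : T → E} {ε κ : ℝ} {F : Finset ℕ} {n : ℕ} {d δ δc : ℝ}

open Classical in
lemma exc_card (h0 : ∀ i < n, ∀ t, 0 ≤ P i t) (hn : 0 < n) (hd : 0 < d)
    (hR : ∑ i ∈ range n, ∑ j ∈ range n, (if i + j ∈ F then beta P φ ε i j else 0) ≤ δ * n ^ 2)
    (hC : (((range n).filter (fun i => ¬ ∀ t, P (i + 1) t ≤ κ * P i t)).card : ℝ) ≤ δc * n) :
    ((exc κ P φ ε F n d).card : ℝ) ≤ (δc + δ / d ^ 2) * n := by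
  set A := (range n).filter (fun i => ¬ ∀ t, P (i + 1) t ≤ κ * P i t) with hA
  set B := (range n).filter (fun i =>
    d * n < (((nb F n i).filter (fun j => d < beta P φ ε i j)).card : ℝ)) with hB
  have hn' : (0 : ℝ) < n := by exact_mod_cast hn
  have h1 : exc κ P φ ε F n d ⊆ A ∪ B := by
    intro i hi
    rw [exc, mem_filter] at hi
    rw [mem_union, hA, hB, mem_filter, mem_filter]
    rcases hi.2 with h | h
    · exact Or.inl ⟨hi.1, h⟩
    · exact Or.inr ⟨hi.1, h⟩
  have h2 : ((exc κ P φ ε F n d).card : ℝ) ≤ A.card + B.card := by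
    have := (card_le_card h1).trans (card_union_le A B)
    exact_mod_cast this
  have h3 : ∀ i ∈ B, d * (d * n) ≤ ∑ j ∈ range n, (if i + j ∈ F then beta P φ ε i j else 0) := by
    intro i hi
    rw [hB, mem_filter, mem_range] at hi
    have h4 : ∑ j ∈ (nb F n i).filter (fun j => d < beta P φ ε i j), d ≤
        ∑ j ∈ (nb F n i).filter (fun j => d < beta P φ ε i j), beta P φ ε i j :=
      sum_le_sum fun j hj => by
        rw [mem_filter] at hj
        exact hj.2.le
    have h5 : ∑ j ∈ (nb F n i).filter (fun j => d < beta P φ ε i j), beta P φ ε i j ≤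
        ∑ j ∈ nb F n i, beta P φ ε i j := by
      refine sum_le_sum_of_subset_of_nonneg (filter_subset _ _) fun j hj _ => ?_
      rw [mem_nb] at hj
      exact beta_nonneg (h0 i hi.1) (h0 j hj.1)
    have h6 : ∑ j ∈ nb F n i, beta P φ ε i j =
        ∑ j ∈ range n, (if i + j ∈ F then beta P φ ε i j else 0) := by
      rw [nb, sum_filter]
    rw [sum_const, nsmul_eq_mul] at h4
    rw [← h6]
    calc d * (d * n) ≤ d * (((nb F n i).filter (fun j => d < beta P φ ε i j)).card : ℝ) :=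
          mul_le_mul_of_nonneg_left hi.2.le hd.le
      _ ≤ _ := by linarith
  have h4 : (B.card : ℝ) * (d * (d * n)) ≤ δ * n ^ 2 := by
    refine le_trans ?_ hR
    calc (B.card : ℝ) * (d * (d * n)) = ∑ _i ∈ B, d * (d * n) := by simp
      _ ≤ ∑ i ∈ B, ∑ j ∈ range n, (if i + j ∈ F then beta P φ ε i j else 0) := sum_le_sum h3
      _ ≤ _ := by
        refine sum_le_sum_of_subset_of_nonneg (filter_subset _ _) fun i hi _ => ?_
        refine sum_nonneg fun j hj => ?_
        rw [mem_range] at hi hj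
        split_ifs
        · exact beta_nonneg (h0 i hi) (h0 j hj)
        · exact le_refl _
  have h5 : (B.card : ℝ) ≤ δ / d ^ 2 * n := by
    rw [div_mul_eq_mul_div, le_div_iff₀ (by positivity)]
    have : (B.card : ℝ) * d ^ 2 * n ≤ δ * n * n := by nlinarith
    exact le_of_mul_le_mul_right this hn'
  calc ((exc κ P φ ε F n d).card : ℝ) ≤ A.card + B.card := h2
    _ ≤ δc * n + δ / d ^ 2 * n := add_le_add hC h5
    _ = _ := by ring

/-- Good scales. -/
def Gd (κ : ℝ) (P : ℕ → T → ℝ) (φ : T → E) (ε : ℝ) (F : Finset ℕ) (n : ℕ) (d : ℝ) (i : ℕ) : Prop :=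
  i < n ∧ i ∉ exc κ P φ ε F n d

open Classical in
lemma Gd.few {i : ℕ} (h : Gd κ P φ ε F n d i) :
    (((nb F n i).filter (fun j => d < beta P φ ε i j)).card : ℝ) ≤ d * n := by
  have h1 := h.2
  rw [exc, mem_filter, mem_range] at h1
  push Not at h1
  exact (h1 h.1).2

lemma Gd.nxt {i : ℕ} (h : Gd κ P φ ε F n d i) : ∀ t, P (i + 1) t ≤ κ * P i t := by
  have h1 := h.2
  rw [exc, mem_filter, mem_range] at h1
  push Not at h1
  exact (h1 h.1).1

section Facts

variable (h0 : ∀ i < n, ∀ t, 0 ≤ P i t) (h1 : ∀ i < n, ∑ t, P i t = 1)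

include h0 h1

lemma Gd.md {i : ℕ} (h : Gd κ P φ ε F n d i) (hN : d * n < ((nb F n i).card : ℝ)) :
    ms (P i) (fun a => ε < ‖φ a - Pool.OCM.md P φ ε d i‖) ≤ d := by
  classical
  refine md_spec ?_
  have h2 : ∃ j ∈ nb F n i, beta P φ ε i j ≤ d := by
    by_contra hc
    push Not at hc
    have h3 : nb F n i ⊆ (nb F n i).filter (fun j => d < beta P φ ε i j) := by
      intro j hj
      rw [mem_filter]
      exact ⟨hj, hc j hj⟩
    have h4 : ((nb F n i).card : ℝ) ≤ (((nb F n i).filter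
        (fun j => d < beta P φ ε i j)).card : ℝ) := by exact_mod_cast card_le_card h3
    have h5 := h.few
    linarith
  obtain ⟨j, hj, hb⟩ := h2
  rw [mem_nb] at hj
  exact mode (h0 j hj.1) (h1 j hj.1) hb

lemma close_of_common {i i' : ℕ} (h : Gd κ P φ ε F n d i) (h' : Gd κ P φ ε F n d i') (hd : 3 * d < 1)
    (hN : d * n < ((nb F n i).card : ℝ)) (hN' : d * n < ((nb F n i').card : ℝ))
    (hc : 2 * (d * n) < ((nb F n i ∩ nb F n i').card : ℝ)) :
    ‖Pool.OCM.md P φ ε d i - Pool.OCM.md P φ ε d i'‖ ≤ 4 * ε := by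
  classical
  have h2 : ∃ j ∈ nb F n i ∩ nb F n i', beta P φ ε i j ≤ d ∧ beta P φ ε i' j ≤ d := by
    by_contra hcc
    push Not at hcc
    have h3 : nb F n i ∩ nb F n i' ⊆ (nb F n i).filter (fun j => d < beta P φ ε i j) ∪
        (nb F n i').filter (fun j => d < beta P φ ε i' j) := by
      intro j hj
      have hj' := hj
      rw [mem_inter] at hj'
      rw [mem_union, mem_filter, mem_filter]
      by_cases hb : beta P φ ε i j ≤ d
      · exact Or.inr ⟨hj'.2, hcc j hj hb⟩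
      · exact Or.inl ⟨hj'.1, not_le.mp hb⟩
    have h4 := (card_le_card h3).trans (card_union_le _ _)
    have h5 : ((nb F n i ∩ nb F n i').card : ℝ) ≤
        (((nb F n i).filter (fun j => d < beta P φ ε i j)).card : ℝ) +
        (((nb F n i').filter (fun j => d < beta P φ ε i' j)).card : ℝ) := by exact_mod_cast h4
    have h6 := h.few
    have h7 := h'.few
    linarith
  obtain ⟨j, hj, hb, hb'⟩ := h2
  rw [mem_inter, mem_nb, mem_nb] at hj
  exact mode_close (h0 i h.1) (h1 i h.1) (h0 i' h'.1) (h1 i' h'.1) (h0 j hj.1.1) (h1 j hj.1.1) hd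
    hb hb' (h.md h0 h1 hN) (h'.md h0 h1 hN')

lemma close_next {i : ℕ} (h : Gd κ P φ ε F n d i) (h' : Gd κ P φ ε F n d (i + 1)) (hκ : 0 ≤ κ)
    (hd : (κ + 1) * d < 1)
    (hN : d * n < ((nb F n i).card : ℝ)) (hN' : d * n < ((nb F n (i + 1)).card : ℝ)) :
    ‖Pool.OCM.md P φ ε d i - Pool.OCM.md P φ ε d (i + 1)‖ ≤ 2 * ε :=
  mode_next (h0 _ h'.1) (h1 _ h'.1) hκ hd h.nxt (h.md h0 h1 hN) (h'.md h0 h1 hN')

lemma opp_of_good {i j : ℕ} (h : Gd κ P φ ε F n d i) (h' : Gd κ P φ ε F n d j) (hd : 3 * d < 1)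
    (hN : d * n < ((nb F n i).card : ℝ)) (hN' : d * n < ((nb F n j).card : ℝ))
    (hb : beta P φ ε i j ≤ d) :
    ‖Pool.OCM.md P φ ε d i + Pool.OCM.md P φ ε d j‖ ≤ 3 * ε :=
  mode_opp (h0 _ h.1) (h1 _ h.1) (h0 _ h'.1) (h1 _ h'.1) hd hb (h.md h0 h1 hN) (h'.md h0 h1 hN')

lemma close_run {i : ℕ} (s : ℕ) (hg : ∀ s' ≤ s, Gd κ P φ ε F n d (i + s')) (hκ : 0 ≤ κ)
    (hd : (κ + 1) * d < 1)
    (hN : ∀ j < n, d * n < ((nb F n j).card : ℝ)) :
    ‖Pool.OCM.md P φ ε d i - Pool.OCM.md P φ ε d (i + s)‖ ≤ 2 * s * ε := by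
  induction s with
  | zero => simp
  | succ k ih =>
    have e1 := ih (fun s' hs' => hg s' (by omega))
    have g1 := hg k (by omega)
    have g2 := hg (k + 1) le_rfl
    have e2 := close_next h0 h1 g1 g2 hκ hd (hN _ g1.1) (hN _ g2.1)
    have e3 : Pool.OCM.md P φ ε d i - Pool.OCM.md P φ ε d (i + (k + 1)) =
        (Pool.OCM.md P φ ε d i - Pool.OCM.md P φ ε d (i + k)) +
        (Pool.OCM.md P φ ε d (i + k) - Pool.OCM.md P φ ε d (i + k + 1)) := by
      rw [← add_assoc]; abel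
    rw [e3]
    refine (norm_add_le _ _).trans ?_
    push_cast
    linarith

/-- The key step: the modes of `i` and `i + K! * d₁` agree. -/
lemma close_mul {i d₁ K L : ℕ} {c : ℝ} (hc : 0 < c) (hK : 2 ≤ c ^ 2 * (K + 1)) (hn : 0 < n)
    (hd : 3 * d < 1) (hN : ∀ j < n, c * n ≤ ((nb F n j).card : ℝ)) (hdc : d < c)
    (hg : ∀ t ≤ K.factorial, Gd κ P φ ε F n d (i + t * d₁)) (hL : K.factorial * d₁ ≤ L)
    (hLn : (L : ℝ) + 2 * (d * n) < c ^ 2 / 2 * n) (he : 0 ≤ ε) :
    ‖Pool.OCM.md P φ ε d i - Pool.OCM.md P φ ε d (i + K.factorial * d₁)‖ ≤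
      4 * K.factorial * ε := by
  have hn' : (0 : ℝ) < n := by exact_mod_cast hn
  have hKM : K ≤ K.factorial := Nat.self_le_factorial K
  have hN' : ∀ j < n, d * n < ((nb F n j).card : ℝ) := fun j hj =>
    lt_of_lt_of_le (mul_lt_mul_of_pos_right hdc hn') (hN j hj)
  obtain ⟨k, l, hkl, hlK, hcard⟩ := two_inter hn hc hK (fun k => nb F n (i + k * d₁))
    (fun k _ => filter_subset _ _) (fun k hk => hN _ (hg k (by omega)).1)
  set e := l - k with he'
  have he1 : 1 ≤ e := by omega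
  have hdvd : e ∣ K.factorial := Nat.dvd_factorial (by omega) (by omega)
  obtain ⟨m, hm⟩ := hdvd
  have hcard' : c ^ 2 / 2 * n ≤
      ((nb F n (i + k * d₁) ∩ nb F n (i + k * d₁ + e * d₁)).card : ℝ) := by
    have : i + k * d₁ + e * d₁ = i + l * d₁ := by
      have : l = k + e := by omega
      rw [this]; ring
    rw [this]; exact hcard
  -- all the pairs at distance `e * d₁` near `i`
  have step : ∀ t, t + 1 ≤ m →
      ‖Pool.OCM.md P φ ε d (i + t * (e * d₁)) - Pool.OCM.md P φ ε d (i + (t + 1) * (e * d₁))‖ ≤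
        4 * ε := by
    intro t ht
    have ht1 : t * e ≤ K.factorial := by
      rw [hm, mul_comm e m]
      exact Nat.mul_le_mul_right e (by omega)
    have ht2 : (t + 1) * e ≤ K.factorial := by
      rw [hm, mul_comm e m]
      exact Nat.mul_le_mul_right e ht
    have a1 : i + t * (e * d₁) = i + (t * e) * d₁ := by ring
    have a2 : i + (t + 1) * (e * d₁) = i + ((t + 1) * e) * d₁ := by ring
    have g1 : Gd κ P φ ε F n d (i + t * (e * d₁)) := by rw [a1]; exact hg _ ht1
    have g2 : Gd κ P φ ε F n d (i + (t + 1) * (e * d₁)) := by rw [a2]; exact hg _ ht2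
    refine close_of_common h0 h1 g1 g2 hd (hN' _ g1.1) (hN' _ g2.1) ?_
    have a3 : i + (t + 1) * (e * d₁) = i + t * (e * d₁) + e * d₁ := by ring
    rw [a3]
    have b1 : t * e * d₁ ≤ L := le_trans (Nat.mul_le_mul_right d₁ ht1) hL
    have b2 : k * d₁ ≤ L := le_trans (Nat.mul_le_mul_right d₁ (by omega)) hL
    rcases le_total (k * d₁) (t * (e * d₁)) with hle | hle
    · obtain ⟨s, hs⟩ := Nat.exists_eq_add_of_le hle
      have c1 := nb_shift_up F n (i + k * d₁) (e * d₁) s
      have c2 : i + k * d₁ + s = i + t * (e * d₁) := by omega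
      rw [c2] at c1
      have c3 : s ≤ L := by
        have : t * (e * d₁) = t * e * d₁ := by ring
        omega
      have c4 : ((nb F n (i + k * d₁) ∩ nb F n (i + k * d₁ + e * d₁)).card : ℝ) ≤
          ((nb F n (i + t * (e * d₁)) ∩ nb F n (i + t * (e * d₁) + e * d₁)).card : ℝ) + s := by
        exact_mod_cast c1
      have c5 : (s : ℝ) ≤ L := by exact_mod_cast c3
      linarith
    · obtain ⟨s, hs⟩ := Nat.exists_eq_add_of_le hle
      have c1 := nb_shift_down F n (i + t * (e * d₁)) (e * d₁) s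
      have c2 : i + t * (e * d₁) + s = i + k * d₁ := by omega
      rw [c2] at c1
      have c3 : s ≤ L := by omega
      have c4 : ((nb F n (i + k * d₁) ∩ nb F n (i + k * d₁ + e * d₁)).card : ℝ) ≤
          ((nb F n (i + t * (e * d₁)) ∩ nb F n (i + t * (e * d₁) + e * d₁)).card : ℝ) + s := by
        exact_mod_cast c1
      have c5 : (s : ℝ) ≤ L := by exact_mod_cast c3
      linarith
  have chain : ∀ t, t ≤ m →
      ‖Pool.OCM.md P φ ε d i - Pool.OCM.md P φ ε d (i + t * (e * d₁))‖ ≤ 4 * t * ε := by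
    intro t
    induction t with
    | zero => intro _; simp
    | succ t ih =>
      intro ht
      have e1 := ih (by omega)
      have e2 := step t ht
      have e3 : Pool.OCM.md P φ ε d i - Pool.OCM.md P φ ε d (i + (t + 1) * (e * d₁)) =
          (Pool.OCM.md P φ ε d i - Pool.OCM.md P φ ε d (i + t * (e * d₁))) +
          (Pool.OCM.md P φ ε d (i + t * (e * d₁)) -
            Pool.OCM.md P φ ε d (i + (t + 1) * (e * d₁))) := by abel
      rw [e3]
      refine (norm_add_le _ _).trans ?_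
      push_cast
      linarith
  have h3 := chain m le_rfl
  have h4 : m * (e * d₁) = K.factorial * d₁ := by rw [hm]; ring
  rw [h4] at h3
  refine h3.trans ?_
  have h5 : m ≤ K.factorial := by
    rw [hm]
    exact Nat.le_mul_of_pos_left m (by omega)
  have h6 : (m : ℝ) ≤ K.factorial := by exact_mod_cast h5
  nlinarith

end Facts

end Main

section Final

variable {T : Type u} [Fintype T] {E : Type*} [SeminormedAddCommGroup E]

/-- The pair `(i, e)` is bad. -/
def BadP (κ : ℝ) (P : ℕ → T → ℝ) (φ : T → E) (ε : ℝ) (F : Finset ℕ) (n : ℕ) (d : ℝ) (M i e : ℕ) : Prop :=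
  (∃ t ≤ M, ¬ Gd κ P φ ε F n d (i + t * (e / M))) ∨
    ∃ s ≤ M, ¬ Gd κ P φ ε F n d (i + M * (e / M) + s)

variable {P : ℕ → T → ℝ} {φ : T → E} {ε κ : ℝ} {F : Finset ℕ} {n : ℕ} {d : ℝ}

lemma shift_exc (A : Finset ℕ) (n x : ℕ) :
    ((range n).filter (fun i => i + x ∈ A)).card ≤ A.card := by
  classical
  rw [← card_image_of_injective _ (add_left_injective x)]
  refine card_le_card fun y hy => ?_
  rw [mem_image] at hy
  obtain ⟨i, hi, rfl⟩ := hy
  rw [mem_filter] at hi
  exact hi.2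

open Classical in
lemma badP_count {M L e : ℕ} (hML : M ≤ L) (he : e < L) :
    ((range n).filter (fun i => i + 2 * L ≤ n ∧ BadP κ P φ ε F n d M i e)).card ≤
      (2 * M + 2) * (exc κ P φ ε F n d).card := by
  set A := exc κ P φ ε F n d with hA
  have h1 : (range n).filter (fun i => i + 2 * L ≤ n ∧ BadP κ P φ ε F n d M i e) ⊆
      ((range (M + 1)).biUnion fun t => (range n).filter (fun i => i + t * (e / M) ∈ A)) ∪
      ((range (M + 1)).biUnion fun s => (range n).filter (fun i => i + (M * (e / M) + s) ∈ A)) := by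
    intro i hi
    rw [mem_filter, mem_range] at hi
    obtain ⟨hin, hiL, hb⟩ := hi
    have hMe : M * (e / M) ≤ e := Nat.mul_div_le e M
    rw [mem_union, mem_biUnion, mem_biUnion]
    rcases hb with ⟨t, ht, hg⟩ | ⟨s, hs, hg⟩
    · left
      refine ⟨t, mem_range.mpr (by omega), ?_⟩
      rw [mem_filter, mem_range]
      refine ⟨hin, ?_⟩
      by_contra hc
      have h2 : t * (e / M) ≤ M * (e / M) := Nat.mul_le_mul_right _ ht
      exact hg ⟨by omega, hc⟩
    · right
      refine ⟨s, mem_range.mpr (by omega), ?_⟩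
      rw [mem_filter, mem_range]
      refine ⟨hin, ?_⟩
      by_contra hc
      have h3 : i + (M * (e / M) + s) = i + M * (e / M) + s := by ring
      rw [h3] at hc
      exact hg ⟨by omega, hc⟩
  refine (card_le_card h1).trans ((card_union_le _ _).trans ?_)
  have h2 : ((range (M + 1)).biUnion fun t =>
      (range n).filter (fun i => i + t * (e / M) ∈ A)).card ≤ (M + 1) * A.card := by
    refine card_biUnion_le.trans ?_
    refine (sum_le_card_nsmul _ _ _ fun t _ => shift_exc A n _).trans ?_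
    simp
  have h3 : ((range (M + 1)).biUnion fun s =>
      (range n).filter (fun i => i + (M * (e / M) + s) ∈ A)).card ≤ (M + 1) * A.card := by
    refine card_biUnion_le.trans ?_
    refine (sum_le_card_nsmul _ _ _ fun t _ => shift_exc A n _).trans ?_
    simp
  calc _ ≤ (M + 1) * A.card + (M + 1) * A.card := add_le_add h2 h3
    _ = _ := by ring

open Classical in
/-- Few scales have many bad partners. -/
lemma badY {M L : ℕ} (hML : M ≤ L) {θ : ℝ} :
    θ * (((range n).filter (fun i => i + 2 * L ≤ n ∧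
      θ < (((range L).filter (fun e => BadP κ P φ ε F n d M i e)).card : ℝ))).card : ℝ) ≤
      L * ((2 * M + 2) * (exc κ P φ ε F n d).card) := by
  set Y := (range n).filter (fun i => i + 2 * L ≤ n ∧
      θ < (((range L).filter (fun e => BadP κ P φ ε F n d M i e)).card : ℝ)) with hY
  have h1 : θ * (Y.card : ℝ) ≤
      ∑ i ∈ Y, (((range L).filter (fun e => BadP κ P φ ε F n d M i e)).card : ℝ) := by
    calc θ * (Y.card : ℝ) = ∑ _i ∈ Y, θ := by simp [mul_comm]
      _ ≤ _ := by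
        refine sum_le_sum fun i hi => ?_
        rw [hY, mem_filter] at hi
        exact hi.2.2.le
  refine h1.trans ?_
  have h2 : ∑ i ∈ Y, ((range L).filter (fun e => BadP κ P φ ε F n d M i e)).card ≤
      ∑ e ∈ range L,
        ((range n).filter (fun i => i + 2 * L ≤ n ∧ BadP κ P φ ε F n d M i e)).card := by
    simp_rw [card_filter]
    rw [sum_comm]
    refine sum_le_sum fun e _ => ?_
    calc ∑ i ∈ Y, (if BadP κ P φ ε F n d M i e then 1 else 0)
        = ∑ i ∈ Y, (if i + 2 * L ≤ n ∧ BadP κ P φ ε F n d M i e then 1 else 0) := by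
          refine sum_congr rfl fun i hi => ?_
          rw [hY, mem_filter] at hi
          by_cases hb : BadP κ P φ ε F n d M i e
          · rw [if_pos hb, if_pos ⟨hi.2.1, hb⟩]
          · rw [if_neg hb, if_neg (fun h => hb h.2)]
      _ ≤ _ := sum_le_sum_of_subset (filter_subset _ _)
  have h3 : ∑ e ∈ range L,
        ((range n).filter (fun i => i + 2 * L ≤ n ∧ BadP κ P φ ε F n d M i e)).card ≤
      L * ((2 * M + 2) * (exc κ P φ ε F n d).card) := by
    refine (sum_le_card_nsmul _ _ _ fun e he => badP_count hML (mem_range.mp he)).trans ?_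
    simp
  exact_mod_cast h2.trans h3

/-- For a pair which is not bad the modes agree. -/
lemma close_of_not_bad (h0 : ∀ i < n, ∀ t, 0 ≤ P i t) (h1 : ∀ i < n, ∑ t, P i t = 1)
    {i e K L : ℕ} {c : ℝ} (hc : 0 < c) (hK : 2 ≤ c ^ 2 * (K + 1)) (hn : 0 < n)
    (hd : 3 * d < 1) (hκ : 0 ≤ κ) (hdκ : (κ + 1) * d < 1)
    (hN : ∀ j < n, c * n ≤ ((nb F n j).card : ℝ)) (hdc : d < c)
    (he : e ≤ L) (hLn : (L : ℝ) + 2 * (d * n) < c ^ 2 / 2 * n) (hε : 0 ≤ ε)
    (hb : ¬ BadP κ P φ ε F n d K.factorial i e) :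
    ‖Pool.OCM.md P φ ε d i - Pool.OCM.md P φ ε d (i + e)‖ ≤ 6 * K.factorial * ε := by
  have hn' : (0 : ℝ) < n := by exact_mod_cast hn
  have hN' : ∀ j < n, d * n < ((nb F n j).card : ℝ) := fun j hj =>
    lt_of_lt_of_le (mul_lt_mul_of_pos_right hdc hn') (hN j hj)
  unfold BadP at hb
  push Not at hb
  set M := K.factorial with hM
  have hM0 : 0 < M := Nat.factorial_pos K
  have hMe : M * (e / M) ≤ e := Nat.mul_div_le e M
  have k1 := close_mul h0 h1 hc hK hn hd hN hdc hb.1 (le_trans hMe he) hLn hε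
  have hs : e % M ≤ M := (Nat.mod_lt _ hM0).le
  have k2 := close_run h0 h1 (i := i + M * (e / M)) (e % M)
    (fun s' hs' => hb.2 s' (le_trans hs' hs)) hκ hdκ hN'
  have e1 : i + M * (e / M) + e % M = i + e := by
    rw [add_assoc, Nat.div_add_mod]
  rw [e1] at k2
  have e2 : Pool.OCM.md P φ ε d i - Pool.OCM.md P φ ε d (i + e) =
      (Pool.OCM.md P φ ε d i - Pool.OCM.md P φ ε d (i + M * (e / M))) +
      (Pool.OCM.md P φ ε d (i + M * (e / M)) - Pool.OCM.md P φ ε d (i + e)) := by abel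
  rw [e2]
  refine (norm_add_le _ _).trans ?_
  have k3 : ((e % M : ℕ) : ℝ) ≤ M := by exact_mod_cast hs
  nlinarith

variable [NormedSpace ℝ E]

open Classical in
/-- Typical scales have a small mode. -/
lemma md_small (h0 : ∀ i < n, ∀ t, 0 ≤ P i t) (h1 : ∀ i < n, ∑ t, P i t = 1)
    {i K L : ℕ} {c c' : ℝ} (hc : 0 < c) (hK : 2 ≤ c ^ 2 * (K + 1)) (hn : 0 < n)
    (hd : 3 * d < 1) (hκ : 0 ≤ κ) (hdκ : (κ + 1) * d < 1)
    (hN : ∀ j < n, c * n ≤ ((nb F n j).card : ℝ)) (hdc : d < c)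
    (hLn : (L : ℝ) + 2 * (d * n) < c ^ 2 / 2 * n) (hε : 0 ≤ ε) (hL : 0 < L) (hc' : 0 < c')
    (hi : Gd κ P φ ε F n d i) (hiL : i + 2 * L ≤ n) (hF : c' * L ≤ ((nb F L (2 * i)).card : ℝ))
    (hdL : d * n ≤ c' * L / 4)
    (hY : (((range L).filter (fun e => BadP κ P φ ε F n d K.factorial i e)).card : ℝ) ≤
      c' * L / 4) :
    ‖Pool.OCM.md P φ ε d i‖ ≤ (3 * K.factorial + 2) * ε := by
  have hn' : (0 : ℝ) < n := by exact_mod_cast hn
  have hL' : (0 : ℝ) < L := by exact_mod_cast hL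
  have hN' : ∀ j < n, d * n < ((nb F n j).card : ℝ) := fun j hj =>
    lt_of_lt_of_le (mul_lt_mul_of_pos_right hdc hn') (hN j hj)
  have hex : ∃ e ∈ nb F L (2 * i), ¬ BadP κ P φ ε F n d K.factorial i e ∧
      beta P φ ε i (i + e) ≤ d := by
    by_contra hcon
    push Not at hcon
    have h2 : nb F L (2 * i) ⊆ (range L).filter (fun e => BadP κ P φ ε F n d K.factorial i e) ∪
        (range n).filter (fun e => i + e ∈ (nb F n i).filter (fun j => d < beta P φ ε i j)) := by
      intro e he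
      have he' := he
      rw [mem_nb] at he'
      rw [mem_union, mem_filter, mem_filter, mem_range, mem_range]
      by_cases hb : BadP κ P φ ε F n d K.factorial i e
      · exact Or.inl ⟨he'.1, hb⟩
      · right
        refine ⟨by omega, ?_⟩
        rw [mem_filter, mem_nb]
        refine ⟨⟨by omega, ?_⟩, hcon e he hb⟩
        have : i + (i + e) = 2 * i + e := by ring
        rw [this]; exact he'.2
    have h3 := (card_le_card h2).trans (card_union_le _ _)
    have h4 : ((range n).filter (fun e => i + e ∈ (nb F n i).filter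
        (fun j => d < beta P φ ε i j))).card ≤
        ((nb F n i).filter (fun j => d < beta P φ ε i j)).card := by
      have := shift_exc ((nb F n i).filter (fun j => d < beta P φ ε i j)) n i
      simpa [add_comm] using this
    have h5 : ((nb F L (2 * i)).card : ℝ) ≤
        (((range L).filter (fun e => BadP κ P φ ε F n d K.factorial i e)).card : ℝ) +
        (((nb F n i).filter (fun j => d < beta P φ ε i j)).card : ℝ) := by
      exact_mod_cast h3.trans (Nat.add_le_add_left h4 _)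
    have h6 := hi.few
    nlinarith
  obtain ⟨e, he, hb, hbe⟩ := hex
  rw [mem_nb] at he
  have g2 : Gd κ P φ ε F n d (i + e) := by
    have hb' := hb
    unfold BadP at hb'
    push Not at hb'
    have h2 := hb'.2 (e % K.factorial) (Nat.mod_lt _ (Nat.factorial_pos K)).le
    rwa [add_assoc, Nat.div_add_mod] at h2
  have k1 := close_of_not_bad h0 h1 hc hK hn hd hκ hdκ hN hdc he.1.le hLn hε hb
  have k2 := opp_of_good h0 h1 hi g2 hd (hN' _ hi.1) (hN' _ g2.1) hbe
  have e1 : (2 : ℝ) • Pool.OCM.md P φ ε d i =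
      (Pool.OCM.md P φ ε d i - Pool.OCM.md P φ ε d (i + e)) +
      (Pool.OCM.md P φ ε d i + Pool.OCM.md P φ ε d (i + e)) := by
    rw [two_smul]; abel
  have e2 : ‖(2 : ℝ) • Pool.OCM.md P φ ε d i‖ = 2 * ‖Pool.OCM.md P φ ε d i‖ := by
    rw [norm_smul]; norm_num
  have e3 := norm_add_le (Pool.OCM.md P φ ε d i - Pool.OCM.md P φ ε d (i + e))
    (Pool.OCM.md P φ ε d i + Pool.OCM.md P φ ε d (i + e))
  rw [← e1, e2] at e3
  nlinarith

end Final

/-- ROW ONE with the coupling constant `κ`: if most pairs of partners of scales `i`, `j` with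
`i + j ∈ F` have `φ a + φ b = 0` up to `ε`, then most partners have `φ a = 0` up to `C * ε`. -/
def OneLStmt.{v, w} : Prop := ∀ c : ℝ, 0 < c → ∃ C : ℝ, 0 < C ∧ ∀ δ' : ℝ, 0 < δ' →
  ∃ q : ℕ, 0 < q ∧ ∃ δc : ℝ, 0 < δc ∧ ∀ κ : ℝ, 0 ≤ κ → ∃ δ : ℝ, 0 < δ ∧ ∃ n0 : ℕ, ∀ n : ℕ,
  n0 ≤ n → ∀ (T : Type v) [Fintype T] (E : Type w) [SeminormedAddCommGroup E] [NormedSpace ℝ E]
    (P : ℕ → T → ℝ) (φ : T → E) (ε : ℝ) (F : Finset ℕ), 0 ≤ ε →
    (∀ i < n, ∀ t, 0 ≤ P i t) → (∀ i < n, ∑ t, P i t = 1) →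
    (∀ x, x + n / q ≤ 2 * n → c * (n / q : ℕ) ≤ ((nb F (n / q) x).card : ℝ)) →
    (∑ i ∈ range n, ∑ j ∈ range n, (if i + j ∈ F then beta P φ ε i j else 0) ≤ δ * n ^ 2) →
    (∀ A : Finset ℕ, (∀ i ∈ A, i < n ∧ ¬ ∀ t, P (i + 1) t ≤ κ * P i t) →
      (A.card : ℝ) ≤ δc * n) →
    ∑ i ∈ range n, ms (P i) (fun a => C * ε < ‖φ a‖) ≤ δ' * n

open Classical in
theorem onel_thm.{v, w} : OneLStmt.{v, w} := by
  intro c hc
  set c₁ : ℝ := c / 2 with hc1
  have hc1' : 0 < c₁ := by positivity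
  set K : ℕ := ⌈2 / c₁ ^ 2⌉₊ with hKdef
  have hK : 2 ≤ c₁ ^ 2 * ((K : ℝ) + 1) := by
    have h1 : 2 / c₁ ^ 2 ≤ K := Nat.le_ceil _
    rw [div_le_iff₀ (by positivity)] at h1
    nlinarith [sq_nonneg c₁]
  set M : ℕ := K.factorial with hM
  have hM0 : 0 < M := Nat.factorial_pos K
  refine ⟨3 * M + 3, by positivity, ?_⟩
  intro δ' hδ'
  set q : ℕ := ⌈8 / δ'⌉₊ + ⌈8 / c₁ ^ 2⌉₊ + 1 with hq
  have hq0 : 0 < q := by omega
  have hqR : (0 : ℝ) < q := by exact_mod_cast hq0
  have hq1 : 8 ≤ δ' * q := by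
    have h1 : 8 / δ' ≤ (⌈8 / δ'⌉₊ : ℝ) := Nat.le_ceil _
    have h2 : ((⌈8 / δ'⌉₊ : ℕ) : ℝ) ≤ q := by exact_mod_cast (by omega)
    have h3 := h1.trans h2
    rw [div_le_iff₀ hδ'] at h3
    linarith
  have hq2 : 8 ≤ c₁ ^ 2 * q := by
    have h1 : 8 / c₁ ^ 2 ≤ (⌈8 / c₁ ^ 2⌉₊ : ℝ) := Nat.le_ceil _
    have h2 : ((⌈8 / c₁ ^ 2⌉₊ : ℕ) : ℝ) ≤ q := by exact_mod_cast (by omega)
    have h3 := h1.trans h2
    rw [div_le_iff₀ (by positivity)] at h3
    linarith
  refine ⟨q, hq0, ?_⟩
  set B : ℝ := 1 + 4 / c * (2 * M + 2) with hB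
  have hB0 : 0 < B := by positivity
  refine ⟨δ' / (16 * B), by positivity, ?_⟩
  intro κ hκ
  obtain ⟨d, hd0, hd1, hd2, hd3, hd4, hd5, hd6⟩ : ∃ d : ℝ, 0 < d ∧ d ≤ 1 / 8 ∧ d ≤ δ' / 4 ∧
      d ≤ c₁ ^ 2 / 16 ∧ d ≤ c₁ / 2 ∧ d ≤ c / (8 * q) ∧ d ≤ 1 / (2 * (κ + 1)) := by
    refine ⟨min (1 / 8) (min (δ' / 4) (min (c₁ ^ 2 / 16) (min (c₁ / 2) (min (c / (8 * q))
      (1 / (2 * (κ + 1))))))), ?_, ?_⟩
    · have h1 : 0 < c / (8 * q) := by positivity
      have h2 : 0 < c₁ ^ 2 / 16 := by positivity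
      have h3 : 0 < 1 / (2 * (κ + 1)) := by positivity
      exact lt_min (by norm_num) (lt_min (by positivity) (lt_min h2 (lt_min (by positivity)
        (lt_min h1 h3))))
    · exact ⟨min_le_left _ _, (min_le_right _ _).trans (min_le_left _ _),
        (min_le_right _ _).trans ((min_le_right _ _).trans (min_le_left _ _)),
        (min_le_right _ _).trans ((min_le_right _ _).trans ((min_le_right _ _).trans
          (min_le_left _ _))),
        (min_le_right _ _).trans ((min_le_right _ _).trans ((min_le_right _ _).trans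
          ((min_le_right _ _).trans (min_le_left _ _)))),
        (min_le_right _ _).trans ((min_le_right _ _).trans ((min_le_right _ _).trans
          ((min_le_right _ _).trans (min_le_right _ _))))⟩
  have hdκ : (κ + 1) * d < 1 := by
    have h1 : (κ + 1) * d ≤ (κ + 1) * (1 / (2 * (κ + 1))) :=
      mul_le_mul_of_nonneg_left hd6 (by positivity)
    have h2 : (κ + 1) * (1 / (2 * (κ + 1))) = 1 / 2 := by
      field_simp
    linarith
  set δ : ℝ := δ' * d ^ 2 / (16 * B) with hδ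
  have hδ0 : 0 < δ := by positivity
  refine ⟨δ, hδ0, q * (M + 2), ?_⟩
  intro n hn T _ E _ _ P φ ε F hε h0 h1 hF hR hC
  set L : ℕ := n / q with hL
  have hLM : M + 2 ≤ L := by
    rw [hL, Nat.le_div_iff_mul_le hq0]
    rw [mul_comm]; exact hn
  have hL0 : 0 < L := by omega
  have hqL : q * L ≤ n := Nat.mul_div_le n q
  have hn0 : 0 < n := lt_of_lt_of_le (Nat.mul_pos hq0 hL0) hqL
  have hnR : (0 : ℝ) < n := by exact_mod_cast hn0
  have hLR : (0 : ℝ) < L := by exact_mod_cast hL0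
  have hqL' : (q : ℝ) * L ≤ n := by exact_mod_cast hqL
  have hn2 : n ≤ 2 * (q * L) := by
    have h2 : n < q * (L + 1) := by
      have := Nat.lt_mul_div_succ n hq0
      simpa [hL] using this
    have h3 : q * (L + 1) ≤ 2 * (q * L) := by
      have : q * (L + 1) = q * L + q := by ring
      have h4 : q ≤ q * L := Nat.le_mul_of_pos_right q hL0
      omega
    omega
  have hn2' : (n : ℝ) ≤ 2 * (q * L) := by exact_mod_cast hn2
  -- the densities
  have hN : ∀ j < n, c₁ * n ≤ ((nb F n j).card : ℝ) := by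
    intro j hj
    have h2 := nb_blocks hF q j (by omega)
    have h3 : ((nb F (q * L) j).card : ℝ) ≤ ((nb F n j).card : ℝ) := by
      exact_mod_cast card_le_card (nb_mono F hqL j)
    rw [hc1]
    nlinarith
  have hLn : (L : ℝ) + 2 * (d * n) < c₁ ^ 2 / 2 * n := by
    have h2 : (8 : ℝ) * L ≤ c₁ ^ 2 * n := by
      calc (8 : ℝ) * L ≤ c₁ ^ 2 * q * L := mul_le_mul_of_nonneg_right hq2 hLR.le
        _ = c₁ ^ 2 * (q * L) := by ring
        _ ≤ c₁ ^ 2 * n := mul_le_mul_of_nonneg_left hqL' (by positivity)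
    have h3 : d * n ≤ c₁ ^ 2 / 16 * n := mul_le_mul_of_nonneg_right hd3 hnR.le
    have h4 : 0 < c₁ ^ 2 * n := by positivity
    linarith
  have h2L : 2 * (L : ℝ) ≤ δ' / 4 * n := by
    have : (8 : ℝ) * L ≤ δ' * n := by
      calc (8 : ℝ) * L ≤ δ' * q * L := mul_le_mul_of_nonneg_right hq1 hLR.le
        _ = δ' * (q * L) := by ring
        _ ≤ δ' * n := mul_le_mul_of_nonneg_left hqL' hδ'.le
    linarith
  have hdL : d * n ≤ c * L / 4 := by
    have h2 : d * n ≤ c / (8 * q) * (2 * (q * L)) := by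
      calc d * n ≤ c / (8 * q) * n := mul_le_mul_of_nonneg_right hd5 hnR.le
        _ ≤ _ := mul_le_mul_of_nonneg_left hn2' (by positivity)
    have h3 : c / (8 * q) * (2 * (q * L)) = c * L / 4 := by
      field_simp
      ring
    linarith
  -- the exceptional sets
  have hC' : (((range n).filter (fun i => ¬ ∀ t, P (i + 1) t ≤ κ * P i t)).card : ℝ) ≤
      δ' / (16 * B) * n := by
    refine hC _ fun i hi => ?_
    rw [mem_filter, mem_range] at hi
    exact hi
  have hexc := exc_card (d := d) h0 hn0 hd0 hR hC'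
  set X := exc κ P φ ε F n d with hX
  set Y := (range n).filter (fun i => i + 2 * L ≤ n ∧
      c * L / 4 < (((range L).filter (fun e => BadP κ P φ ε F n d M i e)).card : ℝ)) with hY
  set Z := (range n).filter (fun i => n < i + 2 * L) with hZ
  have hYc : (Y.card : ℝ) ≤ 4 / c * (2 * M + 2) * X.card := by
    have h2 := badY (κ := κ) (P := P) (φ := φ) (ε := ε) (F := F) (n := n) (d := d) (M := M) (L := L)
      (by omega) (θ := c * L / 4)
    have h3 : c * L / 4 * (Y.card : ℝ) ≤ L * ((2 * M + 2) * X.card) := h2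
    have h4 : (L : ℝ) * (c / 4 * (Y.card : ℝ)) ≤ L * ((2 * M + 2) * X.card) := by linarith
    have h5 := le_of_mul_le_mul_left h4 hLR
    have h6 : (Y.card : ℝ) = 4 / c * (c / 4 * (Y.card : ℝ)) := by field_simp
    rw [h6, mul_assoc]
    exact mul_le_mul_of_nonneg_left h5 (by positivity)
  have hZc : (Z.card : ℝ) ≤ 2 * L := by
    have h2 : Z ⊆ Ico (n - 2 * L) n := by
      intro i hi
      rw [hZ, mem_filter, mem_range] at hi
      rw [mem_Ico]
      omega
    have h3 := card_le_card h2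
    rw [Nat.card_Ico] at h3
    have h4 : Z.card ≤ 2 * L := by omega
    exact_mod_cast h4
  have hXY : (X.card : ℝ) + Y.card ≤ δ' / 8 * n := by
    have h2 : (X.card : ℝ) + Y.card ≤ B * X.card := by
      rw [hB]
      linarith
    have h3 : (X.card : ℝ) ≤ δ' / (8 * B) * n := by
      have : (δ' / (16 * B) + δ / d ^ 2) = δ' / (8 * B) := by
        rw [hδ]
        field_simp
        norm_num
      rw [← this]; exact hexc
    calc (X.card : ℝ) + Y.card ≤ B * X.card := h2
      _ ≤ B * (δ' / (8 * B) * n) := mul_le_mul_of_nonneg_left h3 hB0.le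
      _ = δ' / 8 * n := by
        field_simp
  have hmain : ∀ i ∈ range n, ms (P i) (fun a => (3 * M + 3) * ε < ‖φ a‖) ≤
      d + (if i ∈ X then 1 else 0) + (if i ∈ Y then 1 else 0) + (if i ∈ Z then 1 else 0) := by
    intro i hi
    have hin := mem_range.mp hi
    have hle1 := ms_le_one (h0 i hin) (h1 i hin) (fun a => (3 * M + 3) * ε < ‖φ a‖)
    by_cases hiX : i ∈ X
    · rw [if_pos hiX]
      split_ifs <;> linarith
    by_cases hiY : i ∈ Y
    · rw [if_pos hiY]
      split_ifs <;> linarith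
    by_cases hiZ : i ∈ Z
    · rw [if_pos hiZ]
      split_ifs <;> linarith
    rw [if_neg hiX, if_neg hiY, if_neg hiZ, add_zero, add_zero, add_zero]
    have hiL : i + 2 * L ≤ n := by
      by_contra hcon
      exact hiZ (by rw [hZ, mem_filter]; exact ⟨hi, by omega⟩)
    have hg : Gd κ P φ ε F n d i := ⟨hin, hiX⟩
    have hYi : (((range L).filter (fun e => BadP κ P φ ε F n d M i e)).card : ℝ) ≤ c * L / 4 := by
      by_contra hcon
      exact hiY (by rw [hY, mem_filter]; exact ⟨hi, hiL, not_le.mp hcon⟩)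
    have hsm := md_small h0 h1 hc1' hK hn0 (by linarith) hκ hdκ hN (by linarith) hLn hε hL0 hc hg
      hiL (hF (2 * i) (by omega)) hdL hYi
    have hN' : d * n < ((nb F n i).card : ℝ) :=
      lt_of_lt_of_le (mul_lt_mul_of_pos_right (by linarith) hnR) (hN i hin)
    refine le_trans (ms_mono (h0 i hin) fun a ha => ?_) (hg.md h0 h1 hN')
    by_contra hcon
    simp only [not_lt] at hcon
    have e1 : φ a = (φ a - Pool.OCM.md P φ ε d i) + Pool.OCM.md P φ ε d i := by abel
    rw [e1] at ha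
    have e2 := norm_add_le (φ a - Pool.OCM.md P φ ε d i) (Pool.OCM.md P φ ε d i)
    linarith
  have hsum : ∀ A' : Finset ℕ, A' ⊆ range n →
      ∑ i ∈ range n, (if i ∈ A' then (1 : ℝ) else 0) = A'.card := by
    intro A' hA'
    rw [sum_ite_mem, inter_eq_right.mpr hA']
    simp
  calc ∑ i ∈ range n, ms (P i) (fun a => (3 * M + 3) * ε < ‖φ a‖)
      ≤ ∑ i ∈ range n, (d + (if i ∈ X then 1 else 0) + (if i ∈ Y then 1 else 0) +
        (if i ∈ Z then 1 else 0)) := sum_le_sum hmain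
    _ = n * d + X.card + Y.card + Z.card := by
      rw [sum_add_distrib, sum_add_distrib, sum_add_distrib, hsum X (filter_subset _ _),
        hsum Y (filter_subset _ _), hsum Z (filter_subset _ _)]
      simp
    _ ≤ δ' * n := by
      have h2 : d * n ≤ δ' / 4 * n := mul_le_mul_of_nonneg_right hd2 hnR.le
      have h3 : 0 < δ' * n := by positivity
      linarith


end Pool.OCL
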