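import Pool.Agent.H92.M5.Tools
import Pool.Agent.H73.KAF.RST
import Pool.Agent.H70.K2.AVG

/-!
# Small subcells are rare along a filtration, with concentration

`κ i : Ω → S` labels, `κ j` determines `κ i` for `i ≤ j`. `F i` is an event determined by
`κ (i + 1)` of conditional probability at most `a` given `κ i`. Then outside an event of
probability `1 / ((δ - a) ^ 2 * n)` at most `δ * n` of the `n` events `F i` happen.
-/

set_option autoImplicit false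

namespace Pool.OCL

open Finset Real
open Pool.Agent.H49.Ent Pool.Agent.H32.Dense Pool.STK Pool.KAF

section

variable {Ω S : Type} [Fintype Ω]

open Classical in
/-- The indicator of an event. -/
noncomputable def ind (E : Set Ω) (ω : Ω) : ℝ := if ω ∈ E then 1 else 0

omit [Fintype Ω] in
theorem ind_nonneg (E : Set Ω) (ω : Ω) : 0 ≤ ind E ω := by
  unfold ind
  split_ifs <;> norm_num

omit [Fintype Ω] in
theorem ind_le_one (E : Set Ω) (ω : Ω) : ind E ω ≤ 1 := by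
  unfold ind
  split_ifs <;> norm_num

theorem Ex_indE (p : Ω → ℝ) (E : Set Ω) : Ex p (ind E) = Pr p E := by
  classical
  exact Pool.M5T.Ex_ind p E

theorem cstat {p : Ω → ℝ} (hp : ∀ ω, 0 ≤ p ω) (κ : Ω → S) (a : Ω) :
    ∑ ω, p ω * Pool.Agent.H49.Ent.cond p κ (κ ω) a = p a := by
  classical
  have e1 : ∀ ω, p ω * Pool.Agent.H49.Ent.cond p κ (κ ω) a =
      (if κ ω = κ a then p ω else 0) * (p a / law p κ (κ a)) := by
    intro ω
    unfold Pool.Agent.H49.Ent.cond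
    by_cases h : κ a = κ ω
    · rw [if_pos h, if_pos h.symm, h]
    · rw [if_neg h, if_neg (Ne.symm h), mul_zero, zero_mul]
  rw [Finset.sum_congr rfl fun ω _ => e1 ω, ← Finset.sum_mul]
  have e2 : (∑ ω, if κ ω = κ a then p ω else 0) = law p κ (κ a) := rfl
  rw [e2]
  rcases (hp a).eq_or_lt with h0 | h0
  · rw [← h0, zero_div, mul_zero]
  · rw [mul_div_cancel₀ _ (law_pos hp κ h0).ne']

/-- Weighted tower property. -/
theorem tower {p : Ω → ℝ} (hp : ∀ ω, 0 ≤ p ω) (κ : Ω → S) (h : Ω → ℝ)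
    (hh : ∀ ω ω', κ ω = κ ω' → h ω = h ω') (f : Ω → ℝ) :
    Ex p (fun ω => h ω * f ω) =
      Ex p (fun ω => h ω * Ex (Pool.Agent.H49.Ent.cond p κ (κ ω)) f) := by
  classical
  unfold Ex
  simp only [Finset.mul_sum]
  rw [Finset.sum_comm]
  refine Finset.sum_congr rfl fun a _ => ?_
  have e1 : ∀ ω, p ω * (h ω * (Pool.Agent.H49.Ent.cond p κ (κ ω) a * f a)) =
      (p ω * Pool.Agent.H49.Ent.cond p κ (κ ω) a) * (h a * f a) := by
    intro ω
    by_cases hκ : κ a = κ ω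
    · rw [hh a ω hκ]
      ring
    · have : Pool.Agent.H49.Ent.cond p κ (κ ω) a = 0 := by
        unfold Pool.Agent.H49.Ent.cond
        rw [if_neg hκ]
      rw [this]
      ring
  rw [Finset.sum_congr rfl fun ω _ => e1 ω, ← Finset.sum_mul, cstat hp κ a]

/-- The martingale difference. -/
noncomputable def D (p : Ω → ℝ) (κ : ℕ → Ω → S) (F : ℕ → Set Ω) (i : ℕ) (ω : Ω) : ℝ :=
  ind (F i) ω - Pr (Pool.Agent.H49.Ent.cond p (κ i) (κ i ω)) (F i)

variable {p : Ω → ℝ} {κ : ℕ → Ω → S} {F : ℕ → Set Ω}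

omit [Fintype Ω] in
theorem κ_mono (hκ : ∀ i ω ω', κ (i + 1) ω = κ (i + 1) ω' → κ i ω = κ i ω') {i j : ℕ}
    (hij : i ≤ j) (ω ω' : Ω) (h : κ j ω = κ j ω') : κ i ω = κ i ω' := by
  obtain ⟨k, rfl⟩ := Nat.exists_eq_add_of_le hij
  induction k with
  | zero => exact h
  | succ k ih => exact ih (by omega) (hκ _ _ _ h)

theorem D_dep (hκ : ∀ i ω ω', κ (i + 1) ω = κ (i + 1) ω' → κ i ω = κ i ω')
    (hF : ∀ i ω ω', κ (i + 1) ω = κ (i + 1) ω' → (ω ∈ F i ↔ ω' ∈ F i)) {i j : ℕ} (hij : i < j)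
    (ω ω' : Ω) (h : κ j ω = κ j ω') : D p κ F i ω = D p κ F i ω' := by
  classical
  have h1 : κ (i + 1) ω = κ (i + 1) ω' := κ_mono hκ (by omega) ω ω' h
  unfold D ind
  rw [hκ i ω ω' h1]
  congr 1
  by_cases h2 : ω ∈ F i
  · rw [if_pos h2, if_pos ((hF i ω ω' h1).1 h2)]
  · rw [if_neg h2, if_neg fun h3 => h2 ((hF i ω ω' h1).2 h3)]

theorem D_orth (hp : ∀ ω, 0 ≤ p ω) (hκ : ∀ i ω ω', κ (i + 1) ω = κ (i + 1) ω' → κ i ω = κ i ω')
    (hF : ∀ i ω ω', κ (i + 1) ω = κ (i + 1) ω' → (ω ∈ F i ↔ ω' ∈ F i)) {i j : ℕ} (hij : i < j) :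
    Ex p (fun ω => D p κ F i ω * D p κ F j ω) = 0 := by
  have h1 := tower hp (κ j) (D p κ F i) (D_dep hκ hF hij) (ind (F j))
  have h2 : Ex p (fun ω => D p κ F i ω * D p κ F j ω) =
      Ex p (fun ω => D p κ F i ω * ind (F j) ω) -
        Ex p (fun ω => D p κ F i ω * Ex (Pool.Agent.H49.Ent.cond p (κ j) (κ j ω)) (ind (F j))) := by
    unfold Ex
    rw [← Finset.sum_sub_distrib]
    refine Finset.sum_congr rfl fun ω _ => ?_
    have e : D p κ F j ω = ind (F j) ω -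
        Ex (Pool.Agent.H49.Ent.cond p (κ j) (κ j ω)) (ind (F j)) := by
      rw [Ex_indE]
      rfl
    unfold Ex at e
    beta_reduce
    rw [e]
    ring
  rw [h2, h1, sub_self]

theorem D_sq (hp : IsLaw p) (i : ℕ) {ω : Ω} (hω : 0 < p ω) :
    D p κ F i ω * D p κ F i ω ≤ 1 := by
  have h1 := ind_nonneg (F i) ω
  have h2 := ind_le_one (F i) ω
  have hl := Pool.M5T.isLaw_cnd hp (κ i) hω
  have h3 : 0 ≤ Pr (Pool.Agent.H49.Ent.cond p (κ i) (κ i ω)) (F i) := law_nonneg hl.nonneg _ _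
  have h4 : Pr (Pool.Agent.H49.Ent.cond p (κ i) (κ i ω)) (F i) ≤ 1 := Pool.KAF.Pr_le_one hl _
  have h5 : |D p κ F i ω| ≤ 1 := by
    unfold D
    rw [abs_le]
    constructor <;> linarith
  have h6 := abs_le.1 h5
  nlinarith

open Classical in
/-- The second moment. -/
theorem second (hp : IsLaw p) (hκ : ∀ i ω ω', κ (i + 1) ω = κ (i + 1) ω' → κ i ω = κ i ω')
    (hF : ∀ i ω ω', κ (i + 1) ω = κ (i + 1) ω' → (ω ∈ F i ↔ ω' ∈ F i)) (I : Finset ℕ) :
    Ex p (fun ω => (∑ i ∈ I, D p κ F i ω) * ∑ i ∈ I, D p κ F i ω) ≤ I.card := by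
  have e1 : Ex p (fun ω => (∑ i ∈ I, D p κ F i ω) * ∑ i ∈ I, D p κ F i ω) =
      ∑ i ∈ I, ∑ j ∈ I, Ex p (fun ω => D p κ F i ω * D p κ F j ω) := by
    have e0 : ∀ ω, (∑ i ∈ I, D p κ F i ω) * ∑ i ∈ I, D p κ F i ω =
        ∑ i ∈ I, ∑ j ∈ I, D p κ F i ω * D p κ F j ω := fun ω => Finset.sum_mul_sum _ _ _ _
    unfold Ex
    simp only [e0]
    simp only [Finset.mul_sum]
    rw [Finset.sum_comm]
    refine Finset.sum_congr rfl fun i _ => ?_
    rw [Finset.sum_comm]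
  have e2 : ∀ i ∈ I, ∑ j ∈ I, Ex p (fun ω => D p κ F i ω * D p κ F j ω) ≤ 1 := by
    intro i hi
    rw [Finset.sum_eq_single i]
    · have h1 : Ex p (fun ω => D p κ F i ω * D p κ F i ω) ≤ Ex p (fun _ => (1 : ℝ)) :=
        Ex_mono hp.nonneg fun ω hω => D_sq hp i hω
      rw [Ex_const hp.sum_one] at h1
      exact h1
    · intro j _ hj
      rcases lt_or_gt_of_ne hj with h | h
      · have := D_orth (p := p) hp.nonneg hκ hF h
        rw [← this]
        unfold Ex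
        exact Finset.sum_congr rfl fun ω _ => by ring
      · exact D_orth hp.nonneg hκ hF h
    · intro h
      exact absurd hi h
  rw [e1]
  refine (Finset.sum_le_sum e2).trans ?_
  rw [Finset.sum_const, nsmul_eq_mul, mul_one]

/-- **Concentration.** -/
theorem conc (hp : IsLaw p) (hκ : ∀ i ω ω', κ (i + 1) ω = κ (i + 1) ω' → κ i ω = κ i ω')
    (hF : ∀ i ω ω', κ (i + 1) ω = κ (i + 1) ω' → (ω ∈ F i ↔ ω' ∈ F i)) {a : ℝ}
    (ha : ∀ i ω, 0 < p ω → Pr (Pool.Agent.H49.Ent.cond p (κ i) (κ i ω)) (F i) ≤ a)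
    (I : Finset ℕ) (hI : 0 < I.card) {δ : ℝ} (hδ : a < δ) :
    Pr p {ω | δ * I.card < ∑ i ∈ I, ind (F i) ω} ≤ 1 / ((δ - a) ^ 2 * I.card) := by
  have hc : (0 : ℝ) < I.card := by exact_mod_cast hI
  have hd : 0 < δ - a := by linarith
  have h1 := Pool.KX.AVG.markov hp.nonneg
    (fun ω => (∑ i ∈ I, D p κ F i ω) * ∑ i ∈ I, D p κ F i ω) (fun ω _ => mul_self_nonneg _)
    (((δ - a) * I.card) ^ 2) (1 / ((δ - a) ^ 2 * I.card)) (by positivity) (by
      refine (second hp hκ hF I).trans (le_of_eq ?_)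
      field_simp)
  refine le_trans (Pool.KAF.Pr_mono ?_ ?_) h1
  · exact hp.nonneg
  · intro ω hω h
    have h2 : δ * I.card < ∑ i ∈ I, ind (F i) ω := h
    show ((δ - a) * I.card) ^ 2 < (∑ i ∈ I, D p κ F i ω) * ∑ i ∈ I, D p κ F i ω
    have h3 : ∑ i ∈ I, Pr (Pool.Agent.H49.Ent.cond p (κ i) (κ i ω)) (F i) ≤ a * I.card := by
      refine (Finset.sum_le_sum fun i _ => ha i ω hω).trans (le_of_eq ?_)
      rw [Finset.sum_const, nsmul_eq_mul]
      ring
    have h4 : ∑ i ∈ I, D p κ F i ω = ∑ i ∈ I, ind (F i) ω -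
        ∑ i ∈ I, Pr (Pool.Agent.H49.Ent.cond p (κ i) (κ i ω)) (F i) := by
      rw [← Finset.sum_sub_distrib]
      rfl
    have h5 : (δ - a) * I.card < ∑ i ∈ I, D p κ F i ω := by
      rw [h4]
      linarith
    have h6 : 0 < (δ - a) * I.card := by positivity
    nlinarith

/-- Small cells of a two-valued label are rare. -/
theorem two_cells {q : Ω → ℝ} (hq : IsLaw q) (g : Ω → ℤ) (a b : ℤ)
    (hg : ∀ ω, 0 < q ω → g ω = a ∨ g ω = b) {θ : ℝ} (hθ : 0 ≤ θ) :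
    Pr q {ω | Pr q {v | g v = g ω} < θ} ≤ 2 * θ := by
  classical
  have key : ∀ a : ℤ, Pr q {ω | g ω = a ∧ Pr q {v | g v = g ω} < θ} ≤ θ := by
    intro a
    by_cases h : Pr q {v | g v = a} < θ
    · refine le_trans (Pool.KAF.Pr_mono hq.nonneg fun ω _ hω => ?_) h.le
      exact hω.1
    · refine le_trans (le_of_eq ?_) hθ
      rw [Pool.KAF.Pr_eq]
      refine Finset.sum_eq_zero fun ω _ => ?_
      rw [if_neg]
      rintro ⟨h1, h2⟩
      rw [h1] at h2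
      exact h h2
  have h1 : Pr q {ω | Pr q {v | g v = g ω} < θ} ≤
      Pr q {ω | g ω = a ∧ Pr q {v | g v = g ω} < θ} +
        Pr q {ω | g ω = b ∧ Pr q {v | g v = g ω} < θ} := by
    refine Pool.M5T.Pr_or hq.nonneg fun ω hω h => ?_
    rcases hg ω hω with h2 | h2
    · exact Or.inl ⟨h2, h⟩
    · exact Or.inr ⟨h2, h⟩
  have h2 := key a
  have h3 := key b
  linarith

end

end Pool.OCL
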