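import Pool.Agent.H14.OCL.Defs
import Pool.Agent.H14.OCL.Mart

/-!
# The times on a line

`t1`: for every law of the times, the own half of the window of the scale `i` has conditional
probability less than `1 / M` for few scales only, outside a rare event. `t23`: near times are
rare (from `TM`).
-/

set_option autoImplicit false

namespace Pool.OCL

open Finset Real
open Pool.Agent.H49.Ent Pool.Agent.H32.Dense Pool.STK Pool.KAF Pool.OCM Pool.OCV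
open Pool.OCV.Line (ncard_eq Ti_succ)
open Pool.OCG (nr kp tl nr_nonneg ta_of_nr dbl_congr)

theorem floor_two (x : ℝ) : ⌊2 * x⌋ = 2 * ⌊x⌋ ∨ ⌊2 * x⌋ = 2 * ⌊x⌋ + 1 := by
  have h1 := Int.floor_le x
  have h2 := Int.lt_floor_add_one x
  have h3 : 2 * ⌊x⌋ ≤ ⌊2 * x⌋ := by
    rw [Int.le_floor]
    push_cast
    linarith
  have h4 : ⌊2 * x⌋ < 2 * ⌊x⌋ + 2 := by
    rw [Int.floor_lt]
    push_cast
    linarith
  omega

section

variable {c : ℕ}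

/-- The coupling of the scales `i` and `i + 1` fails. -/
def fail (d : Dat c) (M : ℝ) (i : ℕ) : Set d.Om :=
  {ω | Pr (d.pk i ω) {v | d.Ti (i + 1) v = d.Ti (i + 1) ω} < 1 / M}

theorem fail_pr (d : Dat c) (hp : IsLaw d.P) {M : ℝ} (hM : 0 < M) (i : ℕ) {ω : d.Om}
    (hω : 0 < d.P ω) : Pr (Pool.Agent.H49.Ent.cond d.P (fun v => (d.L v, d.Ti i v))
      (d.L ω, d.Ti i ω)) (fail d M i) ≤ 2 / M := by
  have hq := Pool.M5T.isLaw_cnd hp (fun v => (d.L v, d.Ti i v)) hω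
  set q := Pool.Agent.H49.Ent.cond d.P (fun v => (d.L v, d.Ti i v)) (d.L ω, d.Ti i ω) with hqd
  have hmem : ∀ v, 0 < q v → (d.L v, d.Ti i v) = (d.L ω, d.Ti i ω) := fun v hv =>
    ((cond_pos_iff hp.nonneg _ _ v).1 hv).2
  have h1 := two_cells hq (d.Ti (i + 1)) (2 * d.Ti i ω) (2 * d.Ti i ω + 1) (fun v hv => by
    have h2 : d.Ti i v = d.Ti i ω := (Prod.ext_iff.mp (hmem v hv)).2
    rw [← h2]
    have h3 := floor_two ((2 : ℝ) ^ i * d.th (d.T v))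
    have h4 : (2 : ℝ) ^ (i + 1) * d.th (d.T v) = 2 * ((2 : ℝ) ^ i * d.th (d.T v)) := by
      rw [pow_succ]
      ring
    unfold Dat.Ti
    rw [h4]
    exact h3) (θ := 1 / M) (by positivity)
  have h2 : (2 : ℝ) / M = 2 * (1 / M) := by ring
  rw [h2]
  refine le_trans (Pool.KAF.Pr_mono hq.nonneg fun v hv hvF => ?_) h1
  have h3 : Pr (d.pk i v) {v' | d.Ti (i + 1) v' = d.Ti (i + 1) v} < 1 / M := hvF
  have h4 : d.pk i v = q := by
    unfold Dat.pk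
    rw [hmem v hv]
  rw [h4] at h3
  exact h3

/-- **(T1)** for every law of the times. -/
theorem t1 (c : ℕ) {δ M κ₂ π₁ : ℝ} (hδ : 0 < δ) (hM : 4 / δ ≤ M) (hκ : 0 < κ₂) (hπ : 0 < π₁) :
    ∃ X₀ : ℕ, ∀ d : Dat c, IsLaw d.P → X₀ ≤ d.X →
      Pr d.P {ω | δ * ⌊κ₂ * d.X⌋₊ < (Set.ncard {i : ℕ | ⌊κ₂ * d.X⌋₊ ≤ i ∧
        i < 2 * ⌊κ₂ * d.X⌋₊ ∧
        Pr (d.pk i ω) {v | d.Ti (i + 1) v = d.Ti (i + 1) ω} < 1 / M} : ℝ)} ≤ π₁ := by
  classical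
  obtain ⟨X₀, hX₀⟩ := exists_nat_ge ((4 / (δ ^ 2 * π₁) + 2) / κ₂)
  refine ⟨X₀, fun d hp hX => ?_⟩
  have hM0 : 0 < M := lt_of_lt_of_le (by positivity) hM
  obtain ⟨n, hn⟩ : ∃ n : ℕ, n = ⌊κ₂ * d.X⌋₊ := ⟨_, rfl⟩
  rw [← hn]
  have h1 : (4 / (δ ^ 2 * π₁) + 2) / κ₂ ≤ d.X := hX₀.trans (by exact_mod_cast hX)
  rw [div_le_iff₀ hκ] at h1
  have h2 : κ₂ * d.X < n + 1 := by
    rw [hn]
    exact Nat.lt_floor_add_one _
  have h3 : 4 / (δ ^ 2 * π₁) ≤ n := by linarith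
  have h4 : (0 : ℝ) < n := lt_of_lt_of_le (by positivity) h3
  have h5 : 0 < n := by exact_mod_cast h4
  have hcard : (Ico n (2 * n)).card = n := by
    rw [Nat.card_Ico]
    omega
  have key := conc (p := d.P) (κ := fun i ω => (d.L ω, d.Ti i ω)) (F := fail d M) hp
    (fun i ω ω' h => Prod.ext (Prod.ext_iff.mp h).1 (Ti_succ (Prod.ext_iff.mp h).2))
    (fun i ω ω' h => by
      have e1 : (d.L ω, d.Ti i ω) = (d.L ω', d.Ti i ω') :=
        Prod.ext (Prod.ext_iff.mp h).1 (Ti_succ (Prod.ext_iff.mp h).2)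
      have e2 : d.Ti (i + 1) ω = d.Ti (i + 1) ω' := (Prod.ext_iff.mp h).2
      unfold fail Dat.pk
      simp only [Set.mem_ofPred_eq]
      rw [e1, e2])
    (a := 2 / M) (fun i ω hω => fail_pr d hp hM0 i hω) (Ico n (2 * n)) (by rw [hcard]; exact h5)
    (δ := δ) (by
      rw [div_le_iff₀ hδ] at hM
      rw [div_lt_iff₀ hM0]
      linarith)
  rw [hcard] at key
  have h6 : 1 / ((δ - 2 / M) ^ 2 * n) ≤ π₁ := by
    have a1 : 2 / M ≤ δ / 2 := by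
      rw [div_le_iff₀ hδ] at hM
      rw [div_le_div_iff₀ hM0 (by norm_num)]
      linarith
    have a2 : (δ / 2) ^ 2 ≤ (δ - 2 / M) ^ 2 := by
      have : δ / 2 ≤ δ - 2 / M := by linarith
      exact pow_le_pow_left₀ (by positivity) this 2
    have a3 : (δ / 2) ^ 2 * n ≤ (δ - 2 / M) ^ 2 * n := mul_le_mul_of_nonneg_right a2 h4.le
    have a4 : 1 ≤ π₁ * ((δ / 2) ^ 2 * n) := by
      rw [div_le_iff₀ (by positivity)] at h3
      linarith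
    have a5 : 0 < (δ / 2) ^ 2 * n := by positivity
    rw [div_le_iff₀ (lt_of_lt_of_le a5 a3)]
    exact a4.trans (mul_le_mul_of_nonneg_left a3 hπ.le)
  refine le_trans (Pool.KAF.Pr_mono hp.nonneg fun ω _ hω => ?_) (key.trans h6)
  have h7 : δ * n < (Set.ncard {i : ℕ | n ≤ i ∧ i < 2 * n ∧
    Pr (d.pk i ω) {v | d.Ti (i + 1) v = d.Ti (i + 1) ω} < 1 / M} : ℝ) := hω
  rw [ncard_eq, Finset.card_filter] at h7
  push_cast at h7
  show δ * n < ∑ i ∈ Ico n (2 * n), ind (fail d M i) ω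
  refine lt_of_lt_of_le h7 (le_of_eq (Finset.sum_congr rfl fun i _ => ?_))
  unfold ind fail
  simp only [Set.mem_ofPred_eq]

/-- **(T2), (T3)** from `TM`. -/
theorem t23 (c : ℕ) {δ κ₂ π₁ : ℝ} (hδ : 0 < δ) (hκ : 0 < κ₂) (hκ4 : κ₂ ≤ 1 / 4) (hπ : 0 < π₁) :
    ∃ εT : ℝ, 0 < εT ∧ ∀ k' : ℕ, ∃ X₀ : ℕ, ∀ (d : Dat c) (A : ℕ), d.OK A → X₀ ≤ d.X →
      TM d k' εT →
      Pr d.P {ω | δ * ⌊κ₂ * d.X⌋₊ < ∑ i ∈ Finset.Ico ⌊κ₂ * d.X⌋₊ (2 * ⌊κ₂ * d.X⌋₊),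
        Pr (d.pk i ω) {v | |d.th (d.T v) - d.th (d.T ω)| < (2 : ℝ) ^ (-((i : ℤ) + k'))}} ≤ π₁ ∧
      Pr d.P {ω | δ < Pr (d.pl ω)
        {v | |d.th (d.T v) - d.th (d.T ω)| < (2 : ℝ) ^ (-(κ₂ * d.X))}} ≤ π₁ := by
  classical
  refine ⟨π₁ * δ * κ₂ / 16, by positivity, fun k' => ?_⟩
  obtain ⟨X₀, hX₀⟩ := exists_nat_ge ((4 * k' + 8) / κ₂)
  refine ⟨X₀, fun d A hOK hX hT => ?_⟩
  have hp := hOK.law
  have hp0 := hp.nonneg
  obtain ⟨n, hn⟩ : ∃ n : ℕ, n = ⌊κ₂ * d.X⌋₊ := ⟨_, rfl⟩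
  rw [← hn]
  have hk0 : (0 : ℝ) ≤ k' := Nat.cast_nonneg _
  have h1 : (4 * k' + 8) / κ₂ ≤ (d.X : ℝ) := hX₀.trans (by exact_mod_cast hX)
  rw [div_le_iff₀ hκ] at h1
  have h2 : κ₂ * d.X < n + 1 := by
    rw [hn]
    exact Nat.lt_floor_add_one _
  have hXp : 0 < κ₂ * d.X := by linarith
  have h3 : (n : ℝ) ≤ κ₂ * d.X := by
    rw [hn]
    exact Nat.floor_le hXp.le
  have h4 : κ₂ * d.X / 2 ≤ n := by linarith
  have h5 : (0 : ℝ) < n := by linarith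
  have hX0 : (0 : ℝ) ≤ d.X := Nat.cast_nonneg _
  have h2n : 2 * n ≤ d.X := by
    have : (2 * n : ℝ) ≤ d.X := by
      have h6 : κ₂ * d.X ≤ 1 / 4 * d.X := mul_le_mul_of_nonneg_right hκ4 hX0
      linarith
    exact_mod_cast this
  obtain ⟨θ, hθ⟩ : ∃ θ : d.Om → ℝ, θ = fun ω => d.th (d.T ω) := ⟨_, rfl⟩
  have hT' : ∑ i ∈ range d.X, nr d.P d.L θ k' i ≤ π₁ * δ * κ₂ / 16 * d.X := by
    rw [hθ]
    exact hT
  have hnn : ∀ v, 0 ≤ nr d.P d.L θ k' v := fun v => nr_nonneg hp0 _ _ _ _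
  constructor
  · refine Pool.KX.AVG.markov hp0 (fun ω => ∑ i ∈ Finset.Ico n (2 * n),
      Pr (d.pk i ω) {v | |d.th (d.T v) - d.th (d.T ω)| < (2 : ℝ) ^ (-((i : ℤ) + k'))})
      (fun ω _ => Finset.sum_nonneg fun i _ =>
        law_nonneg (fun v => cond_nonneg hp0 _ _ v) _ _) (δ * n) π₁ (by positivity) ?_
    have e1 : ∑ ω, d.P ω * ∑ i ∈ Finset.Ico n (2 * n),
        Pr (d.pk i ω) {v | |d.th (d.T v) - d.th (d.T ω)| < (2 : ℝ) ^ (-((i : ℤ) + k'))} =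
        ∑ i ∈ Finset.Ico n (2 * n), nr d.P d.L θ k' i := by
      simp only [Finset.mul_sum]
      rw [Finset.sum_comm]
      refine Finset.sum_congr rfl fun i _ => ?_
      unfold nr
      rw [Pool.M5T.Pr_dbl, hθ]
      rfl
    beta_reduce
    rw [e1]
    have e2 : ∑ i ∈ Finset.Ico n (2 * n), nr d.P d.L θ k' i ≤
        ∑ i ∈ range d.X, nr d.P d.L θ k' i := by
      refine Finset.sum_le_sum_of_subset_of_nonneg ?_ fun v _ _ => hnn v
      intro v hv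
      have := (Finset.mem_Ico.1 hv).2
      exact Finset.mem_range.2 (by omega)
    refine (e2.trans hT').trans ?_
    have e3 : π₁ * δ * (κ₂ * d.X / 2) ≤ π₁ * δ * n := mul_le_mul_of_nonneg_left h4 (by positivity)
    have e4 : 0 ≤ π₁ * δ * (κ₂ * d.X) := by positivity
    linarith
  · refine Pool.KX.AVG.markov hp0 (fun ω => Pr (d.pl ω)
        {v | |d.th (d.T v) - d.th (d.T ω)| < (2 : ℝ) ^ (-(κ₂ * d.X))})
      (fun ω _ => law_nonneg (fun v => cond_nonneg hp0 _ _ v) _ _) δ π₁ hδ ?_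
    have e1 : ∑ ω, d.P ω * Pr (d.pl ω)
        {v | |d.th (d.T v) - d.th (d.T ω)| < (2 : ℝ) ^ (-(κ₂ * d.X))} =
        Pr (dbl d.P d.L) {w | |θ w.2 - θ w.1| < (2 : ℝ) ^ (-(κ₂ * d.X))} := by
      rw [Pool.M5T.Pr_dbl, hθ]
      rfl
    have e2 : dbl d.P d.L = dbl d.P (kp d.L θ 0) := by
      refine dbl_congr fun ω ω' => ?_
      have h6 : ∀ ω, tl θ 0 ω = 0 := by
        intro ω
        unfold tl
        rw [pow_zero, one_mul, hθ]
        have := hOK.hth (d.T ω)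
        exact Int.floor_eq_zero_iff.2 this
      unfold kp
      rw [h6, h6]
      simp
    have e3 : Pr (dbl d.P (kp d.L θ 0)) {w | |θ w.2 - θ w.1| < (2 : ℝ) ^ (-(κ₂ * d.X))} ≤
        Pr (dbl d.P (kp d.L θ 0)) {w | |θ w.2 - θ w.1| < (2 : ℝ) ^ (-(n : ℤ))} := by
      refine Pool.KAF.Pr_mono (fun w => glue_nonneg hp0 hp0 w) fun w _ hw => ?_
      refine lt_of_lt_of_le (show |θ w.2 - θ w.1| < (2 : ℝ) ^ (-(κ₂ * d.X)) from hw) ?_
      rw [← Real.rpow_intCast]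
      refine Real.rpow_le_rpow_of_exponent_le (by norm_num) ?_
      push_cast
      linarith
    have e4 := ta_of_nr hp d.L θ (k' := k') (i := 0) (i' := n) (by
      have : (k' : ℝ) ≤ n := by linarith
      have : k' ≤ n := by exact_mod_cast this
      omega)
    have e5 : ∑ v ∈ Finset.Ico 0 (n - k'), nr d.P d.L θ k' v ≤
        ∑ i ∈ range d.X, nr d.P d.L θ k' i := by
      refine Finset.sum_le_sum_of_subset_of_nonneg ?_ fun v _ _ => hnn v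
      intro v hv
      have := (Finset.mem_Ico.1 hv).2
      exact Finset.mem_range.2 (by omega)
    rw [e1, e2]
    refine e3.trans ?_
    obtain ⟨P0, hP0⟩ : ∃ P0, P0 = Pr (dbl d.P (kp d.L θ 0))
      {w | |θ w.2 - θ w.1| < (2 : ℝ) ^ (-(n : ℤ))} := ⟨_, rfl⟩
    rw [← hP0] at e4 ⊢
    have hP00 : 0 ≤ P0 := by
      rw [hP0]
      exact law_nonneg (fun w => glue_nonneg hp0 hp0 w) _ _
    have e6 : κ₂ * d.X / 4 * P0 ≤ ((n : ℝ) - k' - (0 : ℕ)) * P0 := by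
      refine mul_le_mul_of_nonneg_right ?_ hP00
      push_cast
      linarith
    have e7 : κ₂ * d.X * P0 ≤ κ₂ * d.X * (δ * π₁) := by
      have e8 : 0 ≤ κ₂ * d.X * (δ * π₁) := by positivity
      have e9 := e6.trans (e4.trans (mul_le_mul_of_nonneg_left (e5.trans hT')
        (by norm_num : (0 : ℝ) ≤ 3)))
      linarith
    exact le_of_mul_le_mul_left e7 hXp

end

end Pool.OCL
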