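import Pool.Agent.H14.OCL.Act
import Pool.Agent.H14.OCL.One
import Pool.Agent.H14.OCL.Tim
import Pool.Agent.H14.OCL.Rela
import Pool.Agent.H14.OCL.Line
import Pool.Agent.H98.OCV.Core3

/-!
# CORE for arbitrary time laws

The assembly of `Pool.OCV.COREStmt` (`H98/OCV/Core2`, `Core3`) with the coupling constant of `t1`
and the distances of `t23`.
-/

set_option autoImplicit false

namespace Pool.OCL

open Finset Real
open Pool.Agent.H49.Ent Pool.Agent.H32.Dense Pool.STK Pool.KAF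
open Pool.OCM Pool.OCV Pool.OCV.Line
open Pool.OC (sc Pr_or)
open Pool.OCV.Core (mA mA_mul mA_add mA_sum mA_nonneg mA_mono_I sel Pr_iU Pr_law Mx Mx_ok Mx_crd
  sizes ms_eq_Pr hB_of mean_le total_le)

/-- **CORE** for arbitrary time laws. -/
def CORELStmt (c : ℕ) : Prop :=
  ∀ c₀ ca : ℝ, 0 < c₀ → 0 < ca → ∃ uu dd : ℝ, 0 < uu ∧ uu ≤ 1 / 8 ∧ 0 < dd ∧
    ∀ (kz : ℕ) (ν q₀ : ℝ), 0 < ν → ν ≤ uu → 0 < q₀ → ∃ η κ π₁ εT : ℝ, 0 < η ∧
      η ≤ 1 ∧ 0 < κ ∧ κ ≤ 1 ∧ 0 < π₁ ∧ 0 < εT ∧ ∀ A k' : ℕ, ∃ (π₀ ι : ℝ) (X₀ : ℕ), 0 < π₀ ∧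
        0 < ι ∧ ∀ d : Dat c, d.OK A → X₀ ≤ d.X → TI d ι → TM d k' εT →
        d.H2 ι → d.H3 ι → d.H4 ca η π₁ → d.H5 c₀ κ π₀ →
        ∀ (R : Type) [Fintype R] (Q : R → ℝ) (w₀ : R → d.Om) (w ρ : Fin c → R → d.Om)
          (kmax : ℕ), Sch d Q w₀ w ρ ι → (kmax : ℝ) ≤ uu * d.X →
          Pr Q (Good d w₀ w ρ ⌊ν * d.X⌋₊ kz kmax dd) < q₀

section

variable {c : ℕ} {d : Dat c}

/-- At one triple (sample of the scheme, row, shift) the covectors of all lines annihilate the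
references. -/
theorem one_triple {κ δc : ℝ} (hκ : 0 < κ) {R : Type} [Fintype R] {Q : R → ℝ} {w₀ : R → d.Om} {w ρ : Fin c → R → d.Om}
    {A kmax n R₀ kz g k₇ K r q h n0 : ℕ} {dd c₁ c₂ C₁ δ ι D₀ e : ℝ} {C : Cov c} {v : R}
    {u : Fin c → Fin (2 ^ d.X)}
    (hok : d.OK A) (hS : Sch d Q w₀ w ρ ι) (hC : C.Unit) (hv : 0 < Q v)
    (hgood : v ∈ Good d w₀ w ρ n kz kmax dd)
    (hone : ∀ n : ℕ, n0 ≤ n → ∀ (P : ℕ → d.Om → ℝ) (φ : d.Om → ℝ) (ε : ℝ) (F : Finset ℕ),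
      0 ≤ ε → (∀ i < n, ∀ t, 0 ≤ P i t) → (∀ i < n, ∑ t, P i t = 1) →
      (∀ x, x + n / q ≤ 2 * n → c₂ / 2 * (n / q : ℕ) ≤ ((nb F (n / q) x).card : ℝ)) →
      (∑ i ∈ range n, ∑ j ∈ range n, (if i + j ∈ F then beta P φ ε i j else 0) ≤ δ * n ^ 2) →
      (∀ A : Finset ℕ, (∀ i ∈ A, i < n ∧ ¬ ∀ t, P (i + 1) t ≤ κ * P i t) →
        (A.card : ℝ) ≤ δc * n) →
      ∑ i ∈ range n, ms (P i) (fun a => C₁ * ε < ‖φ a‖) ≤ c₂ / 16 * n)
    (hn0 : n0 ≤ n) (hn : 0 < n) (hc2 : 0 < c₂) (hh : 0 < h) (h2 : 2 * h ≤ n / q)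
    (hrun : ∀ k, ∀ i, i + 2 * h ≤ d.X → c₂ * (2 * h : ℕ) ≤ (Set.ncard {j | i ≤ j ∧
      j < i + 2 * h ∧ ∀ o ≤ 2 * R₀, d.act c₁ k₇ (j + o) (d.L (w k v))} : ℝ))
    (hr : 5 * n + 2 * R₀ + 1 ≤ r) (hrX : r ≤ d.X)
    (hT1 : ∀ k, (Set.ncard {i : ℕ | n ≤ i ∧ i < 2 * n ∧
      Pr (d.pk i (w k v)) {a | d.Ti (i + 1) a = d.Ti (i + 1) (w k v)} < 1 / κ} : ℝ) ≤ δc * n)
    (hT2 : ∀ k, ∑ i ∈ Finset.Ico n (2 * n), Pr (d.pk i (w k v))
      {a | |d.th (d.T a) - d.th (d.T (w k v))| < (2 : ℝ) ^ (-((i : ℤ) + R₀))} ≤ e * n)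
    (hrel : ∀ k, ∑ i ∈ range n, ∑ j ∈ range n,
      fl (d.pk (n + i) (w k v)) (d.pk (n + j) (w k v))
        (Bad d (Mx d kmax (xr d w₀ ρ v)) kz g k₇ c₁ r (w k v)
          (phi d C Q w₀ ρ (Mx d kmax) v r u)) ≤ e * n ^ 2)
    (href1 : ∀ k, ∑ j ∈ range n, ms (d.pk (n + j) (w k v))
      (fun a => Bad d (Mx d kmax (xr d w₀ ρ v)) kz g k₇ c₁ r (w k v)
          (phi d C Q w₀ ρ (Mx d kmax) v r u) (ρ k v) a) ≤ e * n)
    (href2 : ∀ k, ∑ j ∈ range n, ms (d.pk (n + j) (w k v))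
      (fun a => Bad d (Mx d kmax (xr d w₀ ρ v)) kz g k₇ c₁ r (w k v)
          (phi d C Q w₀ ρ (Mx d kmax) v r u) a (ρ k v)) ≤ e * n)
    (hdd : dd ≤ e) (he1 : e ≤ δ / 16) (he2 : e ≤ c₂ / 128) (he0 : 0 ≤ e)
    (k2 : 2 * (R₀ + kz + g + 4 : ℕ) ≤ δ / 2 * n)
    (k5 : 2 * ((R₀ + kz + g + 4 : ℕ) : ℝ) ≤ c₂ / 4 * n)
    (hg : (c : ℝ) * ((C₁ + 1) * (2 : ℝ) ^ (-(g : ℤ))) ≤ 1 / 2) : False := by
  classical
  obtain ⟨hM, hρ1, hfm⟩ := hgood
  have hM := Mx_crd d w₀ ρ hM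
  have hk : ∀ k, |cov d C Q w₀ ρ (Mx d kmax) v r u k| ≤ (C₁ + 1) * (2 : ℝ) ^ (-(g : ℤ)) := by
    intro k
    have hpt := hS.pt v hv k
    have hTk : d.T (w k v) = d.T (w₀ v) := (Prod.ext_iff.mp (Prod.ext_iff.mp hpt).2).2
    have hw : 0 < d.P (w k v) := by
      rw [← hS.lw k]
      exact law_pos hS.law.nonneg (w k) hv
    have hchi : zc (Mx d kmax (xr d w₀ ρ v)) (d.chi (d.T (w k v)) (d.T (ρ k v))) =
        Pi.single k 1 := by
      rw [hTk]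
      exact hM.2 k
    have hfin := Pool.OCL.Line.line hκ (M := Mx d kmax (xr d w₀ ρ v)) (kz := kz) (g := g) (k₇ := k₇) (r := r)
      (c₁ := c₁) (C₁ := C₁) (δ' := c₂ / 16) (δ := δ) (δ₀ := e) (η := e + e)
      (φ := phi d C Q w₀ ρ (Mx d kmax) v r u) (ρ := ρ k v) hok.law hok.hth hw hone hn0 hn hc2 hh
      h2 (hrun k) hr hrX (hT1 k)
      (hB_of hok.law hw hn (hT2 k) (by
        rw [hTk]
        exact le_trans (hfm _ hM k) hdd)) (hrel k)
      (by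
        rw [hTk]
        exact hρ1 k)
      (by
        intro i
        rw [hchi]
        have h1 : (1 : ℝ) ≤ 2 ^ kz := one_le_pow₀ (by norm_num)
        by_cases hik : i = k
        · subst hik
          rw [Pi.single_eq_same, abs_one]
          exact h1
        · rw [Pi.single_eq_of_ne hik, abs_zero]
          linarith only [h1])
      (href1 k) (href2 k) (by linarith only [he1, he0]) k2 (by linarith only [hc2, he2]) le_rfl k5
    have hphi : phi d C Q w₀ ρ (Mx d kmax) v r u (ρ k v) =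
        cov d C Q w₀ ρ (Mx d kmax) v r u k := by
      unfold phi
      rw [← hTk, hchi]
      rw [Finset.sum_eq_single k]
      · rw [Pi.single_eq_same, mul_one]
      · intro i _ hik
        rw [Pi.single_eq_of_ne hik, mul_zero]
      · intro hk
        exact absurd (Finset.mem_univ k) hk
    rwa [hphi] at hfin
  have hone' : ∑ k, |cov d C Q w₀ ρ (Mx d kmax) v r u k| = 1 := hC _ _ _ _ _ _ _
  have hle := Finset.sum_le_sum fun k (_ : k ∈ (Finset.univ : Finset (Fin c))) => hk k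
  rw [hone', Finset.sum_const, Finset.card_univ, Fintype.card_fin, nsmul_eq_mul] at hle
  linarith only [hg, hle]

end

/-- **CORE from RELA.** -/
theorem corel_of (c : ℕ) (hN : NFRStmt c) (hA : ACTRLStmt c) (hR : RELALStmt c)
    (hO : OneLStmt.{0, 0}) : CORELStmt c := by
  classical
  intro c₀ ca hc₀ hca
  obtain ⟨u, hu, hu1, hN⟩ := hN c₀ hc₀
  obtain ⟨c₂, hc₂, hc₂1, hA⟩ := hA ca hca
  obtain ⟨C₁, hC₁, hO⟩ := hO (c₂ / 2) (by positivity)
  obtain ⟨q, hq, δc, hδc, hO⟩ := hO (c₂ / 16) (by positivity)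
  obtain ⟨κc, hκc⟩ : ∃ κc : ℝ, κc = 4 / δc := ⟨_, rfl⟩
  have hκ0 : 0 < κc := by
    rw [hκc]
    positivity
  obtain ⟨δ, hδ, n0, hO⟩ := hO κc hκ0.le
  obtain ⟨g, hg⟩ : ∃ g : ℕ, (c : ℝ) * ((C₁ + 1) * (2 : ℝ) ^ (-(g : ℤ))) ≤ 1 / 2 := by
    obtain ⟨g, hg⟩ := pow_unbounded_of_one_lt (2 * ((c : ℝ) * (C₁ + 1))) (one_lt_two (α := ℝ))
    refine ⟨g, ?_⟩
    rw [zpow_neg, zpow_natCast, ← mul_assoc, ← div_eq_mul_inv, div_le_iff₀ (by positivity)]
    linarith only [hg]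
  obtain ⟨e, he⟩ : ∃ e : ℝ, e = min (δ / 16) (c₂ / 128) := ⟨_, rfl⟩
  have he0 : 0 < e := by
    rw [he]
    exact lt_min (by positivity) (by positivity)
  have he1 : e ≤ δ / 16 := he ▸ min_le_left _ _
  have he2 : e ≤ c₂ / 128 := he ▸ min_le_right _ _
  refine ⟨min (u / 8) (1 / 64), e, lt_min (by positivity) (by norm_num),
    le_trans (min_le_right _ _) (by norm_num), he0, ?_⟩
  intro kz ν q₀ hν hνu hq₀
  have hν64 : ν ≤ 1 / 64 := le_trans hνu (min_le_right _ _)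
  have hc1 : (0 : ℝ) < (c : ℝ) + 1 := by positivity
  have hπ₁ : 0 < q₀ / (8 * ((c : ℝ) + 1)) := by positivity
  have hqR : (1 : ℝ) ≤ q := by exact_mod_cast hq
  have hη : 0 < ν / (8 * (q : ℝ)) := by positivity
  exact by
   have hη1 : ν / (8 * (q : ℝ)) ≤ 1 := by
     rw [div_le_one (by positivity)]
     linarith only [hc₂1, he0, he2, hν64, hqR]
   obtain ⟨π₀', hπ₀', hA⟩ := hA (ν / (8 * q)) (q₀ / (8 * ((c : ℝ) + 1))) hη hη1 hπ₁
   obtain ⟨X₄, hT1⟩ := t1 c (δ := δc) (M := κc) (κ₂ := ν) (π₁ := q₀ / (8 * ((c : ℝ) + 1))) hδc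
     (by rw [hκc]) hν hπ₁
   obtain ⟨εT, hεT, hT⟩ := t23 c (δ := e) (κ₂ := ν) (π₁ := q₀ / (8 * ((c : ℝ) + 1))) he0 hν
     (by linarith only [hc₂1, he0, he2, hν64]) hπ₁
   refine ⟨ν / (8 * q), 1 / 4, π₀', εT, hη, hη1, by norm_num, by norm_num, hπ₀', hεT, ?_⟩
   intro A R₀
   obtain ⟨c₁, k₇, hc₁, hA⟩ := hA (2 * R₀)
   obtain ⟨D₀, hR⟩ := hR k₇ kz g c₁ (q₀ * e * u / (64 * ((c : ℝ) + 1))) hc₁ (by positivity)
   obtain ⟨K, hN⟩ := hN D₀
   obtain ⟨r₁, δR, C, hδR, hCU, hR⟩ := hR D₀ le_rfl K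
   obtain ⟨π₀, X₁, hπ₀, hN⟩ := hN (kz + 4) 1 (1 / 4) (q₀ / (8 * ((c : ℝ) + 1))) le_rfl
     (by norm_num) (by norm_num) hπ₁
   obtain ⟨X₂, hA⟩ := hA A
   obtain ⟨X₃, hT⟩ := hT R₀
   obtain ⟨N₁, hN₁⟩ : ∃ N₁ : ℕ, N₁ = n0 + 1 + ⌈4 * ((R₀ + kz + g + 4 : ℕ) : ℝ) / δ⌉₊ +
     ⌈8 * ((R₀ + kz + g + 4 : ℕ) : ℝ) / c₂⌉₊ := ⟨_, rfl⟩
   refine ⟨π₀, δR,
     X₁ + X₂ + X₃ + X₄ + (⌈((N₁ : ℝ) + 1) / ν⌉₊ + ⌈8 * (q : ℝ) / ν⌉₊ + 8 * ((r₁ + A) + 2) +
       16 * (R₀ + 2) + 8), hπ₀, hδR, ?_⟩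
   intro d hok hX H1 HT H2 H3 H4 H5 R _ Q w₀ w ρ kmax hS hk
   by_contra hcon
   rw [not_lt] at hcon
   have hXn : (0 : ℝ) ≤ d.X := Nat.cast_nonneg _
   have hk64 : (kmax : ℝ) ≤ 1 / 64 * d.X :=
     le_trans hk (mul_le_mul_of_nonneg_right (min_le_right _ _) hXn)
   obtain ⟨z1, z2, z3, z4, z4', z5, z6, z7⟩ := sizes (N₁ := N₁) (a := r₁ + A) (R₀ := R₀) hν hν64 hq
     (show _ ≤ d.X by omega) hk64
   exact by
    have hX8 : 8 ≤ d.X := by omega
    have hX8' : (0 : ℝ) < d.X := by exact_mod_cast (by omega : 0 < d.X)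
    have hQ0 := hS.law.nonneg
    obtain ⟨b, hb⟩ : ∃ b : ℕ, b = ⌊(1 / 4 : ℝ) * d.X⌋₊ := ⟨_, rfl⟩
    obtain ⟨n, hn⟩ : ∃ n : ℕ, n = ⌊ν * d.X⌋₊ := ⟨_, rfl⟩
    obtain ⟨h, hh⟩ : ∃ h : ℕ, h = ⌊ν / (8 * q) * (d.X : ℝ)⌋₊ := ⟨_, rfl⟩
    rw [← hb] at z4 z4' z5 z6 z7
    rw [← hn] at z1 z3 z6 hcon
    rw [← hh] at z2 z3
    have hnpos : 0 < n := by omega
    have hnR : (0 : ℝ) < n := by exact_mod_cast hnpos
    -- the rows
    have hNd := hN d kmax hok.law (by omega) (by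
      rw [one_mul, ← hb]
      have h1 : (kmax : ℝ) ≤ u / 8 * d.X :=
        le_trans hk (mul_le_mul_of_nonneg_right (min_le_left _ _) hXn)
      nlinarith only [h1, hu, z7]) H5 R _ Q w₀ (xr d w₀ ρ) (Mx d kmax) hS.law hS.l0
      (fun v v' _ _ h => by
        have := congrArg Prod.fst h
        exact this) (Mx_ok d kmax)
    rw [one_mul, ← hb] at hNd
    have hAd := hA d hok (by omega) H4
    rw [← hh] at hAd
    have hT1 := hT1 d hok.law (by omega)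
    obtain ⟨hT2, -⟩ := hT d A hok (by omega) HT
    rw [← hn] at hT1 hT2
    have hRd := hR A kmax d hok H1 H2 H3 R Q w₀ w ρ (Mx d kmax) hS (Mx_ok d kmax)
    -- the exceptional sets
    set E0 : Set R := {v | ∃ j : ℕ, (j + 2) * b ≤ d.X ∧ ∑ r ∈ Finset.Ico (j * b) ((j + 1) * b),
      wtz Q (fun v => nz (Mx d kmax (xr d w₀ ρ v)) (d.N (w₀ v))) (xr d w₀ ρ) d.X
        (d.X + (kz + 4) + 1 - r) K D₀ v < u * (b : ℕ)} with hE0
    exact by
     set E1 : Set d.Om := {ω | ∃ i : ℕ, i + 2 * h ≤ d.X ∧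
             (Set.ncard {j | i ≤ j ∧ j < i + 2 * h ∧
               ∀ o ≤ 2 * R₀, d.act c₁ k₇ (j + o) (d.L ω)} : ℝ) < c₂ * (2 * h : ℕ)} with hE1
     set E2 : Set d.Om := {ω | δc * n < (Set.ncard {i : ℕ | n ≤ i ∧
           i < 2 * n ∧
           Pr (d.pk i ω) {v | d.Ti (i + 1) v = d.Ti (i + 1) ω} < 1 / κc} : ℝ)} with hE2
     set E3 : Set d.Om := {ω | e * n < ∑ i ∈ Finset.Ico n (2 * n),
           Pr (d.pk i ω) {v | |d.th (d.T v) - d.th (d.T ω)| < (2 : ℝ) ^ (-((i : ℤ) + R₀))}} with hE3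
     set G : Set R := Good d w₀ w ρ n kz kmax e with hG
     set Aset : Set R := {v | v ∈ G ∧ v ∉ E0 ∧ ∀ k, w k v ∉ E1 ∧ w k v ∉ E2 ∧ w k v ∉ E3} with hAs
     have hAset : q₀ / 2 ≤ Pr Q Aset := by
       have a1 : Pr Q G ≤ Pr Q Aset + Pr Q {v | v ∉ Aset ∧ v ∈ G} := by
         refine Pr_or hQ0 fun v _ hv => ?_
         by_cases h1 : v ∈ Aset
         · exact Or.inl h1
         · exact Or.inr ⟨h1, hv⟩
       have a2 : Pr Q {v | v ∉ Aset ∧ v ∈ G} ≤ Pr Q E0 +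
           Pr Q {v | ∃ k, v ∈ {v | w k v ∈ E1 ∨ w k v ∈ E2 ∨ w k v ∈ E3}} := by
         refine Pr_or hQ0 fun v _ hv => ?_
         by_cases h1 : v ∈ E0
         · exact Or.inl h1
         · right
           by_contra h2
           apply hv.1
           refine ⟨hv.2, h1, fun k => ?_⟩
           simp only [Set.mem_ofPred_eq, not_exists, not_or] at h2
           exact h2 k
       have a3 : ∀ k : Fin c, Pr Q {v | w k v ∈ E1 ∨ w k v ∈ E2 ∨ w k v ∈ E3} ≤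
           Pr d.P E1 + (Pr d.P E2 + Pr d.P E3) := by
         intro k
         have b1 := Pr_law (hS.lw k) E1
         have b2 := Pr_law (hS.lw k) E2
         have b3 := Pr_law (hS.lw k) E3
         rw [← b1, ← b2, ← b3]
         refine le_trans (Pr_or (B := {v | w k v ∈ E1}) (C := {v | w k v ∈ E2 ∨ w k v ∈ E3}) hQ0
           fun v _ hv => hv) (add_le_add_right (Pr_or hQ0 fun v _ hv => hv) _)
       have a4 := Pr_iU hQ0 (fun k : Fin c => {v | w k v ∈ E1 ∨ w k v ∈ E2 ∨ w k v ∈ E3})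
       have a5 : ∑ k : Fin c, Pr Q {v | w k v ∈ E1 ∨ w k v ∈ E2 ∨ w k v ∈ E3} ≤
           c * (3 * (q₀ / (8 * ((c : ℝ) + 1)))) := by
         refine le_trans (Finset.sum_le_sum fun k _ => le_trans (a3 k)
           (show _ ≤ 3 * (q₀ / (8 * ((c : ℝ) + 1))) by linarith only [hAd, hT1, hT2])) ?_
         rw [Finset.sum_const, Finset.card_univ, Fintype.card_fin, nsmul_eq_mul]
       have a6 : q₀ / (8 * ((c : ℝ) + 1)) + c * (3 * (q₀ / (8 * ((c : ℝ) + 1)))) ≤ q₀ / 2 := by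
         have h1 : q₀ / (8 * ((c : ℝ) + 1)) * (8 * ((c : ℝ) + 1)) = q₀ :=
           div_mul_cancel₀ _ (by positivity)
         set t := q₀ / (8 * ((c : ℝ) + 1))
         have h2 : 0 ≤ t * c := by positivity
         nlinarith only [hπ₁, h1, h2]
       linarith only [hNd, hcon, a1, a2, a4, a5, a6]
     -- the means
     exact by
      have hW : (0 : ℝ) < (2 : ℝ) ^ (c * d.X) := by positivity
      have hmean := mean_le (Q := Q) (I := Finset.Ico b (2 * b))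
        (I' := Finset.Ico (r₁ + A + kmax) (d.X - (r₁ + A + kmax)))
        (lw := lw d Q w₀ ρ (Mx d kmax) kz K D₀) (W := (2 : ℝ) ^ (c * d.X)) hQ0 hW
        (Finset.Ico_subset_Ico (by omega) (by omega)) hnpos
        (t := q₀ * e * u / (64 * ((c : ℝ) + 1)) * d.X)
        (fun k i j v r u => fl (d.pk (n + i) (w k v)) (d.pk (n + j) (w k v))
          (Bad d (Mx d kmax (xr d w₀ ρ v)) kz g k₇ c₁ r (w k v) (phi d C Q w₀ ρ (Mx d kmax) v r u)))
        (fun k j v r u => ms (d.pk (n + j) (w k v))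
          (fun a => Bad d (Mx d kmax (xr d w₀ ρ v)) kz g k₇ c₁ r (w k v)
            (phi d C Q w₀ ρ (Mx d kmax) v r u) (ρ k v) a))
        (fun k j v r u => ms (d.pk (n + j) (w k v))
          (fun a => Bad d (Mx d kmax (xr d w₀ ρ v)) kz g k₇ c₁ r (w k v)
            (phi d C Q w₀ ρ (Mx d kmax) v r u) a (ρ k v)))
        (fun k i j v r u => fl_nonneg (pk_nonneg hok.law.nonneg _) (pk_nonneg hok.law.nonneg _) _)
        (fun k j v r u => ms_nonneg (pk_nonneg hok.law.nonneg _) _)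
        (fun k j v r u => ms_nonneg (pk_nonneg hok.law.nonneg _) _)
        (fun k i j => (hRd k (n + i) (n + j)).1) (fun k j => (hRd k n (n + j)).2.1)
        (fun k j => (hRd k n (n + j)).2.2)
      have hbR : (0 : ℝ) ≤ b := Nat.cast_nonneg _
      obtain ⟨v, r, uu, hv, hvA, hr, hlw, hle⟩ := sel hQ0 hW (A := Aset) (p := q₀ / 2)
        (b := u * b) (e := e) (by
          intro v r u
          refine Finset.sum_nonneg fun k _ => ?_
          have s1 : 0 ≤ ∑ i ∈ range n, ∑ j ∈ range n, fl (d.pk (n + i) (w k v))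
              (d.pk (n + j) (w k v)) (Bad d (Mx d kmax (xr d w₀ ρ v)) kz g k₇ c₁ r (w k v)
                (phi d C Q w₀ ρ (Mx d kmax) v r u)) :=
            Finset.sum_nonneg fun i _ => Finset.sum_nonneg fun j _ =>
              fl_nonneg (pk_nonneg hok.law.nonneg _) (pk_nonneg hok.law.nonneg _) _
          have s2 : 0 ≤ ∑ j ∈ range n, ms (d.pk (n + j) (w k v))
              (fun a => Bad d (Mx d kmax (xr d w₀ ρ v)) kz g k₇ c₁ r (w k v)
                (phi d C Q w₀ ρ (Mx d kmax) v r u) (ρ k v) a) :=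
            Finset.sum_nonneg fun j _ => ms_nonneg (pk_nonneg hok.law.nonneg _) _
          have s3 : 0 ≤ ∑ j ∈ range n, ms (d.pk (n + j) (w k v))
              (fun a => Bad d (Mx d kmax (xr d w₀ ρ v)) kz g k₇ c₁ r (w k v)
                (phi d C Q w₀ ρ (Mx d kmax) v r u) a (ρ k v)) :=
            Finset.sum_nonneg fun j _ => ms_nonneg (pk_nonneg hok.law.nonneg _) _
          positivity) hAset (by
          intro v _ hvA
          have h1 : v ∉ E0 := hvA.2.1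
          rw [hE0] at h1
          simp only [Set.mem_ofPred_eq, not_exists, not_and, not_lt] at h1
          have h2 := h1 1 (by omega)
          rw [one_mul, show (1 + 1) * b = 2 * b by ring] at h2
          exact h2) hmean (by
          have h1 : q₀ * e * u / (64 * ((c : ℝ) + 1)) * (64 * ((c : ℝ) + 1)) = q₀ * e * u :=
            div_mul_cancel₀ _ (by positivity)
          set t := q₀ * e * u / (64 * ((c : ℝ) + 1)) with ht
          have ht0 : 0 < t := by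
            rw [ht]
            positivity
          have h2 : q₀ / 2 * (e * (u * ((d.X : ℝ) / 8))) ≤ q₀ / 2 * (e * (u * b)) := by
            gcongr
          have h3 : q₀ / 2 * (e * (u * ((d.X : ℝ) / 8))) = t * (64 * ((c : ℝ) + 1)) * d.X / 16 := by
            rw [h1]
            ring
          have h4 : 0 ≤ t * c * d.X := by positivity
          have h5 : 0 < t * d.X := by positivity
          nlinarith only [h2, h3, h4, h5]) (by positivity) he0.le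
      exact by
       obtain ⟨hvG, hv0, hvk⟩ := hvA
       have hN₁n : (N₁ : ℝ) ≤ n := by exact_mod_cast z1
       have hN₁1 : 4 * ((R₀ + kz + g + 4 : ℕ) : ℝ) / δ ≤ N₁ := by
         refine le_trans (Nat.le_ceil _) ?_
         exact_mod_cast (by omega : ⌈4 * ((R₀ + kz + g + 4 : ℕ) : ℝ) / δ⌉₊ ≤ N₁)
       have hN₁2 : 8 * ((R₀ + kz + g + 4 : ℕ) : ℝ) / c₂ ≤ N₁ := by
         refine le_trans (Nat.le_ceil _) ?_
         exact_mod_cast (by omega : ⌈8 * ((R₀ + kz + g + 4 : ℕ) : ℝ) / c₂⌉₊ ≤ N₁)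
       rw [div_le_iff₀ hδ] at hN₁1
       rw [div_le_iff₀ hc₂] at hN₁2
       have htot := total_le hnpos (e := e)
         (fun k i j => fl (d.pk (n + i) (w k v)) (d.pk (n + j) (w k v))
           (Bad d (Mx d kmax (xr d w₀ ρ v)) kz g k₇ c₁ r (w k v) (phi d C Q w₀ ρ (Mx d kmax) v r uu)))
         (fun k j => ms (d.pk (n + j) (w k v))
           (fun a => Bad d (Mx d kmax (xr d w₀ ρ v)) kz g k₇ c₁ r (w k v)
             (phi d C Q w₀ ρ (Mx d kmax) v r uu) (ρ k v) a))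
         (fun k j => ms (d.pk (n + j) (w k v))
           (fun a => Bad d (Mx d kmax (xr d w₀ ρ v)) kz g k₇ c₁ r (w k v)
             (phi d C Q w₀ ρ (Mx d kmax) v r uu) a (ρ k v)))
         (fun k i j => fl_nonneg (pk_nonneg hok.law.nonneg _) (pk_nonneg hok.law.nonneg _) _)
         (fun k j => ms_nonneg (pk_nonneg hok.law.nonneg _) _)
         (fun k j => ms_nonneg (pk_nonneg hok.law.nonneg _) _) hle
       rw [Finset.mem_Ico] at hr
       refine one_triple (κ := κc) (δc := δc) hκ0 (n := n) (R₀ := R₀) (kz := kz) (g := g) (k₇ := k₇) (r := r) (q := q) (h := h)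
         (n0 := n0) (dd := e) (c₁ := c₁) (c₂ := c₂) (C₁ := C₁) (δ := δ) (e := e) (K := K) (D₀ := D₀)
         (C := C) (v := v) (u := uu) hok hS hCU hv hvG
         (fun m hm P φ ε F h0 h1 h2 h3 h4 h5 => hO m hm d.Om ℝ P φ ε F h0 h1 h2 h3 h4 h5)
         (by omega) hnpos hc₂ z2 z3 ?_ (by omega) (by omega) ?_ ?_ (fun k => (htot k).1)
         (fun k => (htot k).2.1) (fun k => (htot k).2.2) le_rfl he1 he2 he0.le ?_ ?_ hg
       · intro k i hi
         have h1 := (hvk k).1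
         rw [hE1] at h1
         simp only [Set.mem_ofPred_eq, not_exists, not_and, not_lt] at h1
         exact h1 i hi
       · intro k
         have h1 := (hvk k).2.1
         rw [hE2] at h1
         simp only [Set.mem_ofPred_eq, not_lt] at h1
         exact h1
       · intro k
         have h1 := (hvk k).2.2
         rw [hE3] at h1
         simp only [Set.mem_ofPred_eq, not_lt] at h1
         exact h1
       · nlinarith only [hN₁1, hδ, hN₁n]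
       · nlinarith only [hN₁2, hc₂, hN₁n]


end Pool.OCL
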