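import Pool.Agent.H83.OCG.Time2
import Pool.Agent.H79.OCV.GeoR

/-!
# Theorem OCV for arbitrary time laws: statements

`OCVLStmt`, `OCVRLStmt`: theorem OCV (`Pool.OCV.OCVGStmt`, `Pool.OCV.OCVRGStmt`) where the
hypothesis that the digits of the time are full given the line is replaced by a much weaker one
(`TM`): in the mean over the scales `i`, two samples of one line and of one window of the scale `i`
are not nearer than `2 ^ (-(i + k'))`, outside probability `εT`. The number `εT` is chosen before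
`k'`, and so are `x₀`, `ε`, the lengths `η`, `κ` of the blocks of (H4), (H5) and the size `π₁` of
the events of (H4).
-/

set_option autoImplicit false

namespace Pool.OCL

open Finset Real
open Pool.Agent.H49.Ent Pool.Agent.H32.Dense Pool.STK Pool.KAF Pool.OCM Pool.OCV
open Pool.KA Pool.K2S Pool.K2S.Uni
open Pool.OCG (nr)

/-- The time is nearly independent of the line given the context. -/
def TI {c : ℕ} (d : Dat c) (ι : ℝ) : Prop := Pool.KVA.MI d.P d.T d.L d.B ≤ ι * d.X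

/-- The sum over the scales of the probabilities that two samples of one line and of one window
of the scale `i` are nearer than `2 ^ (-(i + k'))`. -/
def TM {c : ℕ} (d : Dat c) (k' : ℕ) (ε : ℝ) : Prop :=
  ∑ i ∈ range d.X, nr d.P d.L (fun ω => d.th (d.T ω)) k' i ≤ ε * d.X

/-- **Theorem OCV for arbitrary time laws.** -/
def OCVLStmt (c : ℕ) : Prop :=
  ∀ c₀ ca p₀ : ℝ, 0 < c₀ → 0 < ca → 0 < p₀ → ∃ x₀ ε η κ π₁ εT : ℝ, 0 < x₀ ∧ 0 < ε ∧ 0 < η ∧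
    η ≤ 1 ∧ 0 < κ ∧ κ ≤ 1 ∧ 0 < π₁ ∧ 0 < εT ∧ ∀ A k' : ℕ,
    ∃ (π₀ ι : ℝ) (X₀ : ℕ), 0 < π₀ ∧ 0 < ι ∧
      ∀ d : Dat c, d.OK A → X₀ ≤ d.X → TI d ι → TM d k' εT → d.H2 ι → d.H3 ι → d.H4 ca η π₁ →
        d.H5 c₀ κ π₀ → d.H6b x₀ p₀ ε → d.H7 ι → False

/-- **The real form.** -/
def OCVRLStmt (c : ℕ) : Prop :=
  ∀ (c₀ ca p₀ : ℝ), 0 < c₀ → 0 < ca → 0 < p₀ → ∃ (x₀ ε η κ ϖ₁ εT : ℝ), 0 < x₀ ∧ 0 < ε ∧
    0 < η ∧ η ≤ 1 ∧ 0 < κ ∧ κ ≤ 1 ∧ 0 < ϖ₁ ∧ 0 < εT ∧ ∀ (K : ℝ) (k' : ℕ),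
    ∃ (ϖ ι : ℝ) (X₀ : ℕ), 0 < ϖ ∧ 0 < ι ∧
    ∀ (Ω β Λ Θ ν : Type) [Fintype Ω] (p : Ω → ℝ) (b : Ω → β) (L : Ω → Λ) (T : Ω → Θ)
      (vis : Ω → ν) (y om : Ω → ℝ) (be m0 : Ω → Fin c → ℝ) (th : Ω → ℝ)
      (S kn nu : Ω → Fin c → ℝ) (X : ℕ), OCVData K p b L T vis y om be m0 th S kn nu → X₀ ≤ X →
      Pool.KVA.MI p T L b ≤ ι * X →
      ∑ i ∈ range X, nr p L th k' i ≤ εT * X →
      CH p (dgv X nu) (fun ω => (b ω, T ω)) -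
        CH p (dgv X nu) (fun ω => ((dg X y ω, (dg X om ω, dgv X be ω)), (b ω, T ω))) ≤ ι * X →
      CH p (dg X om) (fun ω => (b ω, T ω)) -
        CH p (dg X om) (fun ω => ((dg X (ytr y om th) ω, dgv X (btr om be S) ω),
          (b ω, T ω))) ≤ ι * X →
      (∀ j : ℕ, (j + 1) * ⌊η * X⌋₊ ≤ X → ∀ E : Ω → Prop, ϖ₁ ≤ Pe p E →
        ca * ⌊η * X⌋₊ * Real.log 2 ≤ CH (Pool.Agent.H49.Ent.cond p E True)
          (dg ((j + 1) * ⌊η * X⌋₊) om) (fun ω => (dg (j * ⌊η * X⌋₊) om ω, b ω))) →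
      (∀ j : ℕ, (j + 1) * ⌊κ * X⌋₊ ≤ X → ∀ E : Ω → Prop, ϖ ≤ Pe p E →
        CH (Pool.Agent.H49.Ent.cond p E True) (dgv ((j + 1) * ⌊κ * X⌋₊) nu)
          (fun ω => (dgv (j * ⌊κ * X⌋₊) nu ω, (vis ω, T ω))) ≤
            (c - c₀) * ⌊κ * X⌋₊ * Real.log 2) →
      H6bR p L (fun ω => (vis ω, dgv X nu ω, T ω)) S X x₀ p₀ ε →
      CH p (dgv X nu) (fun ω => (vis ω, T ω)) -
        CH p (dgv X nu) (fun ω => (b ω, (vis ω, T ω))) ≤ ι * X → False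

end Pool.OCL
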