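import Pool.Agent.H14.OCL.Thm

/-!
# The real form of theorem OCV for arbitrary time laws
-/

set_option autoImplicit false

namespace Pool.OCL

open Finset Real
open Pool.Agent.H49.Ent Pool.Agent.H32.Dense Pool.STK Pool.KA Pool.K2S
open Pool.K2S.Uni Pool.OCV
open Pool.OCG (nr)

/-- **The real form.** -/
theorem ocvrl_of {c : ℕ} (h : OCVLStmt c) : OCVRLStmt c := by
  intro c₀ ca p₀ hc₀ hca hp₀
  obtain ⟨x₀, ε, η, κ, ϖ₁, εT, hx, hε, hη, hη1, hκ, hκ1, hϖ₁, hεT, h⟩ :=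
    h c₀ (ca / 2) p₀ hc₀ (by positivity) hp₀
  refine ⟨x₀ / 2, ε, η, κ, ϖ₁, εT, by positivity, hε, hη, hη1, hκ, hκ1, hϖ₁, hεT,
    fun K k' => ?_⟩
  obtain ⟨B, hB⟩ : ∃ B : ℕ, K ≤ 2 ^ B := by
    obtain ⟨n, hn⟩ := exists_nat_ge K
    refine ⟨n, hn.trans ?_⟩
    exact_mod_cast Nat.lt_two_pow_self.le
  obtain ⟨ϖ, ι, X₀, hϖ, hι, H⟩ := h B k'
  obtain ⟨X₁, hX₁⟩ := exists_nat_ge ((4 * B + 4 + 6 * c) * Real.log 2 / ι + 2 * B / x₀ +
    (2 * B / ca + 1) / η)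
  have hl : 0 < Real.log 2 := Real.log_pos (by norm_num)
  refine ⟨ϖ, ι / 2, max X₀ X₁, hϖ, by positivity, ?_⟩
  intro Ω β Λ Θ ν _ p b L T vis y om be m0 th S kn nu X hd hX h1 h1' h2 h3 h4 h5 h6b h7
  obtain ⟨f, hk⟩ := mk_exists hd hB X
  have hX0 : X₀ ≤ X := le_trans (le_max_left _ _) hX
  have hX1 : (X₁ : ℝ) ≤ X := by exact_mod_cast le_trans (le_max_right _ _) hX
  have a1 : 0 ≤ (4 * B + 4 + 6 * c) * Real.log 2 / ι := by positivity
  have a2 : 0 ≤ 2 * B / x₀ := by positivity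
  have a3 : 0 ≤ (2 * B / ca + 1) / η := by positivity
  have b1 : (4 * B + 4 + 6 * c) * Real.log 2 ≤ ι * X := by
    have : (4 * B + 4 + 6 * c) * Real.log 2 / ι ≤ X := by linarith
    rw [div_le_iff₀ hι] at this
    linarith
  have b2 : 2 * B ≤ x₀ * X := by
    have : 2 * B / x₀ ≤ X := by linarith
    rw [div_le_iff₀ hx] at this
    linarith
  have b3 : 2 * B ≤ ca * ⌊η * X⌋₊ := by
    have : (2 * B / ca + 1) / η ≤ X := by linarith
    rw [div_le_iff₀ hη] at this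
    have k1 := Nat.lt_floor_add_one (η * X)
    have k2 : 2 * B / ca ≤ ⌊η * X⌋₊ := by linarith
    rw [div_le_iff₀ hca] at k2
    linarith
  have b4 : 4 * B * Real.log 2 ≤ ι * X := by
    have k1 : 4 * B * Real.log 2 ≤ (4 * B + 4 + 6 * c) * Real.log 2 := by
      refine mul_le_mul_of_nonneg_right ?_ hl.le
      have : (0 : ℝ) ≤ c := Nat.cast_nonneg c
      linarith
    linarith
  have hX' : (0 : ℝ) ≤ X := Nat.cast_nonneg X
  have c1 : ι / 2 * X ≤ ι * X := by nlinarith [mul_nonneg hι.le hX']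
  have q0 : ∀ ω, 0 ≤ p ω := hk.ok.law.nonneg
  have hTI : TI (mkV B p L T vis f nu X) ι := by
    refine le_trans (le_of_eq ?_) (h1.trans c1)
    show Pool.KVA.MI p T L (mkV B p L T vis f nu X).B = _
    rw [MI_eq q0, MI_eq q0]
    have e1 : CH p T (mkV B p L T vis f nu X).B = CH p T b :=
      CH_eq_of q0 (fun _ _ => rfl) hk.eb
    have e2 : CH p T (fun ω => (L ω, (mkV B p L T vis f nu X).B ω)) =
        CH p T (fun ω => (L ω, b ω)) :=
      CH_eq_of q0 (fun _ _ => rfl) fun ω hω => Prod.ext rfl (hk.eb ω hω)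
    rw [e1, e2]
  have hTM : TM (mkV B p L T vis f nu X) k' εT := by
    refine le_trans (le_of_eq ?_) h1'
    refine Finset.sum_congr rfl fun i _ => ?_
    exact Pool.OCG.nr_congr q0 L hk.eth k' i
  exact H (mkV B p L T vis f nu X) hk.ok hX0 hTI hTM
    (hk.H2 b4 h2) (hk.H3 hd.hth (fun ω hω i => (hd.hS ω hω i).trans hB) b1 h3)
    (hk.H4 hϖ₁ b3 h4) (mk_H5 h5) (hk.H6b b2 h6b) (hk.H7 (h7.trans c1))

/-- **The real form of theorem OCV** for arbitrary time laws, in every positive codimension. -/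
theorem ocvrl_thm {c : ℕ} (hc : 0 < c) : OCVRLStmt c := ocvrl_of (ocvl_thm hc)

end Pool.OCL
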