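import Pool.Agent.H14.OCL.SelV
import Pool.Agent.H14.OCL.Real

/-!
# Theorem OCV for arbitrary time laws, in density form

`ocvdl_thm : 0 < c → OCVDLStmt c`: if the hypotheses of theorem OCV, without the one on the rows,
hold for the contexts after `r` rows, all sub-blocks of the rows and all large events, then the
rows of the normal position are full.
-/

set_option autoImplicit false

namespace Pool.OCL

open Finset Real
open Pool.Agent.H49.Ent Pool.Agent.H32.Dense Pool.STK Pool.KA Pool.OC Pool.K2S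
open Pool.K2S.Uni Pool.OCV
open Pool.OCG (nr)

/-- The hypotheses of theorem OCV on the position, the velocity and the frames. -/
structure OCVHyp {Ω β Λ Θ ν : Type} [Fintype Ω] {c : ℕ} (p : Ω → ℝ) (b : Ω → β) (L : Ω → Λ)
    (T : Ω → Θ) (vis : Ω → ν) (y om : Ω → ℝ) (be : Ω → Fin c → ℝ) (th : Ω → ℝ)
    (S nu : Ω → Fin c → ℝ) (X k' : ℕ) (x₀ ι ca η ϖ₁ p₀ ε εT : ℝ) : Prop where
  h1 : Pool.KVA.MI p T L b ≤ ι * X
  h1' : ∑ i ∈ range X, nr p L th k' i ≤ εT * X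
  h2 : CH p (dgv X nu) (fun ω => (b ω, T ω)) -
    CH p (dgv X nu) (fun ω => ((dg X y ω, (dg X om ω, dgv X be ω)), (b ω, T ω))) ≤ ι * X
  h3 : CH p (dg X om) (fun ω => (b ω, T ω)) -
    CH p (dg X om) (fun ω => ((dg X (ytr y om th) ω, dgv X (btr om be S) ω), (b ω, T ω))) ≤ ι * X
  h4 : ∀ j : ℕ, (j + 1) * ⌊η * X⌋₊ ≤ X → ∀ E : Ω → Prop, ϖ₁ ≤ Pe p E →
    ca * ⌊η * X⌋₊ * Real.log 2 ≤ CH (Pool.Agent.H49.Ent.cond p E True)
      (dg ((j + 1) * ⌊η * X⌋₊) om) (fun ω => (dg (j * ⌊η * X⌋₊) om ω, b ω))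
  h6 : H6bR p L (fun ω => (vis ω, dgv X nu ω, T ω)) S X x₀ p₀ ε
  h7 : CH p (dgv X nu) (fun ω => (vis ω, T ω)) -
    CH p (dgv X nu) (fun ω => (b ω, (vis ω, T ω))) ≤ ι * X

/-- **Theorem OCV for arbitrary time laws, in density form.** -/
def OCVDLStmt (c : ℕ) : Prop :=
  ∀ (ε ca p₀ : ℝ), 0 < ε → 0 < ca → 0 < p₀ → ∃ (x₀ ε₁ η₄ ϖ₄ εT η ϖ : ℝ), 0 < x₀ ∧ 0 < ε₁ ∧
    0 < η₄ ∧ η₄ ≤ 1 ∧ 0 < ϖ₄ ∧ 0 < εT ∧ 0 < η ∧ 0 < ϖ ∧ ∀ (K Kn : ℝ) (k' : ℕ), 0 ≤ Kn →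
    ∃ (ι : ℝ) (n₀ : ℕ), 0 < ι ∧
    ∀ (Ω β Λ Θ ν : Type) [Fintype Ω] (p : Ω → ℝ) (b : ℕ → Ω → β) (L : Ω → Λ) (T : Ω → Θ)
      (vis : ℕ → Ω → ν) (y om : ℕ → Ω → ℝ) (be m0 : ℕ → Ω → Fin c → ℝ) (th : Ω → ℝ)
      (S kn nu : ℕ → Ω → Fin c → ℝ) (d X : ℕ), 1 ≤ d → n₀ * d ≤ X →
      (∀ r, d ∣ r → r ≤ X → OCVData K p (b r) L T (vis r) (y r) (om r) (be r) (m0 r) th (S r)
        (kn r) (nu r)) →
      (∀ r, d ∣ r → r ≤ X → Det p (fun ω => (vis r ω, T ω)) (vis 0)) →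
      (∀ r, d ∣ r → r ≤ X → ∃ κ : Ω → Fin c → ℝ, Det p (fun ω => (vis r ω, T ω)) κ ∧
        ∀ ω, 0 < p ω → ∀ i, |2 ^ r * nu 0 ω i - nu r ω i - κ ω i| * 2 ^ (X - r) ≤ Kn) →
      (∀ r X' : ℕ, d ∣ r → d ∣ X' → η * X ≤ X' → r + X' ≤ X → ∀ A : Ω → Prop, ϖ ≤ Pe p A →
        OCVHyp (Pool.Agent.H49.Ent.cond p A True) (b r) L T (vis r) (y r) (om r) (be r) th (S r)
          (nu r) X' k' x₀ ι ca η₄ ϖ₄ p₀ ε₁ εT) →
      (c - ε) * X * Real.log 2 ≤ CH p (dgv X (nu 0)) (fun ω => (vis 0 ω, T ω))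

section

variable {Ω S T γ β Λ Θ ν : Type} [Fintype Ω] {c : ℕ}

omit [Fintype Ω] in
theorem nstS_dgv (y : Ω → Fin c → ℝ) : NstS (fun r => dgv r y) := by
  intro r k ω ω' h
  funext i
  have h1 : ⌊(2 : ℝ) ^ (r + k) * y ω i⌋ = ⌊(2 : ℝ) ^ (r + k) * y ω' i⌋ := congrFun h i
  have key : ∀ x : ℝ, ⌊(2 : ℝ) ^ r * x⌋ = ⌊(2 : ℝ) ^ (r + k) * x⌋ / ((2 ^ k : ℕ) : ℤ) := by
    intro x
    have h : (2 : ℝ) ^ r * x = ((2 : ℝ) ^ (r + k) * x) / ((2 ^ k : ℕ) : ℝ) := by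
      rw [pow_add]
      push_cast
      field_simp
    rw [h, Int.floor_div_natCast]
  show ⌊(2 : ℝ) ^ r * y ω i⌋ = ⌊(2 : ℝ) ^ r * y ω' i⌋
  rw [key, key, h1]

/-- An integer vector which is known up to `K` has entropy at most `c * log (2 K + 1)`. -/
theorem CH_nearV {q : Ω → ℝ} (hq : IsLaw q) (V : Ω → Fin c → ℤ) (Z : Ω → T) (g : Ω → Fin c → ℝ)
    (hg : Det q Z g) {K : ℝ} (hK : 0 ≤ K) (h : ∀ ω, 0 < q ω → ∀ i, |(V ω i : ℝ) - g ω i| ≤ K) :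
    CH q V Z ≤ c * Real.log (2 * K + 1) := by
  classical
  obtain ⟨F, hF⟩ : ∃ F : T → Finset (Fin c → ℤ), F = fun z =>
      if hz : ∃ ω, 0 < q ω ∧ Z ω = z then
        Fintype.piFinset (fun i => Finset.Icc ⌈g hz.choose i - K⌉ ⌊g hz.choose i + K⌋)
      else {0} := ⟨_, rfl⟩
  have hFz : ∀ ω, 0 < q ω →
      F (Z ω) = Fintype.piFinset (fun i => Finset.Icc ⌈g ω i - K⌉ ⌊g ω i + K⌋) := by
    intro ω hω
    have hz : ∃ ω', 0 < q ω' ∧ Z ω' = Z ω := ⟨ω, hω, rfl⟩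
    rw [hF]
    simp only
    rw [dif_pos hz]
    have h1 := hg _ _ hz.choose_spec.1 hω hz.choose_spec.2
    rw [h1]
  have h1 := CH_le_card hq.nonneg hq.sum_one V Z F (fun ω hω => by
    rw [hFz ω hω, Fintype.mem_piFinset]
    intro i
    rw [Finset.mem_Icc]
    have h2 := abs_le.1 (h ω hω i)
    exact ⟨Int.ceil_le.2 (by linarith), Int.le_floor.2 (by linarith)⟩)
  refine h1.trans ?_
  have hcard : ∀ x : ℝ, (((Finset.Icc ⌈x - K⌉ ⌊x + K⌋).card : ℕ) : ℝ) ≤ 2 * K + 1 := by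
    intro x
    rw [Int.card_Icc]
    rcases Nat.eq_zero_or_pos (⌊x + K⌋ + 1 - ⌈x - K⌉).toNat with h4 | h4
    · rw [h4]
      push_cast
      linarith
    · have h5 : (((⌊x + K⌋ + 1 - ⌈x - K⌉).toNat : ℤ) : ℝ) =
          ((⌊x + K⌋ + 1 - ⌈x - K⌉ : ℤ) : ℝ) := by
        have : 0 ≤ ⌊x + K⌋ + 1 - ⌈x - K⌉ := by omega
        rw [Int.toNat_of_nonneg this]
      have h6 : (((⌊x + K⌋ + 1 - ⌈x - K⌉).toNat : ℕ) : ℝ) =
          ((⌊x + K⌋ + 1 - ⌈x - K⌉ : ℤ) : ℝ) := by exact_mod_cast h5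
      rw [h6]
      push_cast
      have h7 := Int.floor_le (x + K)
      have h8 := Int.le_ceil (x - K)
      linarith
  have h3 : ∀ ω, q ω * Real.log ((F (Z ω)).card : ℝ) ≤ q ω * (c * Real.log (2 * K + 1)) := by
    intro ω
    rcases (hq.nonneg ω).eq_or_lt with h0 | h0
    · rw [← h0]
      simp
    refine mul_le_mul_of_nonneg_left ?_ h0.le
    rw [hFz ω h0, Fintype.card_piFinset]
    have h4 : ((∏ i, (Finset.Icc ⌈g ω i - K⌉ ⌊g ω i + K⌋).card : ℕ) : ℝ) ≤ (2 * K + 1) ^ c := by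
      push_cast
      refine (Finset.prod_le_prod (fun i _ => Nat.cast_nonneg _) fun i _ => hcard (g ω i)).trans
        (le_of_eq ?_)
      rw [Finset.prod_const, Finset.card_univ, Fintype.card_fin]
    rcases Nat.eq_zero_or_pos (∏ i, (Finset.Icc ⌈g ω i - K⌉ ⌊g ω i + K⌋).card) with h5 | h5
    · rw [h5]
      simp only [Nat.cast_zero, Real.log_zero]
      exact mul_nonneg (Nat.cast_nonneg _) (Real.log_nonneg (by linarith))
    · rw [← Real.log_pow]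
      exact Real.log_le_log (by exact_mod_cast h5) h4
  calc Ex q (fun ω => Real.log ((F (Z ω)).card : ℝ)) ≤
        ∑ ω, q ω * (c * Real.log (2 * K + 1)) := Finset.sum_le_sum fun ω _ => h3 ω
    _ = c * Real.log (2 * K + 1) := by rw [← Finset.sum_mul, hq.sum_one, one_mul]

/-- Rows of two vectors which are equal up to a function of the condition. -/
theorem rows_leV {q : Ω → ℝ} (hq : IsLaw q) (Z : Ω → T) (ct : Ω → γ) (hc : Det q Z ct)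
    {x x' κ : Ω → Fin c → ℝ} (hκ : Det q Z κ) {K : ℝ} (hK : 0 ≤ K) {r a b : ℕ} (hab : a ≤ b)
    (h : ∀ ω, 0 < q ω → ∀ i, |2 ^ r * x ω i - x' ω i - κ ω i| * 2 ^ b ≤ K) :
    CH q (dgv b x') (fun ω => (dgv a x' ω, Z ω)) ≤
      CH q (dgv (r + b) x) (fun ω => (dgv (r + a) x ω, ct ω)) +
        2 * (c * Real.log (2 * (K + 2) + 1)) := by
  have h0 := hq.nonneg
  have key : ∀ n, n ≤ b → ∀ ω, 0 < q ω → ∀ i,
      |(dgv n x' ω i : ℝ) - (dgv (r + n) x ω i - 2 ^ n * κ ω i)| ≤ K + 2 := by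
    intro n hn ω hω i
    have h1 := h ω hω i
    have h2 : |2 ^ r * x ω i - x' ω i - κ ω i| * 2 ^ n ≤ K :=
      (mul_le_mul_of_nonneg_left (pow_le_pow_right₀ (by norm_num) hn) (abs_nonneg _)).trans h1
    rw [← abs_of_pos (by positivity : (0 : ℝ) < 2 ^ n), ← abs_mul] at h2
    have h3 := abs_le.1 h2
    unfold dgv
    have f1 := Int.floor_le ((2 : ℝ) ^ n * x' ω i)
    have f2 := Int.lt_floor_add_one ((2 : ℝ) ^ n * x' ω i)
    have f3 := Int.floor_le ((2 : ℝ) ^ (r + n) * x ω i)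
    have f4 := Int.lt_floor_add_one ((2 : ℝ) ^ (r + n) * x ω i)
    have e : (2 : ℝ) ^ (r + n) * x ω i = 2 ^ r * x ω i * 2 ^ n := by rw [pow_add]; ring
    rw [e] at f3 f4 ⊢
    rw [abs_le]
    constructor <;> nlinarith
  -- the last rows
  have s1 : CH q (dgv b x') (fun ω => (dgv (r + b) x ω, (dgv (r + a) x ω, Z ω))) ≤
      c * Real.log (2 * (K + 2) + 1) := by
    refine CH_nearV hq _ _ (fun ω i => dgv (r + b) x ω i - 2 ^ b * κ ω i) ?_ (by linarith)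
      (key b le_rfl)
    intro ω ω' hω hω' e
    have e1 := Prod.ext_iff.mp e
    have e2 := Prod.ext_iff.mp e1.2
    have e3 : dgv (r + b) x ω = dgv (r + b) x ω' := e1.1
    have e4 := hκ ω ω' hω hω' e2.2
    funext i
    show ((dgv (r + b) x ω i : ℝ) - 2 ^ b * κ ω i) = _
    rw [e3, e4]
  -- the first rows
  have s2 : CH q (dgv (r + a) x) (fun ω => (dgv a x' ω, Z ω)) ≤
      c * Real.log (2 * (K + 2) + 1) := by
    refine CH_nearV hq _ _ (fun ω i => dgv a x' ω i + 2 ^ a * κ ω i) ?_ (by linarith) ?_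
    · intro ω ω' hω hω' e
      have e1 := Prod.ext_iff.mp e
      have e3 : dgv a x' ω = dgv a x' ω' := e1.1
      have e4 := hκ ω ω' hω hω' e1.2
      funext i
      show ((dgv a x' ω i : ℝ) + 2 ^ a * κ ω i) = _
      rw [e3, e4]
    · intro ω hω i
      have h1 := abs_le.1 (key a hab ω hω i)
      rw [abs_le]
      constructor <;> linarith
  -- the chain
  have t1 : CH q (dgv b x') (fun ω => (dgv a x' ω, Z ω)) ≤
      CH q (dgv (r + a) x) (fun ω => (dgv a x' ω, Z ω)) +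
        CH q (dgv b x') (fun ω => (dgv (r + a) x ω, (dgv a x' ω, Z ω))) := by
    have c1 := CH_le_add h0 (dgv b x') (dgv (r + a) x) (fun ω => (dgv a x' ω, Z ω))
    linarith
  have t2 : CH q (dgv b x') (fun ω => (dgv (r + a) x ω, (dgv a x' ω, Z ω))) ≤
      CH q (dgv b x') (fun ω => (dgv (r + a) x ω, Z ω)) := by
    refine CH_mono_cond h0 ?_
    intro ω ω' _ _ e
    have e1 := Prod.ext_iff.mp e
    have e2 := Prod.ext_iff.mp e1.2
    exact Prod.ext e1.1 e2.2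
  have t3 : CH q (dgv b x') (fun ω => (dgv (r + a) x ω, Z ω)) ≤
      CH q (dgv (r + b) x) (fun ω => (dgv (r + a) x ω, Z ω)) +
        CH q (dgv b x') (fun ω => (dgv (r + b) x ω, (dgv (r + a) x ω, Z ω))) :=
    CH_le_add h0 (dgv b x') (dgv (r + b) x) (fun ω => (dgv (r + a) x ω, Z ω))
  have t4 : CH q (dgv (r + b) x) (fun ω => (dgv (r + a) x ω, Z ω)) ≤
      CH q (dgv (r + b) x) (fun ω => (dgv (r + a) x ω, ct ω)) := by
    refine CH_mono_cond h0 ?_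
    intro ω ω' hω hω' e
    have e1 := Prod.ext_iff.mp e
    exact Prod.ext e1.1 (hc ω ω' hω hω' e1.2)
  linarith

theorem ocvData_mono {K : ℝ} {p q : Ω → ℝ} {b : Ω → β} {L : Ω → Λ} {T : Ω → Θ} {vis : Ω → ν}
    {y om : Ω → ℝ} {be m0 : Ω → Fin c → ℝ} {th : Ω → ℝ} {S kn nu : Ω → Fin c → ℝ}
    (h : OCVData K p b L T vis y om be m0 th S kn nu) (hq : IsLaw q)
    (hqp : ∀ ω, 0 < q ω → 0 < p ω) : OCVData K q b L T vis y om be m0 th S kn nu := by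
  have key : ∀ {τ σ : Type} {A : Ω → τ} {x : Ω → σ}, Det p A x → Det q A x :=
    fun hd ω ω' a a' e => hd ω ω' (hqp ω a) (hqp ω' a') e
  exact ⟨hq, key h.db, key h.dvis, key h.dy, key h.dom, key h.dbe, key h.dm0, key h.dth,
    key h.dS, key h.dkn, fun ω hω => h.hy ω (hqp ω hω), fun ω hω => h.hom ω (hqp ω hω),
    fun ω hω => h.hbe ω (hqp ω hω), fun ω hω => h.hth ω (hqp ω hω),
    fun ω hω => h.hS ω (hqp ω hω), fun ω hω => h.hnu ω (hqp ω hω)⟩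

end

/-- **The density form from the local theorem.** -/
theorem ocvdl_of {c : ℕ} (hc : 0 < c) (h : OCVRLStmt c) : OCVDLStmt c := by
  classical
  intro ε₀ ca p₀ hε₀ hca hp₀
  have hcr : (0 : ℝ) < c := by exact_mod_cast hc
  obtain ⟨ε, hε⟩ : ∃ ε, ε = min (ε₀ / c) 1 := ⟨_, rfl⟩
  have hεp : 0 < ε := by rw [hε]; exact lt_min (by positivity) one_pos
  have hε1 : ε ≤ 1 := by rw [hε]; exact min_le_right _ _
  have hεε : ε * c ≤ ε₀ := by
    have : ε ≤ ε₀ / c := by rw [hε]; exact min_le_left _ _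
    rwa [le_div_iff₀ hcr] at this
  obtain ⟨x₀, ε₁, η₄, κ, ϖ₄, εT, hx₀, hε₁, hη₄, hη₄1, hκ, hκ1, hϖ₄, hεT, hOC⟩ :=
    h (c * ε / 32) ca p₀ (by positivity) hca hp₀
  obtain ⟨η, ϖ, n₁, hη, hϖ, hsel⟩ := selS ε κ hεp hε1 hκ
  refine ⟨x₀, ε₁, η₄, ϖ₄, εT, η, ϖ, hx₀, hε₁, hη₄, hη₄1, hϖ₄, hεT, hη, hϖ, ?_⟩
  intro K Kn k' hKn
  obtain ⟨ϖ₁, ι, X₁, hϖ₁, hι, hOC⟩ := hOC K k'
  obtain ⟨lK, hlK⟩ : ∃ lK, lK = c * Real.log (2 * (Kn + 2) + 1) := ⟨_, rfl⟩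
  have hlK0 : 0 ≤ lK := by
    rw [hlK]
    exact mul_nonneg hcr.le (Real.log_nonneg (by linarith))
  obtain ⟨u, hu⟩ : ∃ u, u = c * Real.log 2 := ⟨_, rfl⟩
  have hu0 : 0 < u := by
    rw [hu]
    exact mul_pos hcr (Real.log_pos (by norm_num))
  -- the sizes of the sub-blocks
  obtain ⟨X₂, hX₂⟩ := exists_nat_ge ((X₁ + 2 / κ + 4 / κ * (64 * lK / (ε * u))) / η)
  refine ⟨ι, n₁ + X₂ + 1, hι, ?_⟩
  intro Ω β Λ Θ ν _ p b L T vis y om be m0 th S kn nu d X hd hX hdat hnest hlnk hhyp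
  have hXd : (n₁ + X₂ + 1) * d ≤ X := hX
  have hX1 : 1 ≤ X := by
    have : 1 * 1 ≤ (n₁ + X₂ + 1) * d := Nat.mul_le_mul (by omega) hd
    omega
  have hXX₂ : X₂ ≤ X := by
    have h1 : X₂ * 1 ≤ (n₁ + X₂ + 1) * d := Nat.mul_le_mul (by omega) hd
    omega
  have hXn₁ : n₁ * d ≤ X := (Nat.mul_le_mul_right d (by omega)).trans hXd
  have hXr : (0 : ℝ) < X := by exact_mod_cast hX1
  have hp : IsLaw p := (hdat 0 (dvd_zero _) (Nat.zero_le _)).law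
  by_contra hcon
  have hcon := not_le.1 hcon
  have hCH : CH p (dgv X (nu 0)) (fun ω => (dgv 0 (nu 0) ω, (vis 0 ω, T ω))) ≤
      (1 - ε) * X * u := by
    have h1 : CH p (dgv X (nu 0)) (fun ω => (dgv 0 (nu 0) ω, (vis 0 ω, T ω))) ≤
        CH p (dgv X (nu 0)) (fun ω => (vis 0 ω, T ω)) :=
      CH_mono_cond hp.nonneg fun ω ω' _ _ e => (Prod.ext_iff.mp e).2
    have h2 : (c - ε₀) * X * Real.log 2 ≤ (1 - ε) * X * u := by
      have h3 : (c - ε₀) * X * Real.log 2 ≤ (c - ε * c) * X * Real.log 2 := by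
        have hl : 0 ≤ Real.log 2 := Real.log_nonneg (by norm_num)
        exact mul_le_mul_of_nonneg_right (mul_le_mul_of_nonneg_right (by linarith) hXr.le) hl
      refine h3.trans (le_of_eq ?_)
      rw [hu]
      ring
    linarith
  obtain ⟨r, X', A, hdr, hdX', hrX, hηX, hA, hq⟩ := hsel p (fun r => dgv r (nu 0))
    (fun ω => (vis 0 ω, T ω)) d X u hu0 hp (nstS_dgv _) hd hX1 hXn₁ hCH
  have hrX' : r ≤ X := by omega
  have hApos : 0 < Pe p A := hϖ.trans_le hA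
  have hqlaw : IsLaw (Pool.Agent.H49.Ent.cond p A True) := Uni.isLaw_cond' hp.nonneg A hApos
  have hqA : ∀ ω, 0 < Pool.Agent.H49.Ent.cond p A True ω → 0 < p ω ∧ A ω := fun ω hω => by
    have := (cond_pos_iff hp.nonneg A True ω).1 hω
    exact ⟨this.1, of_eq_true this.2⟩
  obtain ⟨κf, hκf, hκb⟩ := hlnk r hdr hrX'
  have hH := hhyp r X' hdr hdX' hηX hrX A hA
  -- the size of the block
  have hX2r : (X₁ + 2 / κ + 4 / κ * (64 * lK / (ε * u))) / η ≤ X :=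
    hX₂.trans (by exact_mod_cast hXX₂)
  rw [div_le_iff₀ hη] at hX2r
  have hX'r : X₁ + 2 / κ + 4 / κ * (64 * lK / (ε * u)) ≤ (X' : ℝ) := by linarith
  have g1 : 0 ≤ 4 / κ * (64 * lK / (ε * u)) := by positivity
  have g2 : 0 < 2 / κ := by positivity
  have hX1' : X₁ ≤ X' := by
    have : (X₁ : ℝ) ≤ X' := by linarith
    exact_mod_cast this
  obtain ⟨h, hh⟩ : ∃ h, h = ⌊κ * X'⌋₊ := ⟨_, rfl⟩
  have hX'0 : (0 : ℝ) ≤ X' := Nat.cast_nonneg _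
  have hX₁0 : (0 : ℝ) ≤ X₁ := Nat.cast_nonneg _
  have hκX : 2 ≤ κ * X' := by
    have : 2 / κ ≤ X' := by linarith
    rw [div_le_iff₀ hκ] at this
    linarith
  have hhlo : κ * X' ≤ 2 * h := by
    have : κ * X' < h + 1 := by rw [hh]; exact Nat.lt_floor_add_one _
    linarith
  have hhbig : 64 * lK ≤ ε * (h * u) := by
    have h1 : 4 / κ * (64 * lK / (ε * u)) ≤ X' := by linarith
    rw [div_mul_eq_mul_div, div_le_iff₀ hκ] at h1
    have h2 : 64 * lK / (ε * u) ≤ h := by linarith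
    rw [div_le_iff₀ (by positivity)] at h2
    linarith
  refine hOC Ω β Λ Θ ν (Pool.Agent.H49.Ent.cond p A True) (b r) L T (vis r) (y r) (om r) (be r)
    (m0 r) th (S r) (kn r) (nu r) X'
    (ocvData_mono (hdat r hdr hrX') hqlaw fun ω hω => (hqA ω hω).1) hX1'
    hH.h1 hH.h1' hH.h2 hH.h3 hH.h4 ?_ hH.h6 hH.h7
  intro j hj E hE
  rw [← hh] at hj ⊢
  have hEpos : 0 < Pe (Pool.Agent.H49.Ent.cond p A True) E := hϖ₁.trans_le hE
  have hElaw : IsLaw (Pool.Agent.H49.Ent.cond (Pool.Agent.H49.Ent.cond p A True) E True) :=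
    Uni.isLaw_cond' hqlaw.nonneg E hEpos
  have hEp : ∀ ω, 0 < Pool.Agent.H49.Ent.cond (Pool.Agent.H49.Ent.cond p A True) E True ω →
      0 < p ω ∧ A ω := fun ω hω =>
    hqA ω ((cond_pos_iff hqlaw.nonneg E True ω).1 hω).1
  have hjh : j * h ≤ (j + 1) * h := Nat.mul_le_mul_right h (by omega)
  have h1 := rows_leV hElaw (fun ω => (vis r ω, T ω)) (fun ω => (vis 0 ω, T ω))
    (fun ω ω' hω hω' e => Prod.ext (hnest r hdr hrX' ω ω' (hEp ω hω).1 (hEp ω' hω').1 e)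
      (Prod.ext_iff.mp e).2) (x := nu 0) (x' := nu r) (κ := κf)
    (fun ω ω' hω hω' e => hκf ω ω' (hEp ω hω).1 (hEp ω' hω').1 e) hKn (r := r) (a := j * h)
    (b := (j + 1) * h) hjh (fun ω hω i => by
      refine le_trans (mul_le_mul_of_nonneg_left ?_ (abs_nonneg _)) (hκb ω (hEp ω hω).1 i)
      exact pow_le_pow_right₀ (by norm_num) (by omega))
  have h2 := hq _ hElaw hEp (j * h) ((j + 1) * h) hjh hj (by
    push_cast
    linarith)
  refine h1.trans ?_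
  have h3 : (((j + 1) * h : ℕ) : ℝ) - ((j * h : ℕ) : ℝ) = h := by
    push_cast
    ring
  rw [h3] at h2
  rw [← hlK]
  have h4 : CH (Pool.Agent.H49.Ent.cond (Pool.Agent.H49.Ent.cond p A True) E True)
      (dgv (r + (j + 1) * h) (nu 0))
      (fun ω => (dgv (r + j * h) (nu 0) ω, (vis 0 ω, T ω))) ≤ (1 - ε / 16) * (h * u) := h2
  have h5 : (1 - ε / 16) * (h * u) + 2 * lK ≤ (1 - ε / 32) * (h * u) := by linarith
  have h6 : (1 - ε / 32) * (h * u) = (c - c * ε / 32) * h * Real.log 2 := by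
    rw [hu]
    ring
  linarith

/-- **Theorem OCV for arbitrary time laws, in density form**, in every positive codimension. -/
theorem ocvdl_thm {c : ℕ} (hc : 0 < c) : OCVDLStmt c := ocvdl_of hc (ocvrl_thm hc)

end Pool.OCL
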