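import Pool.Agent.H14.OCL.Tim
import Pool.Agent.H79.OCV.GeoT

/-!
# The references for arbitrary time laws
-/

set_option autoImplicit false

namespace Pool.OCL

open Finset Real
open Pool.Agent.H49.Ent Pool.Agent.H32.Dense Pool.STK Pool.KAF
open Pool.OCM Pool.OCV
open Pool.OCV.MD Pool.OCV.SC

/-- **GEO** for arbitrary time laws. `kz = 0`. -/
def GEOLStmt (c : ℕ) : Prop :=
  ∀ p₀ uu dd : ℝ, 0 < p₀ → 0 < uu → 0 < dd → ∃ ν x₀ q₀ ε εT C : ℝ, 0 < ν ∧ ν ≤ uu ∧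
    0 < x₀ ∧ 0 < q₀ ∧ 0 < ε ∧ 0 < εT ∧ 1 ≤ C ∧ ∀ k' : ℕ, ∃ X₀ : ℕ, ∀ (A : ℕ) (d : Dat c)
      (ι' : ℝ), d.OK A → X₀ ≤ d.X → TI d ι' → TM d k' εT → d.H7 ι' → d.H6b x₀ p₀ ε →
      ∃ (R : Type) (_ : Fintype R) (Q : R → ℝ) (w₀ : R → d.Om) (w ρ : Fin c → R → d.Om)
        (kmax : ℕ), Sch d Q w₀ w ρ (C * ι') ∧ (kmax : ℝ) ≤ uu * d.X ∧
        q₀ ≤ Pr Q (Pool.OCV.Good d w₀ w ρ ⌊ν * d.X⌋₊ 0 kmax dd)

/-- **GEO** for arbitrary time laws. -/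
theorem geol_thm {c : ℕ} (hc : 0 < c) : GEOLStmt c := by
  classical
  intro p₀ uu dd hp₀ huu hdd
  obtain ⟨p, hpd⟩ : ∃ p : ℝ, p = min p₀ 1 := ⟨_, rfl⟩
  have hp : 0 < p := by rw [hpd]; exact lt_min hp₀ one_pos
  have hpp : p ≤ p₀ := by rw [hpd]; exact min_le_left _ _
  obtain ⟨Q1, hQ1⟩ : ∃ Q1 : ℝ, Q1 = 1 / 2 * (p / 4) ^ c := ⟨_, rfl⟩
  have hQ0 : 0 < Q1 := by rw [hQ1]; positivity
  have hc' : (0 : ℝ) < c := by exact_mod_cast hc
  have hc1 : (1 : ℝ) ≤ c := by exact_mod_cast hc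
  obtain ⟨N, hN⟩ := exists_nat_ge (8 * (c : ℝ) ^ 2 / (dd * Q1) + 1)
  have hN1 : (1 : ℝ) ≤ N := by
    have : 0 ≤ 8 * (c : ℝ) ^ 2 / (dd * Q1) := by positivity
    linarith only [hN, this]
  have hN0 : 0 < N := by exact_mod_cast lt_of_lt_of_le one_pos hN1
  have hN' : (0 : ℝ) < N := by linarith only [hN1]
  have hNb : (c : ℝ) * (c / ((N : ℝ) + 1) / (dd / 2)) ≤ Q1 / 4 := by
    have h1 : 8 * (c : ℝ) ^ 2 / (dd * Q1) ≤ N + 1 := by linarith only [hN]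
    rw [div_le_iff₀ (by positivity)] at h1
    have e1 : (c : ℝ) * (c / ((N : ℝ) + 1) / (dd / 2)) = 2 * (c : ℝ) ^ 2 / ((N + 1) * dd) := by
      field_simp
    rw [e1, div_le_iff₀ (by positivity)]
    linarith only [h1]
  obtain ⟨b, hb⟩ : ∃ b : ℝ, b = min (p / 16) (Q1 / (4 * c * N)) := ⟨_, rfl⟩
  have hb0 : 0 < b := by rw [hb]; exact lt_min (by positivity) (by positivity)
  have hb1 : b ≤ p / 16 := by rw [hb]; exact min_le_left _ _
  have hb2 : c * N * b ≤ Q1 / 4 := by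
    have h1 : b ≤ Q1 / (4 * c * N) := by rw [hb]; exact min_le_right _ _
    rw [le_div_iff₀ (by positivity)] at h1
    linarith only [h1]
  obtain ⟨ν, hν⟩ : ∃ ν : ℝ, ν = min (1 / 4) (uu / (8 * c)) := ⟨_, rfl⟩
  have hν0 : 0 < ν := by rw [hν]; exact lt_min (by norm_num) (by positivity)
  have hν4 : ν ≤ 1 / 4 := by rw [hν]; exact min_le_left _ _
  have hνc : 8 * c * ν ≤ uu := by
    have h1 : ν ≤ uu / (8 * c) := by rw [hν]; exact min_le_right _ _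
    rw [le_div_iff₀ (by positivity)] at h1
    linarith only [h1]
  have hνu : ν ≤ uu := by nlinarith only [hνc, huu, hc', hc1]
  obtain ⟨εT, hεT, hT⟩ := t23 c (δ := b / 2) (κ₂ := ν) (π₁ := b / 4) (by positivity) hν0 hν4
    (by positivity)
  have hne : Nonempty (Fin c → Fin c × Fin N) := ⟨fun _ => (⟨0, hc⟩, ⟨0, hN0⟩)⟩
  have hcard : (0 : ℝ) < Fintype.card (Fin c → Fin c × Fin N) := by
    exact_mod_cast Fintype.card_pos
  refine ⟨ν, ν, Q1 / 2 / Fintype.card (Fin c → Fin c × Fin N), 1 / 4, εT, c * (N + 1) + 1,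
    hν0, hνu, hν0, by positivity, by norm_num, hεT, ?_, ?_⟩
  · have : 0 ≤ (c : ℝ) * (N + 1) := by positivity
    linarith only [this]
  intro R
  obtain ⟨XT, hT⟩ := hT R
  obtain ⟨X₁, hX₁⟩ := exists_nat_ge (((R : ℝ) + 1) / ν + 2 * (2 * (c * c) + c + 1) / uu)
  refine ⟨max XT X₁, ?_⟩
  intro A d ι' hok hX H1 HT H7 H6b
  have hP := hok.law
  have hX1 : (X₁ : ℝ) ≤ d.X := by exact_mod_cast (le_max_right _ _).trans hX
  have a1 : 0 ≤ ((R : ℝ) + 1) / ν := by positivity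
  have a2 : 0 ≤ 2 * (2 * ((c : ℝ) * c) + c + 1) / uu := by positivity
  have b1 : (R : ℝ) + 1 ≤ ν * d.X := by
    have : ((R : ℝ) + 1) / ν ≤ d.X := by linarith only [hX₁, hX1, a2]
    rw [div_le_iff₀ hν0] at this
    linarith only [this]
  have b2 : 2 * (2 * ((c : ℝ) * c) + c + 1) ≤ uu * d.X := by
    have : 2 * (2 * ((c : ℝ) * c) + c + 1) / uu ≤ d.X := by linarith only [hX₁, hX1, a1]
    rw [div_le_iff₀ huu] at this
    linarith only [this]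
  have hX0 : (0 : ℝ) ≤ d.X := Nat.cast_nonneg _
  have hR0 : (0 : ℝ) ≤ R := Nat.cast_nonneg _
  have hXp : (0 : ℝ) < d.X := by
    by_contra hcon
    have : (d.X : ℝ) = 0 := le_antisymm (not_lt.1 hcon) hX0
    rw [this, mul_zero] at b1
    linarith only [hν0, hν4, b1]
  have hι0 : 0 ≤ ι' := by
    have h1 := Pool.KVA.IDX.MI_nonneg hP d.T d.L d.B
    have h2 : 0 ≤ ι' * d.X := h1.trans H1
    by_contra hcon
    nlinarith only [hcon, hν0, h2, hν4, b1]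
  obtain ⟨hT2, hT3⟩ := hT d A hok ((le_max_left _ _).trans hX) HT
  obtain ⟨n, hn⟩ : ∃ n : ℕ, n = ⌊ν * d.X⌋₊ := ⟨_, rfl⟩
  have hn1 : (n : ℝ) ≤ ν * d.X := by rw [hn]; exact Nat.floor_le (by positivity)
  have hn2 : ν * d.X < n + 1 := by rw [hn]; exact Nat.lt_floor_add_one _
  have hRn : R ≤ n := by rw [hn]; exact Nat.le_floor (by linarith only [hν0, hν4, b1])
  have hn3 : 1 ≤ n := by rw [hn]; exact Nat.le_floor (by push_cast; linarith only [b1])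
  have hn3' : (1 : ℝ) ≤ n := by exact_mod_cast hn3
  have hνn : ν * d.X ≤ 3 * n := by linarith only [hν0, hν4, hn2, hn3']
  have hβ := near_mean d (by positivity : 0 ≤ b / 2) hn hRn hn3 hνn hP hT2 hT3
  have hβ' : ∑ ω, d.P ω * Pr (kM d n ω) (nr d n ω) ≤ b := by linarith only [hβ]
  have hbase := base_pr d hok hn3 hp hpp hβ' hb1 H6b
  obtain ⟨kmax, hk⟩ : ∃ kmax : ℕ,
    kmax = 2 * (c * c) + c * (3 * n + 1) + ⌈(c : ℝ) * (ν * d.X)⌉₊ := ⟨_, rfl⟩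
  have hk1 : (2 : ℝ) ^ (3 * n + 1) ≤ 2 ^ kmax := by
    refine pow_le_pow_right₀ (by norm_num) ?_
    have : 1 * (3 * n + 1) ≤ c * (3 * n + 1) := Nat.mul_le_mul_right _ hc
    omega
  have hk2 := size_ok c n (show 0 ≤ ν * (d.X : ℝ) by positivity) hk
  have hkX : (kmax : ℝ) ≤ uu * d.X := by
    have h1 : ((⌈(c : ℝ) * (ν * d.X)⌉₊ : ℕ) : ℝ) < c * (ν * d.X) + 1 :=
      Nat.ceil_lt_add_one (by positivity)
    rw [hk]
    push_cast
    have h2 : (c : ℝ) * n ≤ c * (ν * d.X) := mul_le_mul_of_nonneg_left hn1 hc'.le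
    have h3 : 8 * c * ν * d.X ≤ uu * d.X := mul_le_mul_of_nonneg_right hνc hX0
    have e1 : 8 * c * ν * (d.X : ℝ) = 8 * (c * (ν * d.X)) := by ring
    rw [e1] at h3
    have e2 : (c : ℝ) * (3 * n + 1) = 3 * (c * n) + c := by ring
    rw [e2]
    linarith only [b2, h1, h2, h3]
  have hθ : (0 : ℝ) < (2 : ℝ) ^ (-(ν * (d.X : ℝ))) := Real.rpow_pos_of_pos (by norm_num) _
  have hgood := good_pr d hok (n := n) (N := N) (kmax := kmax) hn3 hN0 (dd := dd)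
    (θ := (2 : ℝ) ^ (-(ν * (d.X : ℝ)))) (p := p) (β := b) (x := 1 / 2) hdd hθ hp hk1 hk2 hβ' hbase
  have hκ := kM_kr d hP hn3
  have hkok := kokG d hok hκ (m := c) (N := N)
  have hQ0' : ∀ z, 0 ≤ QG d (kM d n) c N z := QQ_nonneg hkok
  have hg2 : Q1 / 2 ≤ Pr (QG d (kM d n) c N) {z | ∃ f : Fin c → Fin c × Fin N,
        z ∈ Pool.OCV.Good d Prod.fst (fun k v => (v.2 (f k).1).1)
          (fun k v => (v.2 (f k).1).2 (f k).2) n 0 kmax dd} := by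
    refine le_trans ?_ hgood
    rw [← hQ1]
    linarith only [hNb, hb2]
  obtain ⟨f, hf⟩ := Pr_pig hQ0' (fun f : Fin c → Fin c × Fin N =>
    Pool.OCV.Good d Prod.fst (fun k v => (v.2 (f k).1).1)
      (fun k v => (v.2 (f k).1).2 (f k).2) n 0 kmax dd) hg2 (fun z hz _ => hz)
  refine ⟨d.Om × (Fin c → d.Om × (Fin N → d.Om)), inferInstance, QG d (kM d n) c N, Prod.fst,
    fun k v => (v.2 (f k).1).1, fun k v => (v.2 (f k).1).2 (f k).2, kmax,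
    schG d hok hκ f hι0 H1 H7, hkX, ?_⟩
  rw [← hn]
  exact hf

end Pool.OCL
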