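import Pool.Agent.H97.OC.OCD

/-!
# The selection lemma for arbitrary nested rows

`Pool.K2S.Sel.sel` where the rows are arbitrary nested variables and `u` is the entropy of a full
row.
-/

set_option autoImplicit false

namespace Pool.OCL

open Finset Real
open Pool.Agent.H49.Ent Pool.Agent.H32.Dense Pool.STK Pool.KA Pool.OC Pool.K2S
open Pool.K2S.Sel (ifo sum_ifo CH_le_ifo piece lt_div blocks good_path pigeon)

section

variable {Ω S T γ : Type} [Fintype Ω]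

/-- Nested rows. -/
def NstS (R : ℕ → Ω → S) : Prop := ∀ r k ω ω', R (r + k) ω = R (r + k) ω' → R r ω = R r ω'

/-- The information of the first `r` rows. -/
noncomputable def pth (p : Ω → ℝ) (R : ℕ → Ω → S) (c : Ω → γ) (r : ℕ) (ω : Ω) : ℝ :=
  -Real.log (law p (fun ω => (R r ω, c ω)) (R r ω, c ω))

theorem ifo_eq {p : Ω → ℝ} {R : ℕ → Ω → S} (hR : NstS R) (c : Ω → γ) {r r' : ℕ} (h : r ≤ r')
    (ω : Ω) : ifo p (R r') (fun ω => (R r ω, c ω)) ω = pth p R c r' ω - pth p R c r ω := by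
  obtain ⟨k, rfl⟩ := Nat.exists_eq_add_of_le h
  unfold ifo pth
  have e : law p (fun ω => (R (r + k) ω, (R r ω, c ω))) (R (r + k) ω, (R r ω, c ω)) =
      law p (fun ω => (R (r + k) ω, c ω)) (R (r + k) ω, c ω) := by
    classical
    unfold law
    refine Finset.sum_congr rfl fun ω' _ => ?_
    have : ((R (r + k) ω', (R r ω', c ω')) = (R (r + k) ω, (R r ω, c ω))) ↔
        ((R (r + k) ω', c ω') = (R (r + k) ω, c ω)) := by
      constructor
      · intro h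
        have h1 := Prod.ext_iff.mp h
        have h2 := Prod.ext_iff.mp h1.2
        exact Prod.ext h1.1 h2.2
      · intro h
        have h1 := Prod.ext_iff.mp h
        have h3 : R (r + k) ω' = R (r + k) ω := h1.1
        refine Prod.ext h3 (Prod.ext ?_ h1.2)
        exact hR r k ω' ω h3
    by_cases h1 : (R (r + k) ω', c ω') = (R (r + k) ω, c ω)
    · rw [if_pos h1, if_pos (this.2 h1)]
    · rw [if_neg h1, if_neg fun h2 => h1 (this.1 h2)]
  rw [e]
  ring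

theorem pth_mono {p : Ω → ℝ} (hp : ∀ ω, 0 ≤ p ω) {R : ℕ → Ω → S} (hR : NstS R) (c : Ω → γ)
    {ω : Ω} (hω : 0 < p ω) : Monotone fun r => pth p R c r ω := by
  intro r r' h
  obtain ⟨k, rfl⟩ := Nat.exists_eq_add_of_le h
  show pth p R c r ω ≤ pth p R c (r + k) ω
  unfold pth
  rw [neg_le_neg_iff]
  refine Real.log_le_log (law_pos hp (fun ω => (R (r + k) ω, c ω)) hω) ?_
  refine law_mono_of_det hp (X := fun ω => (R (r + k) ω, c ω)) (Y := fun ω => (R r ω, c ω)) ?_ hω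
  intro ω₁ ω₂ _ _ h
  have h1 := Prod.ext_iff.mp h
  have h3 : R (r + k) ω₁ = R (r + k) ω₂ := h1.1
  refine Prod.ext ?_ h1.2
  exact hR r k ω₁ ω₂ h3

/-- **(SEL)** The selection lemma. `d` is the unit of the rows, `u` the largest entropy of a
row. -/
theorem selS (ε κ : ℝ) (hε : 0 < ε) (hε1 : ε ≤ 1) (hκ : 0 < κ) :
    ∃ (η ϖ : ℝ) (n₀ : ℕ), 0 < η ∧ 0 < ϖ ∧ ∀ {Ω S γ : Type} [Fintype Ω] (p : Ω → ℝ)
      (R : ℕ → Ω → S) (c : Ω → γ) (d X : ℕ) (u : ℝ), 0 < u → IsLaw p → NstS R → 1 ≤ d → 1 ≤ X → n₀ * d ≤ X →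
      CH p (R X) (fun ω => (R 0 ω, c ω)) ≤ (1 - ε) * X * u →
      ∃ (r X' : ℕ) (A : Ω → Prop), d ∣ r ∧ d ∣ X' ∧ r + X' ≤ X ∧ η * X ≤ X' ∧ ϖ ≤ Pe p A ∧
        ∀ q : Ω → ℝ, IsLaw q → (∀ ω, 0 < q ω → 0 < p ω ∧ A ω) → ∀ a b : ℕ, a ≤ b → b ≤ X' →
          κ * X' ≤ 2 * ((b : ℝ) - a) →
          CH q (R (r + b)) (fun ω => (R (r + a) ω, c ω)) ≤
            (1 - ε / 16) * (((b : ℝ) - a) * u) := by
  classical
  obtain ⟨M, hM⟩ : ∃ M : ℕ, M = ⌈64 / (ε * κ)⌉₊ + 2 := ⟨_, rfl⟩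
  have hM2 : 2 ≤ M := by omega
  have hMr : 64 / (ε * κ) ≤ M := by
    rw [hM]
    push_cast
    linarith [Nat.le_ceil (64 / (ε * κ))]
  obtain ⟨D, hD⟩ : ∃ D : ℕ, D = ⌈8 * M / ε⌉₊ + 1 := ⟨_, rfl⟩
  have hDr : 8 * M / ε < D := by
    rw [hD]
    push_cast
    linarith [Nat.le_ceil (8 * M / ε)]
  have hD1 : 1 ≤ D := by omega
  obtain ⟨n₁, hn₁⟩ : ∃ n₁ : ℕ, n₁ = ⌈8 / ε⌉₊ + 2 := ⟨_, rfl⟩
  have hn₁r : 8 / ε ≤ n₁ := by
    rw [hn₁]
    push_cast
    linarith [Nat.le_ceil (8 / ε)]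
  have hn₁2 : 2 ≤ n₁ := by omega
  have hMD : 0 < M ^ D := by positivity
  have hMDr : (0 : ℝ) < (M : ℝ) ^ D := by positivity
  refine ⟨1 / (2 * (M : ℝ) ^ D), ε / 2 / (D * (M : ℝ) ^ D), M ^ D * n₁, by positivity, ?_, ?_⟩
  · have : (0 : ℝ) < D := by exact_mod_cast hD1
    positivity
  intro Ω S γ _ p R c d X u hu0 hp hR hd hX1 hX hCH
  have hXr : (0 : ℝ) < X := by exact_mod_cast hX1
  have hdr : (0 : ℝ) < d := by exact_mod_cast hd
  -- the unit
  obtain ⟨g, hg⟩ : ∃ g, g = X / (M ^ D * d) * d := ⟨_, rfl⟩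
  have hgd : d ∣ g := by rw [hg]; exact Dvd.intro_left _ rfl
  have hMDd : 0 < M ^ D * d := Nat.mul_pos hMD hd
  have hgX : g * M ^ D ≤ X := by
    rw [hg]
    calc X / (M ^ D * d) * d * M ^ D = X / (M ^ D * d) * (M ^ D * d) := by ring
      _ ≤ X := Nat.div_mul_le_self _ _
  have hXg : X < g * M ^ D + M ^ D * d := by
    rw [hg]
    calc X < (X / (M ^ D * d) + 1) * (M ^ D * d) := lt_div X hMDd
      _ = X / (M ^ D * d) * d * M ^ D + M ^ D * d := by ring
  have hXn : (n₁ : ℝ) * ((M : ℝ) ^ D * d) ≤ X := by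
    have : M ^ D * n₁ * d ≤ X := hX
    have h1 : ((M ^ D * n₁ * d : ℕ) : ℝ) ≤ X := by exact_mod_cast this
    push_cast at h1
    linarith
  have hXgr : (X : ℝ) < g * (M : ℝ) ^ D + (M : ℝ) ^ D * d := by exact_mod_cast hXg
  have hgXr : (g : ℝ) * (M : ℝ) ^ D ≤ X := by exact_mod_cast hgX
  have hMdX : (M : ℝ) ^ D * d ≤ ε / 8 * X := by
    have h1 : 8 / ε * ((M : ℝ) ^ D * d) ≤ X :=
      (mul_le_mul_of_nonneg_right hn₁r (by positivity)).trans hXn
    rw [div_mul_eq_mul_div, div_le_iff₀ hε] at h1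
    linarith
  have hMdX2 : (M : ℝ) ^ D * d ≤ X / 2 := by
    have h1 : (2 : ℝ) * ((M : ℝ) ^ D * d) ≤ X := by
      refine le_trans (mul_le_mul_of_nonneg_right ?_ (by positivity)) hXn
      exact_mod_cast hn₁2
    linarith
  have hgr : (1 / (2 * (M : ℝ) ^ D)) * X ≤ g := by
    rw [div_mul_eq_mul_div, one_mul, div_le_iff₀ (by positivity)]
    linarith
  have hg0 : 0 < g := by
    have : (0 : ℝ) < g := lt_of_lt_of_le (by positivity) hgr
    exact_mod_cast this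
  -- the good paths
  have hsum : ∑ ω, p ω * ifo p (R X) (fun ω => (R 0 ω, c ω)) ω ≤ (1 - ε) * (X * u) := by
    rw [sum_ifo]
    linarith
  have hG := good_path hp (v := ifo p (R X) (fun ω => (R 0 ω, c ω))) (fun ω hω => by
    rw [ifo_eq hR c (Nat.zero_le X)]
    exact sub_nonneg.2 (pth_mono hp.nonneg hR c hω (Nat.zero_le X))) hε hε1
    (B := X * u) (by positivity) hsum
  obtain ⟨E, hE⟩ : ∃ E : ℕ × ℕ → Ω → Prop, E = fun i ω => 0 < p ω ∧
      g * i.2 + g * M ^ (i.1 + 1) ≤ g * M ^ D ∧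
      ∀ j < M, pth p R c (0 + g * i.2 + (j + 1) * (g * M ^ i.1)) ω -
        pth p R c (0 + g * i.2 + j * (g * M ^ i.1)) ω ≤
          (1 - ε / 4 / 2) * (g * M ^ i.1) * u := ⟨_, rfl⟩
  obtain ⟨⟨k, a⟩, hka, hP⟩ := pigeon hp.nonneg (range D ×ˢ range (M ^ D))
    (fun ω => 0 < p ω ∧ ifo p (R X) (fun ω => (R 0 ω, c ω)) ω ≤ (1 - ε / 2) * (X * u)) E
    (by
      intro ω hω
      have hf := pth_mono hp.nonneg hR c hω.1
      have h1 : pth p R c (0 + g * M ^ D) ω - pth p R c 0 ω ≤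
          (1 - ε / 4) * (g * M ^ D) * u := by
        have h2 : pth p R c (0 + g * M ^ D) ω ≤ pth p R c X ω := hf (by omega)
        have h3 := hω.2
        rw [ifo_eq hR c (Nat.zero_le X)] at h3
        have h4 : (1 - ε / 2) * (X : ℝ) ≤ (1 - ε / 4) * (g * M ^ D) := by
          have h5 : (1 - ε / 8) * (X : ℝ) ≤ g * M ^ D := by linarith
          have h6 : (1 - ε / 4) * ((1 - ε / 8) * (X : ℝ)) ≤ (1 - ε / 4) * (g * M ^ D) :=
            mul_le_mul_of_nonneg_left h5 (by linarith)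
          nlinarith [mul_pos (mul_pos hε hε) hXr, mul_pos hε hXr]
        have h5 := mul_le_mul_of_nonneg_right h4 hu0.le
        linarith
      obtain ⟨k, a, hk, ha, hc⟩ := piece hf hM2 hg0 (ε := ε / 4) (u := u) (by positivity) hu0 D 0
        (1 - ε / 4) (by
          have h2 : 8 * M < D * ε := by rwa [div_lt_iff₀ hε] at hDr
          have h3 : (1 : ℝ) < D * (ε / 4 / (2 * M)) := by
            have hM0 : (0 : ℝ) < M := by positivity
            rw [div_div, ← mul_div_assoc, lt_div_iff₀ (by positivity)]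
            linarith
          linarith) le_rfl h1
      refine ⟨(k, a), ?_, ?_⟩
      · rw [Finset.mem_product, Finset.mem_range, Finset.mem_range]
        refine ⟨hk, ?_⟩
        have h2 : 0 < g * M ^ (k + 1) := by positivity
        have h3 : g * a < g * M ^ D := by omega
        exact lt_of_mul_lt_mul_left h3 (Nat.zero_le _)
      · rw [hE]
        exact ⟨hω.1, ha, hc⟩)
    ⟨(0, 0), by
      rw [Finset.mem_product, Finset.mem_range, Finset.mem_range]
      exact ⟨hD1, hMD⟩⟩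
  have hPE : ε / 2 / (D * (M : ℝ) ^ D) ≤ Pe p (E (k, a)) := by
    refine le_trans ?_ hP
    rw [Finset.card_product, Finset.card_range, Finset.card_range]
    push_cast
    exact div_le_div_of_nonneg_right hG (by positivity)
  -- the event is not empty
  have hne : ∃ ω, E (k, a) ω := by
    by_contra hcon
    push Not at hcon
    have h1 : Pe p (E (k, a)) = 0 := by
      rw [Pe_eq]
      exact Finset.sum_eq_zero fun ω _ => if_neg (hcon ω)
    rw [h1] at hPE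
    have : (0 : ℝ) < ε / 2 / (D * (M : ℝ) ^ D) := by
      have : (0 : ℝ) < D := by exact_mod_cast hD1
      positivity
    linarith
  obtain ⟨ω₀, hω₀⟩ := hne
  rw [hE] at hω₀
  have hle : g * a + g * M ^ (k + 1) ≤ g * M ^ D := hω₀.2.1
  refine ⟨g * a, g * M ^ (k + 1), E (k, a), hgd.mul_right _, hgd.mul_right _, by omega, ?_, hPE,
    ?_⟩
  · refine hgr.trans ?_
    push_cast
    have h1 : (1 : ℝ) ≤ (M : ℝ) ^ (k + 1) := one_le_pow₀ (by exact_mod_cast (by omega : 1 ≤ M))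
    have hg' : (0 : ℝ) < g := by exact_mod_cast hg0
    nlinarith
  intro q hq hqA x y hxy hy hκx
  refine (CH_le_ifo hp.nonneg hq (fun ω hω => (hqA ω hω).1) _ _).trans ?_
  have hpt : ∀ ω, q ω * ifo p (R (g * a + y)) (fun ω => (R (g * a + x) ω, c ω)) ω ≤
      q ω * ((1 - ε / 16) * (((y : ℝ) - x) * u)) := by
    intro ω
    rcases (hq.nonneg ω).eq_or_lt with h0 | h0
    · rw [← h0]
      simp
    refine mul_le_mul_of_nonneg_left ?_ h0.le
    obtain ⟨hω, hA⟩ := hqA ω h0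
    rw [hE] at hA
    have hf := pth_mono hp.nonneg hR c hω
    rw [ifo_eq hR c (by omega : g * a + x ≤ g * a + y)]
    have hℓ : 0 < g * M ^ k := by positivity
    have hc : ∀ i < M, (fun r => pth p R c r ω) (g * a + (i + 1) * (g * M ^ k)) -
        (fun r => pth p R c r ω) (g * a + i * (g * M ^ k)) ≤
        (1 - ε / 4 / 2) * ((g * M ^ k : ℕ) : ℝ) * u := by
      intro i hi
      have := hA.2.2 i hi
      simp only [Nat.zero_add] at this
      push_cast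
      exact this
    have h1 := blocks hf (s := 1 - ε / 4 / 2) (u := u) (by linarith) hu0.le hℓ hc hxy (by
      have : g * M ^ (k + 1) = M * (g * M ^ k) := by rw [pow_succ]; ring
      omega)
    refine h1.trans ?_
    have hX' : κ * ((g * M ^ (k + 1) : ℕ) : ℝ) ≤ 2 * ((y : ℝ) - x) := hκx
    have h2 : ((g * M ^ (k + 1) : ℕ) : ℝ) = M * ((g * M ^ k : ℕ) : ℝ) := by
      push_cast
      rw [pow_succ]
      ring
    rw [h2] at hX'
    have hℓr : (0 : ℝ) < ((g * M ^ k : ℕ) : ℝ) := by exact_mod_cast hℓ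
    obtain ⟨ℓ, hℓe⟩ : ∃ ℓ : ℝ, ℓ = ((g * M ^ k : ℕ) : ℝ) := ⟨_, rfl⟩
    rw [← hℓe] at hX' hℓr ⊢
    have h3 : 64 * ℓ ≤ ε * (κ * (M * ℓ)) := by
      have : 64 ≤ M * (ε * κ) := by
        rwa [div_le_iff₀ (by positivity)] at hMr
      nlinarith
    have h4 : 32 * ℓ ≤ ε * ((y : ℝ) - x) := by
      have := mul_le_mul_of_nonneg_left hX' hε.le
      linarith
    have h5 : (1 - ε / 4 / 2) * ((y : ℝ) - x + 2 * ℓ) ≤ (1 - ε / 16) * ((y : ℝ) - x) := by
      have : 0 ≤ ε * ℓ := by positivity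
      nlinarith
    calc (1 - ε / 4 / 2) * ((y : ℝ) - x + 2 * ℓ) * u ≤ (1 - ε / 16) * ((y : ℝ) - x) * u :=
          mul_le_mul_of_nonneg_right h5 hu0.le
      _ = (1 - ε / 16) * (((y : ℝ) - x) * u) := by ring
  refine (Finset.sum_le_sum fun ω _ => hpt ω).trans (le_of_eq ?_)
  rw [← Finset.sum_mul, hq.sum_one, one_mul]

end

end Pool.OCL
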