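import Pool.Agent.H14.OCL.Core
import Pool.Agent.H14.OCL.Geo

/-!
# Theorem OCV for arbitrary time laws

`ocvl_thm : OCVLStmt c` in every positive codimension.
-/

set_option autoImplicit false

namespace Pool.OCL

open Finset Real
open Pool.Agent.H49.Ent Pool.Agent.H32.Dense Pool.STK Pool.KAF
open Pool.OCM Pool.OCV

theorem TM_mono {c : ℕ} {d : Dat c} {k' : ℕ} {ε ε' : ℝ} (h : ε ≤ ε') (H : TM d k' ε) :
    TM d k' ε' := le_trans H (mul_le_mul_of_nonneg_right h (Nat.cast_nonneg _))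

/-- **CORE** in every positive codimension. -/
theorem corel_thm {c : ℕ} (hc : 0 < c) : CORELStmt c :=
  corel_of c (nfr_thm c) (actrl_thm c) (relal_of c (Pool.OCV.M17.rel_fin hc)) onel_thm

/-- The theorem from the two halves. -/
theorem ocvl_of {c : ℕ} (hC : CORELStmt c) (hG : GEOLStmt c) : OCVLStmt c := by
  intro c₀ ca p₀ h0 ha hp
  obtain ⟨uu, dd, hu, -, hdd, hC⟩ := hC c₀ ca h0 ha
  obtain ⟨ν, x₀, q₀, ε, εT₁, C, hν, hνu, hx, hq, hε, hεT₁, hC1, hG⟩ := hG p₀ uu dd hp hu hdd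
  obtain ⟨η, κ, π₁, εT₂, hη, hη1, hκ, hκ1, hπ₁, hεT₂, hC⟩ := hC 0 ν q₀ hν hνu hq
  refine ⟨x₀, ε, η, κ, π₁, min εT₁ εT₂, hx, hε, hη, hη1, hκ, hκ1, hπ₁, lt_min hεT₁ hεT₂,
    fun A k' => ?_⟩
  obtain ⟨X₁, hG⟩ := hG k'
  obtain ⟨π₀, ι₂, X₂, hπ, hι₂, hC⟩ := hC A k'
  have hC0 : 0 < C := lt_of_lt_of_le one_pos hC1
  refine ⟨π₀, ι₂ / C, max X₁ X₂, hπ, by positivity, ?_⟩
  intro d hok hX H1 HT H2 H3 H4 H5 H6b H7
  obtain ⟨R, hR, Q, w₀, w, ρ, kmax, hS, hk, hgood⟩ := hG A d (ι₂ / C) hok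
    (le_trans (le_max_left _ _) hX) H1 (TM_mono (min_le_left _ _) HT) H7 H6b
  have hXn : (0 : ℝ) ≤ d.X := Nat.cast_nonneg _
  have hι : ι₂ / C ≤ ι₂ := div_le_self hι₂.le hC1
  have hm : ι₂ / C * d.X ≤ ι₂ * d.X := mul_le_mul_of_nonneg_right hι hXn
  have hm20 : C * (ι₂ / C) = ι₂ := mul_div_cancel₀ _ hC0.ne'
  refine absurd (hC d hok (le_trans (le_max_right _ _) hX) (le_trans H1 hm)
    (TM_mono (min_le_right _ _) HT) (le_trans H2 hm) (le_trans H3 hm) H4 H5 R Q w₀ w ρ kmax ?_ hk)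
    (not_lt.mpr hgood)
  rw [hm20] at hS
  exact hS

/-- **Theorem OCV** for arbitrary time laws, in every positive codimension. -/
theorem ocvl_thm {c : ℕ} (hc : 0 < c) : OCVLStmt c := ocvl_of (corel_thm hc) (geol_thm hc)

end Pool.OCL
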